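import Mathlib

/-! Reduction of the affine plank statement (all `n`) to a finite core statement.
The argument is the one of `ThreePlanks` (helper54), written for general `n`. -/

namespace Pool.Agent.Lib.MP_79af62_gt.Glue

open Finset

/-- The sign attached to a Boolean. -/
def sg (e : Bool) : ℝ := if e then 1 else -1

theorem sg_sq (e : Bool) (x : ℝ) : sg e * (sg e * x) = x := by cases e <;> simp [sg]

theorem sg_le (e d : Bool) : sg d * sg e ≤ 1 := by cases e <;> cases d <;> simp [sg]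

/-- Finite core: `2 n` points `x j e` (extreme in the direction `sg e * e_j`, height `h j e ≥ 1`)
lying under `2 ^ n` hyperplanes with positive normals through the corners of the cube. -/
def Core (n : ℕ) : Prop :=
  ∀ (y : (Fin n → Bool) → Fin n → ℝ) (h : Fin n → Bool → ℝ) (x : Fin n → Bool → Fin n → ℝ),
    (∀ σ j, 0 < y σ j) → (∀ j e, 1 ≤ h j e) → (∀ j e, sg e * x j e j = h j e) →
    (∀ j e k d, sg d * x j e k ≤ h k d) →
    (∀ j b σ, ∑ i, y σ i * (sg (σ i) * x j b i - 1) ≤ 0) →
    1 ≤ ∑ j, 2 / (h j true + h j false)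

theorem core2 {n : ℕ} (C : Core n) {y : (Fin n → Bool) → Fin n → ℝ} {h : Fin n → Bool → ℝ}
    {x : Fin n → Bool → Fin n → ℝ} (hy : ∀ σ j, 0 < y σ j)
    (W0 : ∀ j, 0 < h j true + h j false)
    (hx : ∀ j e, sg e * x j e j = h j e) (hb : ∀ j e k d, sg d * x j e k ≤ h k d)
    (H : ∀ j b σ, ∑ i, y σ i * (sg (σ i) * x j b i - 1) ≤ 0) :
    1 ≤ ∑ j, 2 / (h j true + h j false) := by
  have key := C y (fun j e => max (h j e) 1)
    (fun j e k => if 1 ≤ h j e then x j e k else sg e) hy (fun j e => le_max_right _ _)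
    (fun j e => by
      by_cases c : 1 ≤ h j e
      · simp only [if_pos c, hx, max_eq_left c]
      · simp only [if_neg c, max_eq_right (not_le.1 c).le]
        simpa using sg_sq e 1)
    (fun j e k d => by
      by_cases c : 1 ≤ h j e
      · simp only [if_pos c]
        exact (hb _ _ _ _).trans (le_max_left _ _)
      · simp only [if_neg c]
        exact (sg_le _ _).trans (le_max_right _ _))
    (fun j b σ => by
      by_cases c : 1 ≤ h j b
      · simp only [if_pos c]
        exact H j b σ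
      · simp only [if_neg c]
        exact Finset.sum_nonpos fun i _ =>
          mul_nonpos_of_nonneg_of_nonpos (hy _ _).le (sub_nonpos.2 (sg_le _ _)))
  exact key.trans (Finset.sum_le_sum fun j _ =>
    div_le_div_of_nonneg_left zero_le_two (W0 j) (add_le_add (le_max_left _ _) (le_max_left _ _)))

theorem core3 {n : ℕ} (C : Core n) {y : (Fin n → Bool) → Fin n → ℝ} {h : Fin n → Bool → ℝ}
    {x : Fin n → Bool → Fin n → ℝ} (hy : ∀ σ j, 0 ≤ y σ j) (hs : ∀ σ, 0 < ∑ j, y σ j)
    (W0 : ∀ j, 0 < h j true + h j false)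
    (hx : ∀ j e, sg e * x j e j = h j e) (hb : ∀ j e k d, sg d * x j e k ≤ h k d)
    (H : ∀ j b σ, ∑ i, y σ i * (sg (σ i) * x j b i - 1) ≤ 0) :
    1 ≤ ∑ j, 2 / (h j true + h j false) := by
  refine le_of_forall_lt_imp_le_of_dense fun ρ hρ => ?_
  rcases le_or_gt ρ 0 with r0 | r0
  · exact r0.trans (Finset.sum_nonneg fun j _ => (div_pos two_pos (W0 j)).le)
  let N : (Fin n → Bool) → ℝ := fun σ => ∑ i, |h i (σ i)| + 1
  have N0 : ∀ σ, 0 < N σ := fun σ => by positivity
  let η : (Fin n → Bool) → ℝ := fun σ => (1 - ρ) * (∑ j, y σ j) / N σ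
  have η0 : ∀ σ, 0 < η σ := fun σ => div_pos (mul_pos (sub_pos.2 hρ) (hs σ)) (N0 σ)
  have key := core2 C (y := fun σ j => y σ j + η σ) (h := fun j e => ρ * h j e)
    (x := fun j e k => ρ * x j e k)
    (fun σ j => add_pos_of_nonneg_of_pos (hy _ _) (η0 _))
    (fun j => by rw [← mul_add]; exact mul_pos r0 (W0 j))
    (fun j e => by rw [← hx]; ring)
    (fun j e k d => by
      rw [mul_left_comm]; exact mul_le_mul_of_nonneg_left (hb _ _ _ _) r0.le)
    (fun j b σ => by
      have h0 := mul_le_mul_of_nonneg_left (H j b σ) r0.le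
      have h1 : η σ * N σ = (1 - ρ) * ∑ j, y σ j := div_mul_cancel₀ _ (N0 σ).ne'
      have h2 : ∀ k c, ρ * (sg c * x j b k) ≤ |h k c| := fun k c =>
        (mul_le_mul_of_nonneg_left ((hb _ _ _ _).trans (le_abs_self _)) r0.le).trans
          (mul_le_of_le_one_left (abs_nonneg _) hρ.le)
      have h3 : ∑ i, (ρ * (sg (σ i) * x j b i) - 1) ≤ N σ := by
        have : ∑ i, (ρ * (sg (σ i) * x j b i) - 1) ≤ ∑ i, |h i (σ i)| :=
          Finset.sum_le_sum fun i _ => by linarith [h2 i (σ i)]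
        simp only [N]
        linarith
      have h4 := mul_le_mul_of_nonneg_left h3 (η0 σ).le
      have e : ∑ i, (y σ i + η σ) * (sg (σ i) * (ρ * x j b i) - 1) =
          ρ * ∑ i, y σ i * (sg (σ i) * x j b i - 1) - (1 - ρ) * ∑ i, y σ i +
            η σ * ∑ i, (ρ * (sg (σ i) * x j b i) - 1) := by
        rw [Finset.mul_sum, Finset.mul_sum, Finset.mul_sum, ← Finset.sum_sub_distrib,
          ← Finset.sum_add_distrib]
        exact Finset.sum_congr rfl fun i _ => by ring
      rw [e]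
      linarith)
  have e : ∀ j, ρ * (2 / (ρ * h j true + ρ * h j false)) = 2 / (h j true + h j false) := by
    intro j
    have := W0 j
    rw [← mul_add]
    field_simp
  have := mul_le_mul_of_nonneg_left key r0.le
  rw [mul_one, Finset.mul_sum] at this
  simpa only [e] using this

theorem sep {n : ℕ} {K : Set (Fin n → ℝ)} (hK : Convex ℝ K) (hne : K.Nonempty) (σ : Fin n → Bool)
    (H : ∀ z ∈ K, ∃ j, sg (σ j) * z j ≤ 1) :
    ∃ y : Fin n → ℝ, (∀ j, 0 ≤ y j) ∧ 0 < ∑ j, y j ∧ ∀ z ∈ K,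
      ∑ j, y j * (sg (σ j) * z j - 1) ≤ 0 := by
  let U : Set (Fin n → ℝ) := ⋂ j, {z | 1 < sg (σ j) * z j}
  have hU : Convex ℝ U := convex_iInter fun j =>
    convex_halfSpace_gt (f := fun z : Fin n → ℝ => sg (σ j) * z j)
      ⟨fun a b => by simp [mul_add], fun c a => by simp [mul_left_comm]⟩ 1
  have hO : IsOpen U := isOpen_iInter_of_finite fun j =>
    isOpen_lt continuous_const (by fun_prop)
  obtain ⟨f, c, h1, h2⟩ := geometric_hahn_banach_open hU hO hK
    (Set.disjoint_left.2 fun z hz hz' => by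
      obtain ⟨j, hj⟩ := H z hz'
      exact absurd (Set.mem_iInter.1 hz j) (not_lt.2 hj))
  let y : Fin n → ℝ := fun j => -(sg (σ j) * f (Pi.single j 1))
  have hf : ∀ z : Fin n → ℝ, f z = -∑ j, y j * (sg (σ j) * z j) := by
    intro z
    conv_lhs => rw [pi_eq_sum_univ' z]
    rw [map_sum, ← Finset.sum_neg_distrib]
    refine Finset.sum_congr rfl fun j _ => ?_
    rw [map_smul, smul_eq_mul]
    have := sg_sq (σ j) (z j * f (Pi.single j 1))
    simp only [y]
    linarith
  have h3 : ∀ ζ : Fin n → ℝ, (∀ j, 1 < ζ j) → -c < ∑ j, y j * ζ j := by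
    intro ζ hζ
    have := h1 (fun j => sg (σ j) * ζ j) (Set.mem_iInter.2 fun j => by
      show 1 < sg (σ j) * (sg (σ j) * ζ j)
      rw [sg_sq]
      exact hζ j)
    rw [hf] at this
    simp only [sg_sq] at this
    linarith
  have y0 : ∀ j, 0 ≤ y j := by
    intro j
    by_contra hj
    have hj := not_le.1 hj
    obtain ⟨T, hT⟩ : ∃ T, T = |c| + |∑ i, y i * 2| := ⟨_, rfl⟩
    have T0 : 0 ≤ T / -y j := div_nonneg (by rw [hT]; positivity) (by linarith)
    have := h3 (fun i => 2 + if i = j then T / -y j else 0) fun i => by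
      split_ifs <;> linarith
    simp only [mul_add, Finset.sum_add_distrib, mul_ite, mul_zero, Finset.sum_ite_eq',
      Finset.mem_univ, if_true] at this
    have e : y j * (T / -y j) = -T := by
      have := hj.ne
      field_simp
    linarith [le_abs_self c, le_abs_self (∑ i, y i * 2)]
  have s0 : 0 ≤ ∑ j, y j := Finset.sum_nonneg fun j _ => y0 j
  have h4 : -c ≤ ∑ j, y j := by
    refine le_of_forall_pos_le_add fun ε hε => ?_
    have s1 : 0 < ∑ j, y j + 1 := by linarith
    have p : 0 < ε / (∑ j, y j + 1) := div_pos hε s1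
    have := h3 (fun _ => 1 + ε / (∑ j, y j + 1)) fun _ => by linarith
    rw [← Finset.sum_mul] at this
    have e := div_mul_cancel₀ ε s1.ne'
    nlinarith
  refine ⟨y, y0, ?_, fun z hz => ?_⟩
  · by_contra hs
    have z0 : ∀ j, y j = 0 := fun j =>
      (Finset.sum_eq_zero_iff_of_nonneg fun i _ => y0 i).1 (le_antisymm (not_lt.1 hs) s0) j
        (Finset.mem_univ _)
    obtain ⟨z, hz⟩ := hne
    have a := h2 z hz
    have b := h3 (fun _ => 2) fun _ => by norm_num
    rw [hf] at a
    simp only [z0, zero_mul, Finset.sum_const_zero] at a b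
    linarith
  · have a := h2 z hz
    rw [hf] at a
    simp only [mul_sub, mul_one, Finset.sum_sub_distrib]
    linarith

/-- The core statement for `n` planks gives the affine plank inequality for `n` planks. -/
theorem plank_of_core {n : ℕ} (hC : 0 < n → Core n) (d : ℕ) (C : Set (EuclideanSpace ℝ (Fin d)))
    (hcpt : IsCompact C) (hcvx : Convex ℝ C) (hint : (interior C).Nonempty)
    (u : Fin n → EuclideanSpace ℝ (Fin d)) (a b : Fin n → ℝ)
    (hu : ∀ i, u i ≠ 0) (hab : ∀ i, a i < b i)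
    (hcov : C ⊆ ⋃ i, {x | a i ≤ inner ℝ (u i) x ∧ inner ℝ (u i) x ≤ b i}) :
    1 ≤ ∑ i, (b i - a i) /
      (sSup ((fun x => inner ℝ (u i) x) '' C) - sInf ((fun x => inner ℝ (u i) x) '' C)) := by
  obtain ⟨x0, hx0⟩ := hint
  obtain ⟨r, hr, hball⟩ := Metric.mem_nhds_iff.1 (mem_interior_iff_mem_nhds.1 hx0)
  have hx0C : x0 ∈ C := interior_subset hx0
  have hn : 0 < n := by
    obtain ⟨j, -⟩ := Set.mem_iUnion.1 (hcov hx0C)
    exact Fin.pos j
  have hcont : ∀ i, ContinuousOn (fun x => inner ℝ (u i) x) C := fun i => by fun_prop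
  have bd := fun i => hcpt.image_of_continuousOn (hcont i)
  choose P hPC hP using fun i => hcpt.exists_sInf_image_eq ⟨x0, hx0C⟩ (hcont i)
  choose Q hQC hQ using fun i => hcpt.exists_sSup_image_eq ⟨x0, hx0C⟩ (hcont i)
  have lo : ∀ i, ∀ x ∈ C, inner ℝ (u i) (P i) ≤ inner ℝ (u i) x := fun i x hx =>
    (hP i).symm.le.trans (csInf_le (bd i).bddBelow (Set.mem_image_of_mem _ hx))
  have hi : ∀ i, ∀ x ∈ C, inner ℝ (u i) x ≤ inner ℝ (u i) (Q i) := fun i x hx =>
    (le_csSup (bd i).bddAbove (Set.mem_image_of_mem _ hx)).trans (hQ i).le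
  have hW0 : ∀ i, 0 < inner ℝ (u i) (Q i) - inner ℝ (u i) (P i) := by
    intro i
    have hn : 0 < ‖u i‖ := norm_pos_iff.2 (hu i)
    have h1 : x0 + (r / 2 / ‖u i‖) • u i ∈ C := by
      apply hball
      rw [Metric.mem_ball, dist_eq_norm, add_sub_cancel_left, norm_smul, Real.norm_eq_abs,
        abs_of_pos (by positivity), div_mul_cancel₀ _ hn.ne']
      linarith
    have h2 := hi i _ h1
    have h3 := lo i _ hx0C
    rw [inner_add_right, inner_smul_right, real_inner_self_eq_norm_sq] at h2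
    have h4 : 0 < r / 2 / ‖u i‖ * ‖u i‖ ^ 2 := by positivity
    linarith
  have w0 : ∀ i, 0 < b i - a i := fun i => sub_pos.2 (hab i)
  let φ : EuclideanSpace ℝ (Fin d) → Fin n → ℝ := fun x i =>
    (2 * inner ℝ (u i) x - (a i + b i)) / (b i - a i)
  have hK : Convex ℝ (φ '' C) := by
    rintro _ ⟨x, hx, rfl⟩ _ ⟨z, hz, rfl⟩ s t hs ht hst
    refine ⟨s • x + t • z, hcvx hx hz hs ht hst, funext fun i => ?_⟩
    have := w0 i
    simp only [φ, inner_add_right, inner_smul_right, Pi.add_apply, Pi.smul_apply, smul_eq_mul]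
    obtain rfl : t = 1 - s := by linarith
    field_simp
    ring
  have hS : ∀ σ : Fin n → Bool, ∀ z ∈ φ '' C, ∃ j, sg (σ j) * z j ≤ 1 := by
    rintro σ _ ⟨x, hx, rfl⟩
    obtain ⟨j, h1, h2⟩ := Set.mem_iUnion.1 (hcov hx)
    refine ⟨j, ?_⟩
    simp only [φ]
    rw [← mul_div_assoc, div_le_one (w0 j)]
    cases σ j <;> simp only [sg, if_true, Bool.false_eq_true, if_false] <;> linarith
  choose y y0 ys hy using fun σ => sep hK ⟨_, x0, hx0C, rfl⟩ σ (hS σ)
  let X : Fin n → Bool → EuclideanSpace ℝ (Fin d) := fun j e => if e then Q j else P j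
  have XC : ∀ j e, X j e ∈ C := fun j e => by
    cases e
    exacts [hPC j, hQC j]
  have e : ∀ j, sg true * φ (X j true) j + sg false * φ (X j false) j =
      2 * (inner ℝ (u j) (Q j) - inner ℝ (u j) (P j)) / (b j - a j) := by
    intro j
    simp only [φ, X, sg, if_true, Bool.false_eq_true, if_false]
    ring
  have key := core3 (hC hn) (y := y) (h := fun j e => sg e * φ (X j e) j)
    (x := fun j e => φ (X j e)) y0 ys
    (fun j => by rw [e]; exact div_pos (mul_pos two_pos (hW0 j)) (w0 j)) (fun _ _ => rfl)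
    (fun j e k d => by
      simp only [φ]
      rw [← mul_div_assoc, ← mul_div_assoc]
      refine div_le_div_of_nonneg_right ?_ (w0 k).le
      have h1 := lo k _ (XC j e)
      have h2 := hi k _ (XC j e)
      cases d <;> simp only [X, sg, if_true, Bool.false_eq_true, if_false] at h1 h2 ⊢ <;>
        linarith)
    (fun j c σ => hy σ _ ⟨_, XC j c, rfl⟩)
  refine key.trans (le_of_eq (Finset.sum_congr rfl fun j _ => ?_))
  have := hW0 j
  have := w0 j
  rw [e, hP, hQ]
  field_simp

/-- The core statement for all `n > 0` gives the statement of `S13413`. -/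
theorem glue (hC : ∀ n, 0 < n → Core n) :
    ∀ (d n : ℕ) (C : Set (EuclideanSpace ℝ (Fin d))),
      IsCompact C → Convex ℝ C → (interior C).Nonempty →
      ∀ (u : Fin n → EuclideanSpace ℝ (Fin d)) (a b : Fin n → ℝ),
        (∀ i, u i ≠ 0) → (∀ i, a i < b i) →
        C ⊆ ⋃ i, {x | a i ≤ inner ℝ (u i) x ∧ inner ℝ (u i) x ≤ b i} →
        1 ≤ ∑ i, (b i - a i) /
          (sSup ((fun x => inner ℝ (u i) x) '' C) - sInf ((fun x => inner ℝ (u i) x) '' C)) :=
  fun d n C h1 h2 h3 u a b h4 h5 h6 => plank_of_core (hC n) d C h1 h2 h3 u a b h4 h5 h6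

end Pool.Agent.Lib.MP_79af62_gt.Glue
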