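import Mathlib

/-! One-dimensional Prekopa-Leindler inequality in tail form, and the second-order form of
midpoint log-concavity. -/

namespace Pool.Agent.Lib.MP_79af62_gt.Dat

open Set Filter Topology

theorem der_nonneg {f : ℝ → ℝ} {d : ℝ} (h : HasDerivAt f d 0) (hm : ∀ t, 0 < t → f 0 ≤ f t) :
    0 ≤ d := by
  refine ge_of_tendsto h.tendsto_slope_zero_right ?_
  filter_upwards [self_mem_nhdsWithin] with t ht
  have ht' : 0 < t := ht
  simp only [zero_add, smul_eq_mul]
  exact mul_nonneg (inv_nonneg.2 ht'.le) (sub_nonneg.2 (hm t ht'))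

theorem cmp {f g : ℝ → ℝ} {a b x y : ℝ} (hf : HasDerivAt f a y) (hg : HasDerivAt g b x)
    (e : g x = y) : HasDerivAt (fun r => f (g r)) (a * b) x := by
  subst e
  exact hf.comp x hg

theorem pl {A B C u v w : ℝ → ℝ} (hA : ∀ s, HasDerivAt A (-u s) s)
    (hB : ∀ s, HasDerivAt B (-v s) s) (hC : ∀ s, HasDerivAt C (-w s) s)
    (hu : ∀ s, 0 < u s) (hv : ∀ s, 0 < v s) (hw : ∀ s, 0 < w s)
    (hm : ∀ s t, u s * v t ≤ w ((s + t) / 2) ^ 2)
    (A0 : ∀ s, 0 < A s) (B0 : ∀ s, 0 < B s) (C0 : ∀ s, 0 ≤ C s)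
    (tA : Tendsto A atTop (𝓝 0)) (tB : Tendsto B atTop (𝓝 0)) : A 0 * B 0 ≤ C 0 ^ 2 := by
  have aA : Antitone A := antitone_of_deriv_nonpos (fun s => (hA s).differentiableAt)
    fun s => by rw [(hA s).deriv]; linarith [hu s]
  have aB : Antitone B := antitone_of_deriv_nonpos (fun s => (hB s).differentiableAt)
    fun s => by rw [(hB s).deriv]; linarith [hv s]
  have cA : Continuous A := continuous_iff_continuousAt.2 fun s => (hA s).continuousAt
  have cB : Continuous B := continuous_iff_continuousAt.2 fun s => (hB s).continuousAt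
  have cC : Continuous C := continuous_iff_continuousAt.2 fun s => (hC s).continuousAt
  have key : ∀ k : ℝ, 0 < k → √(A 0 * B 0) ≤ (1 + k) * C 0 := by
    intro k hk
    by_contra hn
    set T : ℝ × ℝ → ℝ := fun p => (1 + k) * C ((p.1 + p.2) / 2) - √(A p.1 * B p.2) with hT
    set m : ℝ := √(A 0 * B 0) - (1 + k) * C 0 with hm0
    have mp : 0 < m := by rw [hm0]; linarith [not_le.1 hn]
    have T0 : T (0, 0) = -m := by simp [hT, hm0]
    have cT : Continuous T := by rw [hT]; fun_prop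
    have e1 : ∀ᶠ s in atTop, A s * B 0 < m ^ 2 :=
      (tA.mul_const (B 0)).eventually (gt_mem_nhds (by simpa using pow_pos mp 2))
    have e2 : ∀ᶠ s in atTop, A 0 * B s < m ^ 2 :=
      (tB.const_mul (A 0)).eventually (gt_mem_nhds (by simpa using pow_pos mp 2))
    obtain ⟨R, hR⟩ := eventually_atTop.1 (e1.and (e2.and (eventually_ge_atTop 0)))
    have R0 : 0 ≤ R := (hR R le_rfl).2.2
    obtain ⟨p, hp, pm⟩ := (isCompact_Icc.prod isCompact_Icc :
      IsCompact (Icc (0 : ℝ) R ×ˢ Icc (0 : ℝ) R)).exists_isMinOn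
      ⟨(0, 0), ⟨le_rfl, R0⟩, ⟨le_rfl, R0⟩⟩ cT.continuousOn
    have pT : T p ≤ -m := T0 ▸ pm (Set.mk_mem_prod ⟨le_rfl, R0⟩ ⟨le_rfl, R0⟩)
    have gl : ∀ s t, 0 ≤ s → 0 ≤ t → T p ≤ T (s, t) := by
      intro s t hs ht
      by_cases c : s ≤ R ∧ t ≤ R
      · exact pm (Set.mk_mem_prod ⟨hs, c.1⟩ ⟨ht, c.2⟩)
      · have lt : A s * B t < m ^ 2 := by
          rcases not_and_or.1 c with c | c
          · exact lt_of_le_of_lt (mul_le_mul_of_nonneg_left (aB ht) (A0 s).le)
              (hR s (not_le.1 c).le).1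
          · exact lt_of_le_of_lt (mul_le_mul_of_nonneg_right (aA hs) (B0 t).le)
              (hR t (not_le.1 c).le).2.1
        have l2 : √(A s * B t) < m := (Real.sqrt_lt' mp).2 lt
        have l3 : 0 ≤ (1 + k) * C ((s + t) / 2) := mul_nonneg (by linarith) (C0 _)
        have : T (s, t) = (1 + k) * C ((s + t) / 2) - √(A s * B t) := rfl
        linarith
    obtain ⟨s, t⟩ := p
    obtain ⟨⟨hs, -⟩, ⟨ht, -⟩⟩ := hp
    simp only at hs ht
    set a := A s / u s with ha
    set b := B t / v t with hb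
    have a0 : 0 < a := div_pos (A0 s) (hu s)
    have b0 : 0 < b := div_pos (B0 t) (hv t)
    have ua : u s * a = A s := by rw [ha]; field_simp [(hu s).ne']
    have vb : v t * b = B t := by rw [hb]; field_simp [(hv t).ne']
    have i1 : HasDerivAt (fun r : ℝ => s + r * a) a 0 := by
      simpa using ((hasDerivAt_id (0 : ℝ)).mul_const a).const_add s
    have i2 : HasDerivAt (fun r : ℝ => t + r * b) b 0 := by
      simpa using ((hasDerivAt_id (0 : ℝ)).mul_const b).const_add t
    have d1 : HasDerivAt (fun r : ℝ => A (s + r * a)) (-u s * a) 0 :=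
      cmp (hA s) i1 (by simp)
    have d2 : HasDerivAt (fun r : ℝ => B (t + r * b)) (-v t * b) 0 :=
      cmp (hB t) i2 (by simp)
    have d3 : HasDerivAt (fun r : ℝ => C ((s + r * a + (t + r * b)) / 2))
        (-w ((s + t) / 2) * ((a + b) / 2)) 0 :=
      cmp (g := fun r : ℝ => (s + r * a + (t + r * b)) / 2) (hC _) ((i1.add i2).div_const 2)
        (by simp)
    have P0 : 0 < A s * B t := mul_pos (A0 s) (B0 t)
    have d4 := (d1.mul d2).sqrt (by simpa using P0.ne')
    have d5 := der_nonneg ((d3.const_mul (1 + k)).sub d4) (fun r hr => by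
      have := gl (s + r * a) (t + r * b) (by positivity) (by positivity)
      simpa [hT] using this)
    simp only [Pi.mul_apply, zero_mul, add_zero] at d5
    set S := √(A s * B t) with hS
    have S0 : 0 < S := Real.sqrt_pos.2 P0
    have S2 : S ^ 2 = A s * B t := Real.sq_sqrt P0.le
    have e3 : (-u s * a * B t + A s * (-v t * b)) / (2 * S) = -S := by
      rw [div_eq_iff (by positivity), neg_mul, neg_mul, neg_mul, ua, vb]
      nlinarith
    rw [e3] at d5
    have W0 := hw ((s + t) / 2)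
    have e4 : S ≤ w ((s + t) / 2) * ((a + b) / 2) := by
      refine (sq_le_sq₀ S0.le (by positivity)).1 ?_
      rw [S2, ← ua, ← vb, mul_pow]
      have h1 : a * b ≤ ((a + b) / 2) ^ 2 := by nlinarith [sq_nonneg (a - b)]
      calc u s * a * (v t * b) = u s * v t * (a * b) := by ring
        _ ≤ _ := mul_le_mul (hm s t) h1 (by positivity) (by positivity)
    nlinarith
  have k2 : √(A 0 * B 0) ≤ C 0 := by
    refine le_of_forall_pos_le_add fun e he => ?_
    have h1 := key (e / (C 0 + 1)) (div_pos he (by linarith [C0 0]))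
    have h2 : e / (C 0 + 1) * C 0 ≤ e := by
      rw [div_mul_eq_mul_div, div_le_iff₀ (by linarith [C0 0])]
      nlinarith
    linarith
  exact (Real.sqrt_le_iff.1 k2).2

theorem second {f f1 : ℝ → ℝ} {d : ℝ} (h1 : ∀ s, HasDerivAt f (f1 s) s) (h2 : HasDerivAt f1 d 0)
    (hm : ∀ s, f s * f (-s) ≤ f 0 ^ 2) : d * f 0 ≤ f1 0 ^ 2 := by
  by_contra hn
  have n1 : ∀ s, HasDerivAt (fun s => f (-s)) (-f1 (-s)) s := fun s =>
    (cmp (g := fun r : ℝ => -r) (h1 (-s)) (hasDerivAt_neg s) rfl).congr_deriv (by ring)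
  have n2 : HasDerivAt (fun s => f1 (-s)) (-d) 0 :=
    (cmp (g := fun r : ℝ => -r) h2 (hasDerivAt_neg 0) neg_zero).congr_deriv (by ring)
  have r1 : ∀ s, HasDerivAt (fun s => f s * f (-s)) (f1 s * f (-s) - f s * f1 (-s)) s := fun s =>
    ((h1 s).mul (n1 s)).congr_deriv (by ring)
  have r2 : HasDerivAt (fun s => f1 s * f (-s) - f s * f1 (-s)) (2 * (d * f 0 - f1 0 ^ 2)) 0 :=
    ((h2.mul (n1 0)).sub ((h1 0).mul n2)).congr_deriv (by simp only [neg_zero]; ring)
  have ev : ∀ᶠ t in 𝓝[>] (0 : ℝ), 0 < f1 t * f (-t) - f t * f1 (-t) := by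
    have := r2.tendsto_slope_zero_right.eventually
      (lt_mem_nhds (show 0 < 2 * (d * f 0 - f1 0 ^ 2) by linarith [not_le.1 hn]))
    filter_upwards [this, self_mem_nhdsWithin] with t ht ht0
    have ht' : 0 < t := ht0
    simp only [zero_add, neg_zero, smul_eq_mul] at ht
    have e : f1 0 * f 0 - f 0 * f1 0 = 0 := by ring
    rw [e, sub_zero] at ht
    exact (mul_pos_iff_of_pos_left (inv_pos.2 ht')).1 ht
  obtain ⟨r, hr, hs⟩ := (mem_nhdsGT_iff_exists_Ioo_subset).1 ev
  have hr' : 0 < r := hr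
  obtain ⟨c, hc, hd⟩ := exists_hasDerivAt_eq_slope (fun s => f s * f (-s))
    (fun s => f1 s * f (-s) - f s * f1 (-s)) (show (0 : ℝ) < r / 2 by linarith)
    (fun s _ => (r1 s).continuousAt.continuousWithinAt) (fun s _ => r1 s)
  have p : 0 < f1 c * f (-c) - f c * f1 (-c) := hs ⟨hc.1, by linarith [hc.2]⟩
  rw [hd] at p
  have q := (div_pos_iff_of_pos_right (by linarith : (0 : ℝ) < r / 2 - 0)).1 p
  have := hm (r / 2)
  simp only [neg_zero] at q
  nlinarith

end Pool.Agent.Lib.MP_79af62_gt.Dat
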