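import Mathlib
import Pool.Agent.Lib.MP_79af62_gt.DatA

/-! The operator `F ↦ ∫_0^∞ e^t F (x + t d) dt` : differentiability, the first-order equation,
preservation of midpoint log-concavity. -/

namespace Pool.Agent.Lib.MP_79af62_gt.Dat

open Set Filter Topology MeasureTheory Real

variable {n : ℕ}

/-- Tilted integration along the ray in direction `d`. -/
noncomputable def Iop (d : Fin n → ℝ) (F : (Fin n → ℝ) → ℝ) (x : Fin n → ℝ) : ℝ :=
  ∫ t in Ioi (0 : ℝ), exp t * F (x + t • d)

/-- Hypotheses under which `Iop d F` behaves well. -/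
structure Pre (w L : ℝ) (M : (Fin n → ℝ) → ℝ) (d : Fin n → ℝ) (F : (Fin n → ℝ) → ℝ) : Prop where
  hw : 1 < w
  hL : 0 ≤ L
  pos : ∀ x, 0 < F x
  diff : Differentiable ℝ F
  nrm : ∀ x, ‖fderiv ℝ F x‖ ≤ L * F x
  cM : Continuous M
  bd : ∀ x t, 0 ≤ t → F (x + t • d) ≤ M x * exp (-w * t)

namespace Pre

variable {w L : ℝ} {M : (Fin n → ℝ) → ℝ} {d : Fin n → ℝ} {F : (Fin n → ℝ) → ℝ}

theorem bd' (h : Pre w L M d F) (x : Fin n → ℝ) {t : ℝ} (ht : 0 ≤ t) :
    exp t * F (x + t • d) ≤ M x * exp ((1 - w) * t) := by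
  have e : exp ((1 - w) * t) = exp t * exp (-w * t) := by rw [← exp_add]; congr 1; ring
  rw [e, mul_left_comm]
  exact mul_le_mul_of_nonneg_left (h.bd x t ht) (exp_pos t).le

theorem ie (h : Pre w L M d F) (c : ℝ) :
    IntegrableOn (fun t => c * exp ((1 - w) * t)) (Ioi (0 : ℝ)) :=
  (integrableOn_exp_mul_Ioi (by linarith [h.hw]) 0).const_mul c

theorem m0 (h : Pre w L M d F) (x : Fin n → ℝ) :
    AEStronglyMeasurable (fun t : ℝ => exp t * F (x + t • d)) (volume.restrict (Ioi 0)) := by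
  have := h.diff.continuous
  exact (by fun_prop : Continuous fun t : ℝ => exp t * F (x + t • d)).aestronglyMeasurable

theorem m1 (x : Fin n → ℝ) :
    AEStronglyMeasurable (fun t : ℝ => exp t • fderiv ℝ F (x + t • d))
      (volume.restrict (Ioi 0)) := by
  have a : Measurable fun t : ℝ => fderiv ℝ F (x + t • d) :=
    (measurable_fderiv ℝ F).comp (by fun_prop : Continuous fun t : ℝ => x + t • d).measurable
  exact continuous_exp.aestronglyMeasurable.smul a.aestronglyMeasurable

theorem n1 (h : Pre w L M d F) (x : Fin n → ℝ) {t : ℝ} (ht : 0 ≤ t) :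
    ‖exp t • fderiv ℝ F (x + t • d)‖ ≤ L * M x * exp ((1 - w) * t) := by
  rw [norm_smul, Real.norm_of_nonneg (exp_pos t).le, mul_assoc]
  calc _ ≤ exp t * (L * F (x + t • d)) := mul_le_mul_of_nonneg_left (h.nrm _) (exp_pos t).le
    _ = L * (exp t * F (x + t • d)) := by ring
    _ ≤ _ := mul_le_mul_of_nonneg_left (h.bd' x ht) h.hL

theorem int0 (h : Pre w L M d F) (x : Fin n → ℝ) :
    IntegrableOn (fun t : ℝ => exp t * F (x + t • d)) (Ioi 0) := by
  refine Integrable.mono' (h.ie (M x)) (h.m0 x) ?_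
  refine (ae_restrict_iff' measurableSet_Ioi).2 (Eventually.of_forall fun t ht => ?_)
  rw [Real.norm_of_nonneg (mul_pos (exp_pos t) (h.pos _)).le]
  exact h.bd' x (le_of_lt ht)

theorem int1 (h : Pre w L M d F) (x : Fin n → ℝ) :
    IntegrableOn (fun t : ℝ => exp t • fderiv ℝ F (x + t • d)) (Ioi 0) := by
  refine Integrable.mono' (h.ie (L * M x)) (m1 x) ?_
  exact (ae_restrict_iff' measurableSet_Ioi).2
    (Eventually.of_forall fun t ht => h.n1 x (le_of_lt ht))

theorem int2 (h : Pre w L M d F) (x v : Fin n → ℝ) :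
    IntegrableOn (fun t : ℝ => exp t * fderiv ℝ F (x + t • d) v) (Ioi 0) := by
  unfold IntegrableOn
  simpa using (h.int1 x).apply_continuousLinearMap v

theorem hasF (h : Pre w L M d F) (x : Fin n → ℝ) :
    HasFDerivAt (Iop d F) (∫ t in Ioi (0 : ℝ), exp t • fderiv ℝ F (x + t • d)) x := by
  have hs : {z | M z < M x + 1} ∈ 𝓝 x :=
    (isOpen_lt h.cM continuous_const).mem_nhds (by simp)
  refine hasFDerivAt_integral_of_dominated_of_fderiv_le
    (F := fun z (t : ℝ) => exp t * F (z + t • d))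
    (F' := fun z (t : ℝ) => exp t • fderiv ℝ F (z + t • d))
    (bound := fun t => L * (M x + 1) * exp ((1 - w) * t)) hs
    (Eventually.of_forall h.m0) (h.int0 x) (m1 x) ?_ (h.ie _) ?_
  · refine (ae_restrict_iff' measurableSet_Ioi).2 (Eventually.of_forall fun t ht z hz => ?_)
    refine (h.n1 z (le_of_lt ht)).trans ?_
    exact mul_le_mul_of_nonneg_right (mul_le_mul_of_nonneg_left (le_of_lt hz) h.hL) (exp_pos _).le
  · refine Eventually.of_forall fun t z _ => ?_
    have a : HasFDerivAt (fun z : Fin n → ℝ => F (z + t • d)) (fderiv ℝ F (z + t • d)) z := by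
      have := (h.diff (z + t • d)).hasFDerivAt.comp z ((hasFDerivAt_id z).add_const (t • d))
      rwa [ContinuousLinearMap.comp_id] at this
    exact a.const_mul (exp t)

theorem diffI (h : Pre w L M d F) : Differentiable ℝ (Iop d F) :=
  fun x => (h.hasF x).differentiableAt

theorem app (h : Pre w L M d F) (x v : Fin n → ℝ) :
    fderiv ℝ (Iop d F) x v = ∫ t in Ioi (0 : ℝ), exp t * fderiv ℝ F (x + t • d) v := by
  rw [(h.hasF x).fderiv, ContinuousLinearMap.integral_apply (h.int1 x)]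
  simp

end Pre

theorem line {F : (Fin n → ℝ) → ℝ} (hF : Differentiable ℝ F) (x d : Fin n → ℝ) (s : ℝ) :
    HasDerivAt (fun t : ℝ => F (x + t • d)) (fderiv ℝ F (x + s • d) d) s := by
  have a : HasDerivAt (fun t : ℝ => x + t • d) d s := by
    simpa using ((hasDerivAt_id s).smul_const d).const_add x
  exact (hF (x + s • d)).hasFDerivAt.comp_hasDerivAt s a

theorem tz {w : ℝ} (hw : 1 < w) (c : ℝ) :
    Tendsto (fun t : ℝ => c * exp ((1 - w) * t)) atTop (𝓝 0) := by
  have : Tendsto (fun t : ℝ => exp ((1 - w) * t)) atTop (𝓝 0) :=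
    tendsto_exp_atBot.comp (tendsto_id.const_mul_atTop_of_neg (by linarith))
  simpa using this.const_mul c

namespace Pre

variable {w L : ℝ} {M : (Fin n → ℝ) → ℝ} {d : Fin n → ℝ} {F : (Fin n → ℝ) → ℝ}

theorem ode (h : Pre w L M d F) (x : Fin n → ℝ) :
    fderiv ℝ (Iop d F) x d = -F x - Iop d F x := by
  have t0 : Tendsto (fun t : ℝ => exp t * F (x + t • d)) atTop (𝓝 0) := by
    refine squeeze_zero' (Eventually.of_forall fun t => (mul_pos (exp_pos t) (h.pos _)).le) ?_
      (tz h.hw (M x))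
    filter_upwards [eventually_ge_atTop (0 : ℝ)] with t ht using h.bd' x ht
  have e := integral_Ioi_of_hasDerivAt_of_tendsto' (a := 0)
    (f := fun t : ℝ => exp t * F (x + t • d))
    (f' := fun t : ℝ => exp t * F (x + t • d) + exp t * fderiv ℝ F (x + t • d) d)
    (fun t _ => (hasDerivAt_exp t).mul (line h.diff x d t)) ((h.int0 x).add (h.int2 x d)) t0
  rw [integral_add (h.int0 x) (h.int2 x d), ← h.app] at e
  simp only [exp_zero, zero_smul, add_zero, one_mul, zero_sub] at e
  have : Iop d F x = ∫ t in Ioi (0 : ℝ), exp t * F (x + t • d) := rfl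
  linarith

theorem posI (h : Pre w L M d F) (x : Fin n → ℝ) : 0 < Iop d F x := by
  refine (setIntegral_pos_iff_support_of_nonneg_ae (Eventually.of_forall fun t =>
    (mul_pos (exp_pos t) (h.pos _)).le) (h.int0 x)).2 ?_
  have : Function.support (fun t : ℝ => exp t * F (x + t • d)) = univ :=
    eq_univ_of_forall fun t => (mul_pos (exp_pos t) (h.pos _)).ne'
  rw [this]
  simp

theorem ub (h : Pre w L M d F) (x : Fin n → ℝ) {s : ℝ} (hs : 0 ≤ s) :
    exp s * Iop d F (x + s • d) ≤ M x / (w - 1) * exp ((1 - w) * s) := by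
  have hw := h.hw
  have e : ∫ t in Ioi (0 : ℝ), M x * exp ((1 - w) * s) * exp ((1 - w) * t) =
      M x / (w - 1) * exp ((1 - w) * s) := by
    rw [integral_const_mul, integral_exp_mul_Ioi (by linarith) 0]
    have : w - 1 ≠ 0 := by linarith
    have : 1 - w ≠ 0 := by linarith
    simp only [mul_zero, exp_zero]
    field_simp
    ring
  rw [← e, Iop, ← integral_const_mul]
  refine setIntegral_mono_on ((h.int0 _).const_mul _) (h.ie _) measurableSet_Ioi fun t ht => ?_
  have ht' : 0 < t := ht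
  have := h.bd' x (show 0 ≤ s + t by linarith)
  rw [exp_add, add_smul, ← add_assoc, mul_add (1 - w), exp_add] at this
  linarith

theorem low (h : Pre w L M d F) {v : Fin n → ℝ} {c : ℝ}
    (hc : ∀ x, -(c * F x) ≤ fderiv ℝ F x v) (x : Fin n → ℝ) :
    -(c * Iop d F x) ≤ fderiv ℝ (Iop d F) x v := by
  rw [h.app, Iop, ← integral_const_mul, ← integral_neg]
  refine setIntegral_mono_on ((h.int0 _).const_mul _).neg (h.int2 x v) measurableSet_Ioi
    fun t _ => ?_
  have := mul_le_mul_of_nonneg_left (hc (x + t • d)) (exp_pos t).le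
  linarith

theorem lcI (h : Pre w L M d F) (lc : ∀ x y, F x * F y ≤ F ((1 / 2 : ℝ) • (x + y)) ^ 2)
    (x y : Fin n → ℝ) : Iop d F x * Iop d F y ≤ Iop d F ((1 / 2 : ℝ) • (x + y)) ^ 2 := by
  have dd : ∀ (z : Fin n → ℝ) (s : ℝ), HasDerivAt (fun t : ℝ => exp t * Iop d F (z + t • d))
      (-(exp s * F (z + s • d))) s := fun z s =>
    ((hasDerivAt_exp s).mul (line h.diffI z d s)).congr_deriv (by rw [h.ode]; ring)
  have tt : ∀ z : Fin n → ℝ, Tendsto (fun t : ℝ => exp t * Iop d F (z + t • d)) atTop (𝓝 0) :=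
    fun z => by
      refine squeeze_zero' (Eventually.of_forall fun t => (mul_pos (exp_pos t) (h.posI _)).le) ?_
        (tz h.hw (M z / (w - 1)))
      filter_upwards [eventually_ge_atTop (0 : ℝ)] with t ht using h.ub z ht
  have := pl (dd x) (dd y) (dd ((1 / 2 : ℝ) • (x + y)))
    (fun s => mul_pos (exp_pos s) (h.pos _)) (fun s => mul_pos (exp_pos s) (h.pos _))
    (fun s => mul_pos (exp_pos s) (h.pos _)) (fun s t => ?_)
    (fun s => mul_pos (exp_pos s) (h.posI _)) (fun s => mul_pos (exp_pos s) (h.posI _))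
    (fun s => (mul_pos (exp_pos s) (h.posI _)).le) (tt x) (tt y)
  · simpa using this
  · have e1 : (1 / 2 : ℝ) • (x + y) + ((s + t) / 2) • d =
        (1 / 2 : ℝ) • (x + s • d + (y + t • d)) := by
      ext k
      simp only [Pi.add_apply, Pi.smul_apply, smul_eq_mul]
      ring
    have e2 : exp ((s + t) / 2) ^ 2 = exp s * exp t := by
      rw [sq, ← exp_add, ← exp_add]; congr 1; ring
    rw [e1, mul_pow, e2]
    have := mul_le_mul_of_nonneg_left (lc (x + s • d) (y + t • d))
      (mul_pos (exp_pos s) (exp_pos t)).le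
    linarith

end Pre

end Pool.Agent.Lib.MP_79af62_gt.Dat
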