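import Mathlib
import Pool.Agent.Lib.MP_79af62_gt.Glue
import Pool.Agent.Lib.MP_79af62_gt.DatB

/-! The family `F G` of log-concave functions indexed by the signed faces `G`. -/

namespace Pool.Agent.Lib.MP_79af62_gt.Dat

open Set Filter Topology MeasureTheory Real Function
open Glue (sg)

variable {n : ℕ} {V : Type} [Fintype V]

/-- The signed coordinate vector. -/
def dir (a : Fin n) (e : Bool) : Fin n → ℝ := Pi.single a (sg e)

theorem abs_sg (e : Bool) : |sg e| = 1 := by cases e <;> simp [sg]

/-- The invariant carried along the construction. -/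
structure Good (p : V → Fin n → ℝ) (w : ℝ) (S : Finset (Fin n)) (F : (Fin n → ℝ) → ℝ) : Prop where
  pos : ∀ x, 0 < F x
  diff : Differentiable ℝ F
  low : ∀ v c, (∀ i, ∑ k, p i k * v k ≤ c) → ∀ x, -(c * F x) ≤ fderiv ℝ F x v
  lc : ∀ x y, F x * F y ≤ F ((1 / 2 : ℝ) • (x + y)) ^ 2
  dec : ∃ C, 0 ≤ C ∧ ∀ x, F x ≤ C * exp (∑ k, (if k ∈ S then w else -w) * |x k|)

namespace Good

variable {p : V → Fin n → ℝ} {w : ℝ} {S : Finset (Fin n)} {F : (Fin n → ℝ) → ℝ}

theorem nrm (h : Good p w S F) (x : Fin n → ℝ) :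
    ‖fderiv ℝ F x‖ ≤ (∑ i, ∑ k, |p i k|) * F x := by
  have L0 : 0 ≤ ∑ i, ∑ k, |p i k| := by positivity
  have key : ∀ v : Fin n → ℝ, -((∑ i, ∑ k, |p i k|) * ‖v‖ * F x) ≤ fderiv ℝ F x v := fun v => by
    refine h.low v _ (fun i => ?_) x
    calc ∑ k, p i k * v k ≤ ∑ k, |p i k| * ‖v‖ := Finset.sum_le_sum fun k _ =>
          (le_abs_self _).trans (by
            rw [abs_mul]
            exact mul_le_mul_of_nonneg_left (norm_le_pi_norm v k) (abs_nonneg _))
      _ = (∑ k, |p i k|) * ‖v‖ := by rw [Finset.sum_mul]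
      _ ≤ _ := mul_le_mul_of_nonneg_right (Finset.single_le_sum
          (f := fun i => ∑ k, |p i k|) (fun i _ => by positivity) (Finset.mem_univ i))
          (norm_nonneg v)
  refine ContinuousLinearMap.opNorm_le_bound _ (mul_nonneg L0 (h.pos x).le) fun v => ?_
  have a := key v
  have b := key (-v)
  rw [map_neg, norm_neg] at b
  rw [Real.norm_eq_abs, abs_le]
  constructor <;> linarith

omit [Fintype V] in
theorem mono (h : Good p w S F) (hw : 1 < w) (b : Fin n) : Good p w (insert b S) F := by
  refine ⟨h.pos, h.diff, h.low, h.lc, ?_⟩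
  obtain ⟨C, C0, hC⟩ := h.dec
  refine ⟨C, C0, fun x => (hC x).trans (mul_le_mul_of_nonneg_left (exp_le_exp.2 ?_) C0)⟩
  refine Finset.sum_le_sum fun k _ => mul_le_mul_of_nonneg_right ?_ (abs_nonneg _)
  by_cases c : k ∈ S
  · simp [c]
  · simp only [if_neg c]
    split_ifs <;> linarith

theorem pre (h : Good p w S F) (hw : 1 < w) {b : Fin n} (hb : b ∉ S) (e : Bool) :
    ∃ C, 0 ≤ C ∧ Pre w (∑ i, ∑ k, |p i k|)
      (fun x => C * exp (∑ k, (if k ∈ insert b S then w else -w) * |x k|)) (dir b e) F := by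
  obtain ⟨C, C0, hC⟩ := h.dec
  refine ⟨C, C0, hw, by positivity, h.pos, h.diff, h.nrm, by fun_prop, fun x t ht => ?_⟩
  refine (hC _).trans ?_
  rw [mul_assoc, ← exp_add]
  refine mul_le_mul_of_nonneg_left (exp_le_exp.2 ?_) C0
  have e1 : -w * t = ∑ k, if k = b then -w * t else 0 := by simp
  rw [e1, ← Finset.sum_add_distrib]
  refine Finset.sum_le_sum fun k _ => ?_
  by_cases c : k = b
  · subst c
    have a1 : (x + t • dir k e) k = x k + t * sg e := by simp [dir]
    have a2 : t ≤ |x k + t * sg e| + |x k| := by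
      have : |t * sg e| = t := by rw [abs_mul, abs_sg, abs_of_nonneg ht, mul_one]
      have h2 := abs_sub (x k + t * sg e) (x k)
      rw [add_sub_cancel_left, this] at h2
      exact h2
    rw [a1, if_neg hb, if_pos (Finset.mem_insert_self _ _), if_pos rfl]
    nlinarith
  · have a1 : (x + t • dir b e) k = x k := by simp [dir, c]
    simp [a1, c]

theorem step (h : Good p w S F) (hw : 1 < w) {b : Fin n} (hb : b ∉ S) (e : Bool) :
    Good p w (insert b S) (Iop (dir b e) F) := by
  obtain ⟨C, C0, hp⟩ := h.pre hw hb e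
  refine ⟨hp.posI, hp.diffI, fun v c hc => hp.low (h.low v c hc), hp.lcI h.lc,
    C / (w - 1), div_nonneg C0 (by linarith), fun x => ?_⟩
  have := hp.ub x le_rfl
  simp only [exp_zero, zero_smul, add_zero, one_mul, mul_zero, mul_one] at this
  rw [div_mul_eq_mul_div]
  exact this

end Good

/-- One step of the construction. -/
noncomputable def ext (b : Fin n) (o : Option Bool) (F : (Fin n → ℝ) → ℝ) : (Fin n → ℝ) → ℝ :=
  match o with
  | none => F
  | some e => Iop (dir b e) F

theorem fam {p : V → Fin n → ℝ} {w : ℝ} (hw : 1 < w) {g : (Fin n → ℝ) → ℝ} (hg : Good p w ∅ g)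
    (S : Finset (Fin n)) : ∃ F : (Fin n → Option Bool) → (Fin n → ℝ) → ℝ,
      (∀ G, Good p w S (F G)) ∧ (∀ G G', (∀ a ∈ S, G a = G' a) → F G = F G') ∧
      (∀ G a e, a ∈ S → G a = some e → ∀ x,
        fderiv ℝ (F G) x (dir a e) = -F (update G a none) x - F G x) ∧
      (∀ G, (∀ a ∈ S, G a = none) → F G = g) ∧
      (∀ G k e, k ∈ S → G k = some e → (∀ a ∈ S, a ≠ k → G a = none) →
        F G = Iop (dir k e) g) := by
  induction S using Finset.induction_on with
  | empty => exact ⟨fun _ => g, fun _ => hg, fun _ _ _ => rfl, by simp, fun _ _ => rfl, by simp⟩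
  | insert b S hb ih =>
    obtain ⟨F, h1, h2, h3, h4, h5⟩ := ih
    have ne : ∀ a ∈ S, a ≠ b := fun a ha e => hb (e ▸ ha)
    refine ⟨fun G => ext b (G b) (F G), fun G => ?_, fun G G' hG => ?_, fun G a e ha hG x => ?_,
      fun G hG => ?_, fun G k e hk hG ho => ?_⟩
    · show Good p w (insert b S) (ext b (G b) (F G))
      cases G b with
      | none => exact (h1 G).mono hw b
      | some e => exact (h1 G).step hw hb e
    · simp only [hG b (Finset.mem_insert_self _ _),
        h2 G G' fun a ha => hG a (Finset.mem_insert_of_mem ha)]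
    · rcases Finset.mem_insert.1 ha with rfl | ha
      · obtain ⟨C, -, hp⟩ := (h1 G).pre hw hb e
        have : F (update G a none) = F G := h2 _ _ fun c hc => update_of_ne (ne c hc) _ _
        simp only [hG, update_self, ext, this]
        exact hp.ode x
      · simp only [update_of_ne (ne a ha).symm]
        cases G b with
        | none => exact h3 G a e ha hG x
        | some e' =>
          obtain ⟨C, -, hp⟩ := (h1 G).pre hw hb e'
          obtain ⟨C', -, hq⟩ := (h1 (update G a none)).pre hw hb e'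
          simp only [ext]
          rw [hp.app, Iop, Iop, ← neg_add', ← integral_add (hq.int0 x) (hp.int0 x), ← integral_neg]
          refine integral_congr_ae (Eventually.of_forall fun t => ?_)
          simp only [h3 G a e ha hG]
          ring
    · simp only [hG b (Finset.mem_insert_self _ _), ext]
      exact h4 G fun a ha => hG a (Finset.mem_insert_of_mem ha)
    · rcases Finset.mem_insert.1 hk with rfl | hk
      · simp only [hG, ext]
        rw [h4 G fun a ha => ho a (Finset.mem_insert_of_mem ha) (ne a ha)]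
      · simp only [ho b (Finset.mem_insert_self _ _) (ne k hk).symm, ext]
        exact h5 G k e hk hG fun a ha => ho a (Finset.mem_insert_of_mem ha)

/-- The soft minimum of the exponentials `exp (- p i · x)`. -/
noncomputable def soft (p : V → Fin n → ℝ) (κ : ℝ) (x : Fin n → ℝ) : ℝ :=
  exp (-κ * log (∑ i, exp ((∑ k, p i k * x k) / κ)))

theorem soft_le (p : V → Fin n → ℝ) {κ : ℝ} (hκ : 0 < κ) (i : V) (x : Fin n → ℝ) :
    soft p κ x ≤ exp (-∑ k, p i k * x k) := by
  refine exp_le_exp.2 ?_
  have a : exp ((∑ k, p i k * x k) / κ) ≤ ∑ i, exp ((∑ k, p i k * x k) / κ) :=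
    Finset.single_le_sum (f := fun i => exp ((∑ k, p i k * x k) / κ))
      (fun i _ => (exp_pos _).le) (Finset.mem_univ i)
  have b := log_le_log (exp_pos _) a
  rw [log_exp, div_le_iff₀ hκ] at b
  linarith

theorem soft_good (p : V → Fin n → ℝ) {κ w : ℝ} (hκ : 0 < κ)
    (hc : ∀ σ : Fin n → Bool, ∃ i, ∀ k, w ≤ sg (σ k) * p i k) : Good p w ∅ (soft p κ) := by
  have : Nonempty V := ⟨(hc fun _ => true).choose⟩
  have S0 : ∀ x : Fin n → ℝ, 0 < ∑ i, exp ((∑ k, p i k * x k) / κ) := fun x =>
    Finset.sum_pos (fun i _ => exp_pos _) Finset.univ_nonempty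
  have df : Differentiable ℝ (soft p κ) := by
    unfold soft
    refine Differentiable.exp (Differentiable.const_mul (Differentiable.log ?_ fun x => (S0 x).ne') _)
    fun_prop
  refine ⟨fun x => exp_pos _, df, fun v c hv x => ?_, fun x y => ?_, 1, zero_le_one, fun x => ?_⟩
  · have l1 := line df x v 0
    have i1 : ∀ i, HasDerivAt (fun t : ℝ => (∑ k, p i k * (x + t • v) k) / κ)
        ((∑ k, p i k * v k) / κ) 0 := fun i => by
      refine (HasDerivAt.fun_sum fun k _ => ?_).div_const κ
      simpa using (((hasDerivAt_id (0 : ℝ)).mul_const (v k)).const_add (x k)).const_mul (p i k)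
    have l2 := (((HasDerivAt.fun_sum (u := Finset.univ) fun i _ => (i1 i).exp).log
      (S0 _).ne').const_mul (-κ)).exp
    have e := l1.unique l2
    simp only [zero_smul, add_zero] at e
    rw [e]
    have q : ∑ i, exp ((∑ k, p i k * x k) / κ) * ((∑ k, p i k * v k) / κ) ≤
        (∑ i, exp ((∑ k, p i k * x k) / κ)) * (c / κ) := by
      rw [Finset.sum_mul]
      exact Finset.sum_le_sum fun i _ => mul_le_mul_of_nonneg_left
        (div_le_div_of_nonneg_right (hv i) hκ.le) (exp_pos _).le
    have q2 := (div_le_iff₀' (S0 x)).2 q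
    have q3 := (le_div_iff₀ hκ).1 q2
    have s0 : 0 < soft p κ x := exp_pos _
    have := mul_le_mul_of_nonneg_left q3 s0.le
    unfold soft at this ⊢
    linarith
  · unfold soft
    rw [sq, ← exp_add, ← exp_add]
    refine exp_le_exp.2 ?_
    have cs := Finset.sum_sq_le_sum_mul_sum_of_sq_le_mul Finset.univ
      (r := fun i => exp ((∑ k, p i k * ((1 / 2 : ℝ) • (x + y)) k) / κ))
      (f := fun i => exp ((∑ k, p i k * x k) / κ)) (g := fun i => exp ((∑ k, p i k * y k) / κ))
      (fun i _ => (exp_pos _).le) (fun i _ => (exp_pos _).le) (fun i _ => le_of_eq <| by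
        rw [sq, ← exp_add, ← exp_add, ← add_div, ← add_div, ← Finset.sum_add_distrib,
          ← Finset.sum_add_distrib]
        congr 2
        refine Finset.sum_congr rfl fun k _ => ?_
        simp only [Pi.smul_apply, Pi.add_apply, smul_eq_mul]
        ring)
    have l := log_le_log (pow_pos (S0 _) 2) cs
    rw [log_pow, log_mul (S0 x).ne' (S0 y).ne'] at l
    push_cast at l
    nlinarith
  · obtain ⟨i, hi⟩ := hc fun k => decide (0 ≤ x k)
    refine (soft_le p hκ i x).trans ?_
    rw [one_mul, ← Finset.sum_neg_distrib]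
    refine exp_le_exp.2 (Finset.sum_le_sum fun k _ => ?_)
    have := hi k
    simp only [Finset.notMem_empty, if_false]
    by_cases c : 0 ≤ x k
    · simp only [c, decide_true, sg, if_true] at this
      rw [abs_of_nonneg c]
      nlinarith
    · simp only [c, decide_false, sg, Bool.false_eq_true, if_false] at this
      rw [abs_of_neg (not_le.1 c)]
      nlinarith [not_le.1 c]

end Pool.Agent.Lib.MP_79af62_gt.Dat
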