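import Mathlib
import Pool.Agent.Lib.MP_79af62_gt.DatC

/-! The finite data `Z`, `kap` attached to a finite point set: local log-concavity inequalities,
the top inequality and the axis bound. -/

namespace Pool.Agent.Lib.MP_79af62_gt.Dat

open Set Filter Topology MeasureTheory Real Function
open Glue (sg)

variable {n : ℕ} {V : Type} [Fintype V]

/-- The sign of a coordinate of a face (`0` for a free coordinate). -/
def sgn (o : Option Bool) : ℝ :=
  match o with
  | none => 0
  | some e => sg e

/-- The fixed coordinates of a face. -/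
def supp (H : Fin n → Option Bool) : Finset (Fin n) := Finset.univ.filter fun a => H a ≠ none

theorem mem_supp {H : Fin n → Option Bool} {a : Fin n} : a ∈ supp H ↔ H a ≠ none := by
  simp [supp]

theorem fd_sum (A : (Fin n → ℝ) →L[ℝ] ℝ) (H : Fin n → Option Bool) (b : Fin n → ℝ) :
    A (fun k => sgn (H k) * b k) = ∑ a ∈ supp H, b a * A (Pi.single a (sgn (H a))) := by
  have e : (fun k => sgn (H k) * b k) = ∑ a ∈ supp H, b a • Pi.single a (sgn (H a)) := by
    ext k
    simp only [Finset.sum_apply, Pi.smul_apply, smul_eq_mul, Pi.single_apply, mul_ite, mul_zero,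
      Finset.sum_ite_eq, mem_supp]
    split_ifs with c
    · ring
    · rw [not_not.1 c]; simp [sgn]
  rw [e, map_sum]
  simp

section

variable {F : (Fin n → Option Bool) → (Fin n → ℝ) → ℝ}
  (h3 : ∀ G a e, G a = some e → ∀ x, fderiv ℝ (F G) x (dir a e) = -F (update G a none) x - F G x)
include h3

theorem h3' {G : Fin n → Option Bool} {a : Fin n} (ha : G a ≠ none) (x : Fin n → ℝ) :
    fderiv ℝ (F G) x (Pi.single a (sgn (G a))) = -F (update G a none) x - F G x := by
  obtain ⟨e, he⟩ := Option.ne_none_iff_exists'.1 ha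
  rw [← h3 G a e he x, he]
  rfl

theorem fd_dir (H : Fin n → Option Bool) (b x : Fin n → ℝ) :
    fderiv ℝ (F H) x (fun k => sgn (H k) * b k) =
      -∑ a ∈ supp H, F (update H a none) x * b a - (∑ a ∈ supp H, b a) * F H x := by
  rw [fd_sum, Finset.sum_mul, ← Finset.sum_neg_distrib, ← Finset.sum_sub_distrib]
  refine Finset.sum_congr rfl fun a ha => ?_
  rw [h3' h3 (mem_supp.1 ha)]
  ring

theorem fd_dir2 (H : Fin n → Option Bool) (b x : Fin n → ℝ) {a : Fin n} (ha : a ∈ supp H) :
    fderiv ℝ (F (update H a none)) x (fun k => sgn (H k) * b k) =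
      b a * (sgn (H a) * fderiv ℝ (F (update H a none)) x (Pi.single a 1)) -
      ∑ l ∈ (supp H).erase a, F (update (update H a none) l none) x * b l -
      (∑ l ∈ (supp H).erase a, b l) * F (update H a none) x := by
  rw [fd_sum, ← Finset.add_sum_erase _ _ ha, Finset.sum_mul, sub_sub, ← Finset.sum_add_distrib,
    sub_eq_add_neg, ← Finset.sum_neg_distrib]
  congr 1
  · have : (Pi.single a (sgn (H a)) : Fin n → ℝ) = sgn (H a) • Pi.single a 1 := by
      rw [← Pi.single_smul, smul_eq_mul, mul_one]
    rw [this, map_smul, smul_eq_mul]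
  · refine Finset.sum_congr rfl fun l hl => ?_
    have l1 := Finset.ne_of_mem_erase hl
    have l2 : update H a none l = H l := update_of_ne l1 _ _
    have := h3' h3 (G := update H a none) (a := l)
      (by rw [l2]; exact mem_supp.1 (Finset.mem_of_mem_erase hl)) x
    rw [l2] at this
    rw [this]
    ring

theorem lc_of (df : ∀ G, Differentiable ℝ (F G))
    (lc : ∀ G x y, F G x * F G y ≤ F G ((1 / 2 : ℝ) • (x + y)) ^ 2)
    (H : Fin n → Option Bool) (b : Fin n → ℝ) :
    (∑ a ∈ supp H, ∑ l ∈ (supp H).erase a, F (update (update H a none) l none) 0 * (b a * b l) -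
      ∑ a ∈ supp H, (F (update H a none) 0 +
        sgn (H a) * fderiv ℝ (F (update H a none)) 0 (Pi.single a 1)) * b a ^ 2) * F H 0 ≤
    (∑ a ∈ supp H, F (update H a none) 0 * b a) ^ 2 := by
  set d : Fin n → ℝ := fun k => sgn (H k) * b k with hd
  set σ : ℝ := ∑ a ∈ supp H, b a with hσ
  have ex : ∀ s : ℝ, HasDerivAt (fun t : ℝ => exp (t * σ)) (exp (s * σ) * σ) s := fun s => by
    simpa using ((hasDerivAt_id s).mul_const σ).exp
  have d1 : ∀ s : ℝ, HasDerivAt (fun t : ℝ => exp (t * σ) * F H (0 + t • d))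
      (-(exp (s * σ) * ∑ a ∈ supp H, F (update H a none) (0 + s • d) * b a)) s := fun s =>
    ((ex s).mul (line (df H) 0 d s)).congr_deriv (by rw [fd_dir h3]; ring)
  have d2 := ((ex 0).mul (HasDerivAt.fun_sum (u := supp H) fun a _ =>
    (line (df (update H a none)) 0 d 0).mul_const (b a))).neg
  have key := second d1 d2 (fun s => by
    have := lc H (0 + s • d) (0 + (-s) • d)
    have e : exp (s * σ) * exp (-s * σ) = 1 := by rw [← exp_add]; simp
    have e2 : (1 / 2 : ℝ) • (0 + s • d + (0 + (-s) • d)) = 0 := by simp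
    rw [e2] at this
    simp only [zero_mul, exp_zero, one_mul, zero_smul, add_zero]
    calc _ = exp (s * σ) * exp (-s * σ) * (F H (0 + s • d) * F H (0 + (-s) • d)) := by ring
      _ ≤ _ := by rw [e, one_mul]; exact this)
  simp only [zero_mul, exp_zero, one_mul, zero_smul, add_zero, neg_sq] at key
  refine le_of_eq_of_le ?_ key
  congr 1
  rw [Finset.mul_sum, ← Finset.sum_add_distrib, ← Finset.sum_neg_distrib,
    ← Finset.sum_sub_distrib]
  refine Finset.sum_congr rfl fun a ha => ?_
  have e1 : σ = b a + ∑ l ∈ (supp H).erase a, b l := (Finset.add_sum_erase _ _ ha).symm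
  have e2 : ∑ l ∈ (supp H).erase a, F (update (update H a none) l none) 0 * (b a * b l) =
      b a * ∑ l ∈ (supp H).erase a, F (update (update H a none) l none) 0 * b l := by
    rw [Finset.mul_sum]
    exact Finset.sum_congr rfl fun l _ => by ring
  rw [fd_dir2 h3 H b 0 ha, e1, e2]
  ring

end

/-- The analytic data. -/
theorem data (p : V → Fin n → ℝ) {κ w : ℝ} (hκ : 0 < κ) (hw : 1 < w)
    (hc : ∀ σ : Fin n → Bool, ∃ i, ∀ k, w ≤ sg (σ k) * p i k) :
    ∃ (Z : (Fin n → Option Bool) → ℝ) (kap : (Fin n → Option Bool) → Fin n → ℝ),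
      (∀ G, 0 < Z G) ∧
      (∀ (H : Fin n → Option Bool) (b : Fin n → ℝ),
        (∑ a ∈ supp H, ∑ l ∈ (supp H).erase a, Z (update (update H a none) l none) * (b a * b l) -
          ∑ a ∈ supp H, (Z (update H a none) + sgn (H a) * kap (update H a none) a) * b a ^ 2) *
          Z H ≤ (∑ a ∈ supp H, Z (update H a none) * b a) ^ 2) ∧
      (∀ (H : Fin n → Option Bool) (y : Fin n → ℝ) (τ : ℝ),
        (∀ i, ∑ a ∈ supp H, y a * (sgn (H a) * p i a - 1) ≤ τ) →
        ∑ a ∈ supp H, Z (update H a none) * y a ≤ τ * Z H) ∧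
      Z (fun _ => none) = exp (-κ * log (Fintype.card V)) ∧
      (∀ k e i (E : ℝ), 0 ≤ E → 1 + E ≤ sg e * p i k →
        E * Z (update (fun _ => none) k (some e)) ≤ 1) := by
  have hg := soft_good p hκ hc
  obtain ⟨F, h1, -, h3, h4, h5⟩ := fam hw hg Finset.univ
  have h3 := fun G a e => h3 G a e (Finset.mem_univ a)
  refine ⟨fun G => F G 0, fun G a => fderiv ℝ (F G) 0 (Pi.single a 1), fun G => (h1 G).pos 0,
    lc_of h3 (fun G => (h1 G).diff) (fun G => (h1 G).lc), fun H y τ hy => ?_, ?_,
    fun k e i E hE hi => ?_⟩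
  · have := (h1 H).low (fun k => sgn (H k) * y k) (τ + ∑ a ∈ supp H, y a) (fun i => by
      have e : ∑ k, p i k * (sgn (H k) * y k) = ∑ a ∈ supp H, p i a * (sgn (H a) * y a) := by
        refine (Finset.sum_subset (Finset.subset_univ _) fun a _ ha => ?_).symm
        rw [not_not.1 (mt mem_supp.2 ha)]
        simp [sgn]
      have := hy i
      rw [e, ← sub_le_iff_le_add, ← Finset.sum_sub_distrib]
      refine le_of_eq_of_le (Finset.sum_congr rfl fun a _ => by ring) this) 0
    rw [fd_dir h3] at this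
    linarith
  · simp only [h4 _ fun _ _ => rfl, soft]
    simp
  · rcases hE.eq_or_lt with rfl | hE
    · simp
    have e1 := h5 (update (fun _ => none) k (some e)) k e (Finset.mem_univ _) (update_self ..)
      fun a _ ha => update_of_ne ha _ _
    obtain ⟨C, -, hp⟩ := hg.pre hw (Finset.notMem_empty k) e
    have e2 : ∫ t in Ioi (0 : ℝ), exp (-E * t) = 1 / E := by
      rw [integral_exp_mul_Ioi (by linarith) 0]
      simp
    simp only [e1]
    rw [← le_div_iff₀' hE, ← e2]
    refine setIntegral_mono_on (hp.int0 0) (integrableOn_exp_mul_Ioi (by linarith) 0)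
      measurableSet_Ioi fun t ht => ?_
    have ht' : 0 < t := ht
    refine (mul_le_mul_of_nonneg_left (soft_le p hκ i _) (exp_pos t).le).trans ?_
    rw [← exp_add]
    refine exp_le_exp.2 ?_
    have e3 : ∑ j, p i j * (0 + t • dir k e) j = p i k * (t * sg e) := by
      simp [dir, Pi.single_apply]
    rw [e3]
    nlinarith

end Pool.Agent.Lib.MP_79af62_gt.Dat
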