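import Pool.Agent.Lib.MP_79af62_gt.Soft

set_option autoImplicit false

namespace Pool.Agent.Lib.MP_79af62_gt

open Finset Matrix

/-- the loss per stage -/
noncomputable def RR (C : ℝ) (mm L : ℕ) : ℝ :=
  8 * C * (L + 1) * ((2 * (L + 1)) ^ mm + 1) * ((mm + 1) * 4 ^ mm) ^ 2 + 3

theorem pos_tri (a b s t : ℝ) : max 0 (|a + b| - (s + t)) ≤ max 0 (|a| - s) + max 0 (|b| - t) := by
  apply max_le
  · exact add_nonneg (le_max_left _ _) (le_max_left _ _)
  · linarith [le_max_right 0 (|a| - s), le_max_right 0 (|b| - t), abs_add_le a b]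

variable {ι I J : Type} [Fintype ι] [Fintype I] [Fintype J]

theorem exists_type (mm : ℕ) (bd : ι → ℕ) (hbd : ∀ k, bd k ≤ mm) (v : ι → ℝ) (hv : v ⬝ᵥ v = 1) :
    ∃ j ≤ mm, 1 / ((mm : ℝ) + 1) ≤ ∑ k ∈ Finset.univ.filter (fun k => bd k = j), v k ^ 2 := by
  by_contra hc
  push Not at hc
  have h1 : ∑ j ∈ Finset.range (mm + 1), ∑ k ∈ Finset.univ.filter (fun k => bd k = j), v k ^ 2 <
      ∑ j ∈ Finset.range (mm + 1), 1 / ((mm : ℝ) + 1) :=
    Finset.sum_lt_sum_of_nonempty ⟨0, by simp⟩
      (fun j hj => hc j (Nat.lt_succ_iff.1 (Finset.mem_range.1 hj)))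
  rw [Finset.sum_fiberwise_of_maps_to
    (fun k _ => Finset.mem_range.2 (Nat.lt_succ_of_le (hbd k)))] at h1
  simp only [Finset.sum_const, Finset.card_range, nsmul_eq_mul] at h1
  simp only [dotProduct, ← sq] at hv
  rw [hv] at h1
  push_cast at h1
  rw [mul_one_div_cancel (by positivity)] at h1
  exact lt_irrefl _ h1

theorem multi [DecidableEq ι] [DecidableEq I] {p : ℕ} {C : ℝ} (hC : 1 ≤ C) (hst : StageProp p C)
    (mm L : ℕ) (X K ω δ : ℝ) (hX : 1 ≤ X) (hXL : X ^ mm ≤ 2 ^ L)
    (hd : (Fintype.card ι : ℝ) ≤ X ^ mm) (hK : 0 < K) (hω : 0 < ω) (hδ : 0 < δ)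
    (v : I → ι → ℝ) (h : I → ℝ) (lam : ι → ℝ) (φ : J → ι → ℝ) (w : J → ℝ)
    (hv : ∀ i, v i ⬝ᵥ v i = 1) (hh : ∀ i, 0 < h i) (hlam : ∀ k, 0 < lam k)
    (hΛ : ∑ k, lam k ≤ 12) (hfr : ∀ y, ∑ i, h i * (y ⬝ᵥ v i) ^ 2 ≤ ω * ∑ k, lam k * y k ^ 2)
    (hw : ∀ j, 0 ≤ w j) (hw1 : ∑ j, w j ≤ 1) (hφ : ∀ k, ∑ j, w j * φ j k ^ 2 ≤ 1 / lam k) :
    ∃ t : J → ℝ, (∀ j, 0 ≤ t j) ∧
      ∑ j, w j * t j ≤ (mm + 1) * (K * (5 * X * ω * RR C mm L ^ (mm + 1))) ∧
      ∀ m : I → ℝ, ∃ x, (∀ i, h i < |v i ⬝ᵥ x - m i|) ∧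
        ∑ j, w j * max 0 (|φ j ⬝ᵥ x| - t j) ≤
          (mm + 1) * (C * (5 * X * ω * RR C mm L ^ (mm + 1)) / K ^ (2 * p + 1) + δ) := by
  set R := RR C mm L with hR
  set Nm : ℝ := (2 * (L + 1)) ^ mm with hNm
  set bi : ℝ := (mm + 1) * 4 ^ mm with hbi
  have hL1 : (1 : ℝ) ≤ L + 1 := by linarith [Nat.cast_nonneg (α := ℝ) L]
  have hNm1 : 1 ≤ Nm := one_le_pow₀ (by linarith)
  have hbi1 : 1 ≤ bi := one_le_mul_of_one_le_of_one_le
    (by linarith [Nat.cast_nonneg (α := ℝ) mm]) (one_le_pow₀ (by norm_num))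
  have hRe : R = 8 * C * (L + 1) * (Nm + 1) * bi ^ 2 + 3 := rfl
  have hR1 : 1 ≤ R := by
    have : 0 ≤ 8 * C * (L + 1) * (Nm + 1) * bi ^ 2 := by positivity
    linarith
  have hR0 : 0 < R := by linarith
  have hX0 : 0 < X := by linarith
  set c0 : ℝ := 1 / R ^ (mm + 1) with hc0
  have hc00 : 0 < c0 := by positivity
  set θ : ℕ → ℝ := fun j => 12 / X ^ j with hθ
  have hθ0 : ∀ j, 0 < θ j := fun j => by simp only [hθ]; positivity
  have hθa : ∀ i j, i ≤ j → θ j ≤ θ i := fun i j hij =>
    div_le_div_of_nonneg_left (by norm_num) (by positivity) (pow_le_pow_right₀ hX hij)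
  set σ : ℕ → ℝ := fun j => ω * θ j / c0 with hσ
  have hσ0 : ∀ j, 0 < σ j := fun j => div_pos (mul_pos hω (hθ0 j)) hc00
  set η : ℝ := 5 * X * ω * R ^ (mm + 1) with hη
  have hη0 : 0 < η := by positivity
  have hη' : η = 5 * X * (ω / c0) := by rw [hη, hc0]; field_simp
  set β : ℕ → ℝ := fun j => 1 / ((mm + 1) * 4 ^ j) with hβ
  have hβ0 : ∀ j, 0 < β j := fun j => by simp only [hβ]; positivity
  have hβ1 : ∀ j, β j ≤ 1 / ((mm : ℝ) + 1) := fun j =>
    one_div_le_one_div_of_le (by positivity)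
      (le_mul_of_one_le_right (by positivity) (one_le_pow₀ (by norm_num)))
  have hβ2 : ∀ j ≤ mm, 1 / bi ≤ β j := fun j hj =>
    one_div_le_one_div_of_le (by positivity)
      (mul_le_mul_of_nonneg_left (pow_le_pow_right₀ (by norm_num) hj) (by positivity))
  set bd : ι → ℕ := fun k => Nat.findGreatest (fun j => lam k ≤ θ j) mm with hbd
  have hbd1 : ∀ k, bd k ≤ mm := fun k => Nat.findGreatest_le mm
  have hbd2 : ∀ k, lam k ≤ θ (bd k) := fun k =>
    Nat.findGreatest_spec (P := fun j => lam k ≤ θ j) (Nat.zero_le mm) (by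
      simp only [hθ, pow_zero, div_one]
      exact (Finset.single_le_sum (fun k _ => (hlam k).le) (Finset.mem_univ k)).trans hΛ)
  have hbd3 : ∀ k, bd k < mm → θ (bd k + 1) < lam k := fun k hk =>
    not_le.1 (Nat.findGreatest_is_greatest (P := fun j => lam k ≤ θ j) (Nat.lt_succ_self _) hk)
  choose ty hty1 hty2 using fun i => exists_type mm bd hbd1 (v i) (hv i)
  have hsumh : ∑ i, h i ≤ 12 * ω := by
    have h1 : ∀ k, ∑ i, h i * v i k ^ 2 ≤ ω * lam k := by
      intro k
      have := hfr (Pi.single k 1)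
      simp only [single_dotProduct, one_mul] at this
      refine this.trans (le_of_eq ?_)
      congr 1
      rw [Finset.sum_eq_single k] <;> simp +contextual
    calc ∑ i, h i = ∑ i, ∑ k, h i * v i k ^ 2 := by
          apply Finset.sum_congr rfl
          intro i _
          have := hv i
          simp only [dotProduct, ← sq] at this
          rw [← Finset.mul_sum, this, mul_one]
      _ = ∑ k, ∑ i, h i * v i k ^ 2 := Finset.sum_comm
      _ ≤ ∑ k, ω * lam k := Finset.sum_le_sum (fun k _ => h1 k)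
      _ ≤ 12 * ω := by rw [← Finset.mul_sum]; nlinarith
  set r : ℕ → ι → ℝ := fun j k => if j < mm then (if bd k ≤ j then 1 else 0)
    else (if bd k < mm then 1 else lam k / θ mm) with hr
  have hr0 : ∀ j k, 0 ≤ r j k := by
    intro j k
    simp only [hr]
    split_ifs
    · exact zero_le_one
    · exact le_rfl
    · exact zero_le_one
    · exact div_nonneg (hlam k).le (hθ0 _).le
  set S : ℕ → J → ℝ := fun j a => σ j ^ 2 * ∑ k, r j k * φ a k ^ 2 with hS
  have hS0 : ∀ j a, 0 ≤ S j a := fun j a => mul_nonneg (sq_nonneg _)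
    (Finset.sum_nonneg (fun k _ => mul_nonneg (hr0 j k) (sq_nonneg _)))
  set κ : ℕ → J → ℝ := fun j a => (S j a / η + η) / 2 with hκ
  have hκ0 : ∀ j a, 0 < κ j a := fun j a => by
    have := div_nonneg (hS0 j a) hη0.le
    simp only [hκ]; linarith
  have hκ1 : ∀ j a, S j a ≤ κ j a ^ 2 := by
    intro j a
    have e : S j a = S j a / η * η := by field_simp
    simp only [hκ]
    nlinarith [sq_nonneg (S j a / η - η)]
  have hinv : ∀ k j, bd k < mm → bd k + 1 ≤ j → 1 / lam k ≤ lam k / θ j ^ 2 := by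
    intro k j h1 h2
    have h3 : θ j < lam k := (hθa _ _ h2).trans_lt (hbd3 k h1)
    rw [div_le_div_iff₀ (hlam k) (pow_pos (hθ0 j) 2)]
    nlinarith [hθ0 j]
  have hκ2 : ∀ j ≤ mm, ∑ a, w a * κ j a ≤ η := by
    intro j hj
    have h1 : ∑ a, w a * S j a ≤ σ j ^ 2 * ∑ k, r j k * (1 / lam k) := by
      have : ∑ a, w a * S j a = σ j ^ 2 * ∑ k, r j k * ∑ a, w a * φ a k ^ 2 := by
        simp only [hS, Finset.mul_sum]
        rw [Finset.sum_comm]
        apply Finset.sum_congr rfl; intro k _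
        apply Finset.sum_congr rfl; intro a _
        ring
      rw [this]
      exact mul_le_mul_of_nonneg_left (Finset.sum_le_sum
        (fun k _ => mul_le_mul_of_nonneg_left (hφ k) (hr0 j k))) (sq_nonneg _)
    have h2 : σ j ^ 2 * ∑ k, r j k * (1 / lam k) ≤ η ^ 2 := by
      have hq : 0 ≤ (ω / c0) ^ 2 := sq_nonneg _
      by_cases hjm : j < mm
      · have h3 : ∑ k, r j k * (1 / lam k) ≤ ∑ k, lam k / θ (j + 1) ^ 2 := by
          apply Finset.sum_le_sum
          intro k _
          simp only [hr, hjm, if_true]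
          split_ifs with h4
          · rw [one_mul]; exact hinv k _ (by omega) (by omega)
          · rw [zero_mul]; exact div_nonneg (hlam k).le (sq_nonneg _)
        rw [← Finset.sum_div] at h3
        have h4 := h3.trans (div_le_div_of_nonneg_right hΛ (sq_nonneg _))
        refine (mul_le_mul_of_nonneg_left h4 (sq_nonneg _)).trans ?_
        have e : σ j ^ 2 * (12 / θ (j + 1) ^ 2) = 12 * X ^ 2 * (ω / c0) ^ 2 := by
          simp only [hσ, hθ]; field_simp; ring
        rw [e, hη']
        nlinarith [mul_nonneg (sq_nonneg X) hq]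
      · have hje : j = mm := by omega
        subst hje
        have h3 : ∑ k, r j k * (1 / lam k) ≤ ∑ k, (lam k / θ j ^ 2 + 1 / θ j) := by
          apply Finset.sum_le_sum
          intro k _
          simp only [hr, lt_irrefl, if_false]
          have p1 : 0 ≤ lam k / θ j ^ 2 := div_nonneg (hlam k).le (sq_nonneg _)
          have p2 : 0 ≤ 1 / θ j := div_nonneg zero_le_one (hθ0 j).le
          split_ifs with h4
          · rw [one_mul]; linarith [hinv k j h4 (by omega)]
          · have : lam k / θ j * (1 / lam k) = 1 / θ j := by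
              have := (hlam k).ne'
              field_simp
            linarith
        rw [Finset.sum_add_distrib, ← Finset.sum_div] at h3
        simp only [Finset.sum_const, Finset.card_univ, nsmul_eq_mul] at h3
        have h4 : (∑ k, lam k) / θ j ^ 2 ≤ 12 / θ j ^ 2 :=
          div_le_div_of_nonneg_right hΛ (sq_nonneg _)
        have h5 : (Fintype.card ι : ℝ) * (1 / θ j) ≤ X ^ j * (1 / θ j) :=
          mul_le_mul_of_nonneg_right hd (div_nonneg zero_le_one (hθ0 j).le)
        have h6 : ∑ k, r j k * (1 / lam k) ≤ 12 / θ j ^ 2 + X ^ j * (1 / θ j) := by linarith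
        refine (mul_le_mul_of_nonneg_left h6 (sq_nonneg _)).trans ?_
        have e : σ j ^ 2 * (12 / θ j ^ 2 + X ^ j * (1 / θ j)) = 24 * (ω / c0) ^ 2 := by
          simp only [hσ, hθ]; field_simp; ring
        rw [e, hη']
        have : 1 ≤ X ^ 2 := one_le_pow₀ hX
        nlinarith [mul_le_mul_of_nonneg_right this hq]
    have h3 : ∑ a, w a * κ j a = ((∑ a, w a * S j a) / η + (∑ a, w a) * η) / 2 := by
      simp only [hκ]
      rw [Finset.sum_div, Finset.sum_mul, ← Finset.sum_add_distrib, Finset.sum_div]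
      apply Finset.sum_congr rfl; intro a _; ring
    have h4 : (∑ a, w a * S j a) / η ≤ η := by rw [div_le_iff₀ hη0]; nlinarith
    rw [h3]
    nlinarith
  set B : ℝ := C * η / K ^ (2 * p + 1) + δ with hB
  have hstep : ∀ j ≤ mm, ∀ x x' : ι → ℝ,
      ∑ a, w a * max 0 (|φ a ⬝ᵥ x| - K * ∑ j' ∈ Finset.range j, κ j' a) ≤ j * B →
      ∑ a, w a * max 0 (|φ a ⬝ᵥ (x' - x)| - K * κ j a) ≤
        C * (∑ a, w a * κ j a) / K ^ (2 * p + 1) + δ →
      ∑ a, w a * max 0 (|φ a ⬝ᵥ x'| - K * ∑ j' ∈ Finset.range (j + 1), κ j' a) ≤ (j + 1) * B := by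
    intro j hj x x' h1 h2
    have h3 : C * (∑ a, w a * κ j a) / K ^ (2 * p + 1) + δ ≤ B :=
      add_le_add (div_le_div_of_nonneg_right
        (mul_le_mul_of_nonneg_left (hκ2 j hj) (by linarith)) (by positivity)) le_rfl
    have h4 : ∑ a, w a * max 0 (|φ a ⬝ᵥ x'| - K * ∑ j' ∈ Finset.range (j + 1), κ j' a) ≤
        ∑ a, w a * max 0 (|φ a ⬝ᵥ x| - K * ∑ j' ∈ Finset.range j, κ j' a) +
          ∑ a, w a * max 0 (|φ a ⬝ᵥ (x' - x)| - K * κ j a) := by
      rw [← Finset.sum_add_distrib]
      apply Finset.sum_le_sum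
      intro a _
      rw [← mul_add]
      apply mul_le_mul_of_nonneg_left _ (hw a)
      have e : φ a ⬝ᵥ x' = φ a ⬝ᵥ x + φ a ⬝ᵥ (x' - x) := by rw [dotProduct_sub]; ring
      rw [e, Finset.sum_range_succ, mul_add]
      exact pos_tri _ _ _ _
    linarith
  refine ⟨fun a => K * ∑ j ∈ Finset.range (mm + 1), κ j a,
    fun a => mul_nonneg hK.le (Finset.sum_nonneg (fun j _ => (hκ0 j a).le)), ?_, fun m => ?_⟩
  · have e : ∑ a, w a * (K * ∑ j ∈ Finset.range (mm + 1), κ j a) =
        ∑ j ∈ Finset.range (mm + 1), K * ∑ a, w a * κ j a := by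
      simp only [Finset.mul_sum]
      rw [Finset.sum_comm]
      apply Finset.sum_congr rfl; intro j _
      apply Finset.sum_congr rfl; intro a _
      ring
    rw [e]
    refine (Finset.sum_le_sum (g := fun _ => K * η) (fun j hj => mul_le_mul_of_nonneg_left
      (hκ2 j (Nat.lt_succ_iff.1 (Finset.mem_range.1 hj))) hK.le)).trans (le_of_eq ?_)
    simp
  have hcc : ∀ j : ℕ, c0 ≤ c0 * R ^ j := fun j => le_mul_of_one_le_right hc00.le (one_le_pow₀ hR1)
  have hN : ∀ j ≤ mm, (((2 * (L + 1)) ^ j : ℕ) : ℝ) ≤ Nm := fun j hj => by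
    push_cast
    exact pow_le_pow_right₀ (by linarith) hj
  have hext : ∀ j x, ∀ act' : Finset I, ∀ Pc' : Finset ι, (∀ i ∈ act', ty i ≤ j) →
      (∀ k, bd k ≤ j → k ∈ Pc') →
      Inv v h m (Finset.univ.filter (fun i => ty i < j)) (Finset.univ.filter (fun k => bd k < j))
        ((2 * (L + 1)) ^ j) (β j) (c0 * R ^ j) (σ j) x →
      Ext v h m act' Pc' ((2 * (L + 1)) ^ j + 1) (β j) (σ j) x (fun k =>
        (if k ∈ Finset.univ.filter (fun k => bd k < j) then
          (((2 * (L + 1)) ^ j : ℕ) : ℝ) * (c0 * R ^ j) else 0) +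
        (if k ∈ Finset.univ.filter (fun k => bd k = j) then ω * lam k / σ j else 0)) := by
    intro j x act' Pc' h1 h2 H
    refine extend H hh (hσ0 j) (by positivity) hfr
      (fun k hk => h2 k (le_of_lt (Finset.mem_filter.1 hk).2))
      (fun k hk => h2 k (le_of_eq (Finset.mem_filter.1 hk).2)) (fun i hi hi' => ?_)
    have h3 : ty i = j := by
      have := h1 i hi
      simp only [Finset.mem_filter, Finset.mem_univ, true_and] at hi'
      omega
    exact (hβ1 j).trans (h3 ▸ hty2 i)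
  have hnewb : ∀ k, ω * lam k / σ (bd k) = c0 * (lam k / θ (bd k)) := by
    intro k
    have := (hθ0 (bd k)).ne'
    simp only [hσ]; field_simp
  have hle1 : ∀ k, lam k / θ (bd k) ≤ 1 := fun k => (div_le_one (hθ0 _)).2 (hbd2 k)
  have main : ∀ j ≤ mm, ∃ x, Inv v h m (Finset.univ.filter (fun i => ty i < j))
      (Finset.univ.filter (fun k => bd k < j)) ((2 * (L + 1)) ^ j) (β j) (c0 * R ^ j) (σ j) x ∧
      ∑ a, w a * max 0 (|φ a ⬝ᵥ x| - K * ∑ j' ∈ Finset.range j, κ j' a) ≤ j * B := by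
    intro j
    induction j with
    | zero =>
      intro _
      refine ⟨0, ⟨fun _ => 0, fun _ => 0, by simp, by simp, by simp, fun γ y => ?_⟩, by simp⟩
      simp only [vecMul_zero, dotProduct_zero]
      simpa using mul_nonneg hc00.le (dot_self_nonneg y)
    | succ j ih =>
      intro hj
      obtain ⟨x, H, hx⟩ := ih (by omega)
      have E := hext j x (Finset.univ.filter (fun i => ty i < j + 1))
        (Finset.univ.filter (fun k => bd k < j + 1))
        (fun i hi => Nat.lt_succ_iff.1 (Finset.mem_filter.1 hi).2)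
        (fun k hk => Finset.mem_filter.2 ⟨Finset.mem_univ _, Nat.lt_succ_of_le hk⟩) H
      set Nj : ℝ := (((2 * (L + 1)) ^ j : ℕ) : ℝ) with hNj
      have hNj0 : 0 ≤ Nj := Nat.cast_nonneg _
      set g : ℝ := Nj * (c0 * R ^ j) + c0 with hg
      have hg1 : 0 ≤ Nj * (c0 * R ^ j) := by positivity
      have hρ : ∀ k, (if k ∈ Finset.univ.filter (fun k => bd k < j) then Nj * (c0 * R ^ j) else 0) +
          (if k ∈ Finset.univ.filter (fun k => bd k = j) then ω * lam k / σ j else 0) ≤
          g * r j k := by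
        intro k
        have hjm : j < mm := by omega
        simp only [Finset.mem_filter, Finset.mem_univ, true_and, hr, hjm, if_true]
        rcases lt_trichotomy (bd k) j with h1 | h1 | h1
        · simp only [h1, h1.ne, h1.le, if_true, if_false]; linarith
        · have h2 := hnewb k
          have h3 := mul_le_mul_of_nonneg_left (hle1 k) hc00.le
          rw [h1] at h2 h3
          simp only [h1, lt_irrefl, le_refl, if_true, if_false]; linarith
        · simp only [h1.not_gt, h1.ne', h1.not_ge, if_false]; simp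
      have hr1 : ∀ k, r j k ≤ 1 := by
        intro k
        have hjm : j < mm := by omega
        simp only [hr, hjm, if_true]
        split_ifs <;> norm_num
      obtain ⟨x', H', hc'⟩ := soft (σ' := σ (j + 1)) (g := g) (c0 := c0) hC hst L E hv hh (hσ0 j)
        (hσ0 _) (hβ0 j) (by linarith) hc00.le hK hδ
        (fun k => (hρ k).trans (mul_le_of_le_one_right (by linarith) (hr1 k)))
        (by
          have e : 2 ^ L * c0 * σ (j + 1) = 12 * ω * (2 ^ L / X ^ (j + 1)) := by
            simp only [hσ, hθ]; field_simp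
          have h1 : 1 ≤ 2 ^ L / X ^ (j + 1) := by
            rw [le_div_iff₀ (by positivity), one_mul]
            exact (pow_le_pow_right₀ hX hj).trans hXL
          rw [e]
          nlinarith) φ w (κ j) hw (hκ0 j)
        (fun a => by
          refine le_trans ?_ (mul_le_mul_of_nonneg_left (hκ1 j a) (by linarith))
          simp only [hS]
          rw [mul_left_comm g, Finset.mul_sum _ _ g]
          apply mul_le_mul_of_nonneg_left _ (sq_nonneg _)
          apply Finset.sum_le_sum
          intro k _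
          rw [← mul_assoc g]
          exact mul_le_mul_of_nonneg_right (hρ k) (sq_nonneg _))
      refine ⟨x', ?_, by push_cast; exact hstep j (by omega) x x' hx hc'⟩
      have eβ : β j / 4 = β (j + 1) := by simp only [hβ]; field_simp; ring
      rw [eβ] at H'
      refine H'.mono ?_ ?_
      · have : 1 ≤ (2 * (L + 1)) ^ j := Nat.one_le_pow _ _ (by omega)
        rw [pow_succ]; nlinarith
      · have h1 : g ≤ (Nm + 1) * (c0 * R ^ j) := by
          have := mul_le_mul_of_nonneg_right (hN j (by omega)) (show 0 ≤ c0 * R ^ j by positivity)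
          linarith [hcc j]
        have h2 : 8 * (C * (L + 1) * g) / β j ≤ 8 * (C * (L + 1) * g) * bi := by
          rw [div_le_iff₀ (hβ0 j)]
          have h3 : 1 ≤ bi * β j := by
            have := hβ2 j (by omega)
            rwa [div_le_iff₀ (by linarith), mul_comm] at this
          have : 0 ≤ 8 * (C * (L + 1) * g) := by positivity
          nlinarith
        have h3 : 8 * (C * (L + 1) * g) * bi ≤ 8 * (C * (L + 1) * ((Nm + 1) * (c0 * R ^ j))) * bi ^ 2 := by
          apply mul_le_mul _ (by nlinarith) (by linarith) (by positivity)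
          exact mul_le_mul_of_nonneg_left (mul_le_mul_of_nonneg_left h1 (by positivity))
            (by norm_num)
        have h4 : c0 * R ^ (j + 1) = 8 * (C * (L + 1) * ((Nm + 1) * (c0 * R ^ j))) * bi ^ 2 +
            3 * (c0 * R ^ j) := by rw [pow_succ]; nth_rewrite 2 [hRe]; ring
        linarith [hcc j]
  obtain ⟨x, H, hx⟩ := main mm le_rfl
  have E := hext mm x Finset.univ Finset.univ (fun i _ => hty1 i) (fun k _ => Finset.mem_univ k) H
  set Nj : ℝ := (((2 * (L + 1)) ^ mm : ℕ) : ℝ) with hNj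
  have hNj0 : 0 ≤ Nj := Nat.cast_nonneg _
  have hkey : C * ((Nm + 1) * (c0 * R ^ mm)) ≤ β mm ^ 2 := by
    have e1 : c0 * R ^ mm = 1 / R := by rw [hc0]; field_simp; ring
    have e2 : β mm = 1 / bi := rfl
    rw [e1, e2, div_pow, one_pow, ← mul_assoc, mul_one_div, div_le_div_iff₀ hR0 (by positivity),
      hRe]
    have : 0 ≤ C * (Nm + 1) * bi ^ 2 := by positivity
    nlinarith
  have hρ : ∀ k, C * ((if k ∈ Finset.univ.filter (fun k => bd k < mm) then
      Nj * (c0 * R ^ mm) else 0) +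
      (if k ∈ Finset.univ.filter (fun k => bd k = mm) then ω * lam k / σ mm else 0)) ≤
      β mm ^ 2 * r mm k := by
    intro k
    simp only [Finset.mem_filter, Finset.mem_univ, true_and, hr, lt_irrefl, if_false]
    have hp : 0 ≤ c0 * R ^ mm := by positivity
    rcases (hbd1 k).lt_or_eq with h1 | h1
    · simp only [h1, h1.ne, if_true, if_false, add_zero, mul_one]
      refine le_trans (mul_le_mul_of_nonneg_left ?_ (by linarith)) hkey
      exact mul_le_mul_of_nonneg_right (by linarith [hN mm le_rfl]) hp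
    · have h2 := hnewb k
      rw [h1] at h2
      simp only [h1, lt_irrefl, if_true, if_false, zero_add]
      rw [h2, ← mul_assoc]
      apply mul_le_mul_of_nonneg_right _ (div_nonneg (hlam k).le (hθ0 _).le)
      refine le_trans (mul_le_mul_of_nonneg_left ?_ (by linarith)) hkey
      nlinarith [hcc mm]
  have hr1 : ∀ k, r mm k ≤ 1 := by
    intro k
    simp only [hr, lt_irrefl, if_false]
    split_ifs with h1
    · exact le_rfl
    · have h2 : bd k = mm := by have := hbd1 k; omega
      exact h2 ▸ hle1 k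
  obtain ⟨x', H', hc'⟩ := hard hC hst E hv hh (hσ0 mm) (hβ0 mm) hK hδ
    (fun k => (hρ k).trans (mul_le_of_le_one_right (sq_nonneg _) (hr1 k))) φ w (κ mm) hw (hκ0 mm)
    (fun a => by
      refine le_trans ?_ (mul_le_mul_of_nonneg_left (hκ1 mm a) (sq_nonneg _))
      simp only [hS]
      rw [mul_left_comm (β mm ^ 2), Finset.mul_sum _ _ (β mm ^ 2)]
      apply mul_le_mul_of_nonneg_left _ (sq_nonneg _)
      apply Finset.sum_le_sum
      intro k _
      rw [← mul_assoc (β mm ^ 2)]
      exact mul_le_mul_of_nonneg_right (hρ k) (sq_nonneg _))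
  exact ⟨x', H', hstep mm le_rfl x x' hx hc'⟩

end Pool.Agent.Lib.MP_79af62_gt
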