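import Pool.Agent.Lib.MP_79af62_gt.Position
import Pool.Agent.Lib.MP_79af62_gt.Multi

set_option autoImplicit false

namespace Pool.Agent.Lib.MP_79af62_gt

open Finset Matrix

variable {ι I J : Type} [Fintype ι] [DecidableEq ι] [Fintype I] [Fintype J]

theorem diagonalise (W : Matrix ι ι ℝ) (hW : Wᵀ = W) :
    ∃ (U : Matrix ι ι ℝ) (lam : ι → ℝ), U * Uᵀ = 1 ∧ Uᵀ * W * U = diagonal lam := by
  have hH : W.IsHermitian := by
    rw [IsHermitian, conjTranspose_eq_transpose_of_trivial, hW]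
  refine ⟨hH.eigenvectorUnitary, hH.eigenvalues, ?_, ?_⟩
  · have := Unitary.coe_mul_star_self hH.eigenvectorUnitary
    rwa [Unitary.coe_star, star_eq_conjTranspose, conjTranspose_eq_transpose_of_trivial] at this
  · have := hH.conjStarAlgAut_star_eigenvectorUnitary
    rw [Unitary.conjStarAlgAut_star_apply, star_eq_conjTranspose,
      conjTranspose_eq_transpose_of_trivial] at this
    simpa using this

theorem position (f : I → ι → ℝ) (θ : I → ℝ) (dd : J → ι → ℝ) (a : J → ℝ) (e : I → J)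
    (w s : ℝ) (hθ : ∀ i, 0 < θ i) (hw : 0 < w) (hθw : ∑ i, θ i ≤ w) (ha : ∀ j, 0 ≤ a j)
    (hfd : ∀ i, f i ⬝ᵥ dd (e i) = 1)
    (hea : ∀ g : J → ℝ, (∀ j, 0 ≤ g j) → ∑ i, θ i * g (e i) ≤ 2 * w * ∑ j, a j * g j)
    (hs : 0 < s) (hspan : ∀ y, s * (y ⬝ᵥ y) ≤ ∑ j, a j * (y ⬝ᵥ dd j) ^ 2) :
    ∃ (B C : Matrix ι ι ℝ) (lam : ι → ℝ), B * C = 1 ∧ (∀ k, 0 < lam k) ∧ ∑ k, lam k ≤ 12 ∧
      (∀ k l, ∑ j, a j * ((C *ᵥ dd j) k * (C *ᵥ dd j) l) = if k = l then lam k else 0) ∧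
      ∀ y, ∑ i, θ i * (y ⬝ᵥ (f i ᵥ* B)) ^ 2 / √((f i ᵥ* B) ⬝ᵥ (f i ᵥ* B)) ^ 3 ≤
        4 * w * ∑ k, lam k * y k ^ 2 := by
  obtain ⟨B, C, hBC, htr, hfr⟩ := position0 f θ dd a e w s hθ hw hθw ha hfd hea hs hspan
  set W : Matrix ι ι ℝ := ∑ j, a j • vecMulVec (C *ᵥ dd j) (C *ᵥ dd j) with hW
  obtain ⟨U, lam, hU, hD⟩ := diagonalise W (by
    simp only [hW, transpose_sum, transpose_smul, transpose_vecMulVec])
  have hU' : Uᵀ * U = 1 := mul_eq_one_comm.1 hU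
  have hBC' : (B * U) * (Uᵀ * C) = 1 := by
    rw [mul_assoc, ← mul_assoc U, hU, one_mul, hBC]
  have hdiag : ∀ k l, ∑ j, a j * (((Uᵀ * C) *ᵥ dd j) k * ((Uᵀ * C) *ᵥ dd j) l) =
      if k = l then lam k else 0 := by
    intro k l
    have h1 : (Uᵀ * W * U) k l = if k = l then lam k else 0 := by rw [hD, diagonal_apply]
    rw [← h1, hW, Matrix.mul_sum, Matrix.sum_mul, Matrix.sum_apply]
    apply Finset.sum_congr rfl
    intro j _
    rw [Matrix.mul_smul, Matrix.smul_mul, mul_vecMulVec, vecMulVec_mul, Matrix.smul_apply,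
      vecMulVec_apply, ← mulVec_transpose, mulVec_mulVec, smul_eq_mul]
  have hquad : ∀ y : ι → ℝ, ∑ j, a j * (y ⬝ᵥ ((Uᵀ * C) *ᵥ dd j)) ^ 2 = ∑ k, lam k * y k ^ 2 := by
    intro y
    have h1 : ∀ j, a j * (y ⬝ᵥ ((Uᵀ * C) *ᵥ dd j)) ^ 2 = ∑ k, ∑ l, y k * y l *
        (a j * (((Uᵀ * C) *ᵥ dd j) k * ((Uᵀ * C) *ᵥ dd j) l)) := by
      intro j
      rw [sq, dotProduct, Finset.sum_mul_sum, Finset.mul_sum]
      apply Finset.sum_congr rfl; intro k _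
      rw [Finset.mul_sum]
      apply Finset.sum_congr rfl; intro l _
      ring
    simp only [h1]
    rw [Finset.sum_comm]
    apply Finset.sum_congr rfl; intro k _
    rw [Finset.sum_comm]
    simp only [← Finset.mul_sum, hdiag, mul_ite, mul_zero, Finset.sum_ite_eq, Finset.mem_univ,
      if_true]
    ring
  have hnorm : ∀ v : ι → ℝ, (v ᵥ* U) ⬝ᵥ (v ᵥ* U) = v ⬝ᵥ v := by
    intro v
    nth_rewrite 2 [← mulVec_transpose]
    rw [dotProduct_mulVec, vecMul_vecMul, hU, vecMul_one]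
  refine ⟨B * U, Uᵀ * C, lam, hBC', fun k => ?_, ?_, hdiag, fun y => ?_⟩
  · have h1 := hdiag k k
    rw [if_pos rfl] at h1
    have h2 := hspan ((Uᵀ * C) k)
    have h3 : ∑ j, a j * ((Uᵀ * C) k ⬝ᵥ dd j) ^ 2 = lam k := by
      rw [← h1]
      apply Finset.sum_congr rfl; intro j _
      rw [sq]; rfl
    have h4 : 0 < (Uᵀ * C) k ⬝ᵥ (Uᵀ * C) k := by
      rcases (dot_self_nonneg ((Uᵀ * C) k)).lt_or_eq with h5 | h5
      · exact h5
      · exfalso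
        have h6 : (Uᵀ * C) k = 0 := dotProduct_self_eq_zero.1 h5.symm
        have h7 : ((Uᵀ * C) * (B * U)) k k = 1 := by rw [mul_eq_one_comm.1 hBC', one_apply_eq]
        rw [mul_apply_eq_vecMul, h6, zero_vecMul] at h7
        simp at h7
    nlinarith [mul_pos hs h4]
  · refine le_trans (le_of_eq ?_) htr
    have h1 : ∑ k, lam k = ∑ k, ∑ j, a j * (((Uᵀ * C) *ᵥ dd j) k * ((Uᵀ * C) *ᵥ dd j) k) :=
      Finset.sum_congr rfl (fun k _ => by rw [hdiag, if_pos rfl])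
    rw [h1, Finset.sum_comm]
    apply Finset.sum_congr rfl; intro j _
    rw [← Finset.mul_sum, ← hnorm (C *ᵥ dd j), ← mulVec_transpose, mulVec_mulVec]
    rfl
  · rw [← hquad]
    have h1 := hfr (U *ᵥ y)
    have h2 : ∀ v, (U *ᵥ y) ⬝ᵥ v = y ⬝ᵥ (v ᵥ* U) := fun v => by
      rw [dotProduct_comm, dotProduct_mulVec, dotProduct_comm]
    simp only [h2] at h1
    simp only [← vecMul_vecMul, hnorm, ← mulVec_mulVec, mulVec_transpose]
    exact h1

theorem core [DecidableEq I] {p : ℕ} {C : ℝ} (hC : 1 ≤ C) (hst : StageProp p C)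
    (mm L : ℕ) (X K δ : ℝ) (hX : 1 ≤ X) (hXL : X ^ mm ≤ 2 ^ L)
    (hd : (Fintype.card ι : ℝ) ≤ X ^ mm) (hK : 0 < K) (hδ : 0 < δ)
    (f : I → ι → ℝ) (θ : I → ℝ) (dd : J → ι → ℝ) (a : J → ℝ) (e : I → J)
    (w s : ℝ) (hθ : ∀ i, 0 < θ i) (hw : 0 < w) (hθw : ∑ i, θ i ≤ w) (ha : ∀ j, 0 ≤ a j)
    (ha1 : ∑ j, a j ≤ 1) (hfd : ∀ i, f i ⬝ᵥ dd (e i) = 1)
    (hea : ∀ g : J → ℝ, (∀ j, 0 ≤ g j) → ∑ i, θ i * g (e i) ≤ 2 * w * ∑ j, a j * g j)
    (hs : 0 < s) (hspan : ∀ y, s * (y ⬝ᵥ y) ≤ ∑ j, a j * (y ⬝ᵥ dd j) ^ 2) :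
    ∃ t : J → ℝ, (∀ j, 0 ≤ t j) ∧
      ∑ j, t j ≤ (mm + 1) * (K * (5 * X * (4 * w) * RR C mm L ^ (mm + 1))) ∧
      ∀ m : I → ℝ, ∃ c : J → ℝ, (∀ i, θ i < |f i ⬝ᵥ (∑ j, c j • dd j) - m i|) ∧
        ∑ j, max 0 (|c j| - t j) ≤
          (mm + 1) * (C * (5 * X * (4 * w) * RR C mm L ^ (mm + 1)) / K ^ (2 * p + 1) + δ) := by
  obtain ⟨B, D, lam, hBD, hl0, hl1, hdiag, hfr⟩ :=
    position f θ dd a e w s hθ hw hθw ha hfd hea hs hspan
  set r : I → ℝ := fun i => √((f i ᵥ* B) ⬝ᵥ (f i ᵥ* B)) with hr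
  have hvpos : ∀ i, 0 < (f i ᵥ* B) ⬝ᵥ (f i ᵥ* B) := by
    intro i
    rcases (dot_self_nonneg (f i ᵥ* B)).lt_or_eq with h1 | h1
    · exact h1
    · exfalso
      have h2 : f i ᵥ* B = 0 := dotProduct_self_eq_zero.1 h1.symm
      have h3 : (f i ᵥ* B) ⬝ᵥ (D *ᵥ dd (e i)) = 1 := by
        rw [← dotProduct_mulVec, mulVec_mulVec, hBD, one_mulVec, hfd]
      rw [h2, zero_dotProduct] at h3
      exact zero_ne_one h3
  have hr0 : ∀ i, 0 < r i := fun i => Real.sqrt_pos.2 (hvpos i)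
  have hr2 : ∀ i, r i ^ 2 = (f i ᵥ* B) ⬝ᵥ (f i ᵥ* B) := fun i => Real.sq_sqrt (hvpos i).le
  obtain ⟨t, ht0, ht1, ht2⟩ := multi hC hst mm L X K (4 * w) δ hX hXL hd hK (by positivity) hδ
    (fun i => (r i)⁻¹ • (f i ᵥ* B)) (fun i => θ i / r i) lam
    (fun j k => (D *ᵥ dd j) k / lam k) a
    (fun i => by
      simp only [smul_dotProduct, dotProduct_smul, smul_eq_mul, ← hr2]
      have := (hr0 i).ne'
      field_simp)
    (fun i => div_pos (hθ i) (hr0 i)) hl0 hl1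
    (fun y => by
      refine le_trans (le_of_eq ?_) (hfr y)
      apply Finset.sum_congr rfl; intro i _
      simp only [dotProduct_smul, smul_eq_mul]
      have := (hr0 i).ne'
      change _ = _ / r i ^ 3
      field_simp) ha ha1
    (fun k => by
      have h1 := hdiag k k
      rw [if_pos rfl] at h1
      have h2 := (hl0 k).ne'
      have h3 : ∑ j, a j * ((D *ᵥ dd j) k / lam k) ^ 2 =
          (∑ j, a j * ((D *ᵥ dd j) k * (D *ᵥ dd j) k)) / lam k ^ 2 := by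
        rw [Finset.sum_div]
        apply Finset.sum_congr rfl; intro j _
        field_simp
      rw [h3, h1]
      apply le_of_eq
      field_simp)
  refine ⟨fun j => a j * t j, fun j => mul_nonneg (ha j) (ht0 j), ht1, fun m => ?_⟩
  obtain ⟨z, hz1, hz2⟩ := ht2 (fun i => m i / r i)
  set c : J → ℝ := fun j => a j * ((fun k => (D *ᵥ dd j) k / lam k) ⬝ᵥ z) with hc
  refine ⟨c, fun i => ?_, le_trans (le_of_eq ?_) hz2⟩
  · have h1 : D *ᵥ (∑ j, c j • dd j) = z := by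
      funext k
      simp only [mulVec_sum, mulVec_smul, Finset.sum_apply, Pi.smul_apply, smul_eq_mul, hc]
      have h2 : ∀ j, a j * ((fun k => (D *ᵥ dd j) k / lam k) ⬝ᵥ z) * (D *ᵥ dd j) k =
          ∑ l, z l / lam l * (a j * ((D *ᵥ dd j) l * (D *ᵥ dd j) k)) := by
        intro j
        rw [dotProduct, Finset.mul_sum, Finset.sum_mul]
        apply Finset.sum_congr rfl; intro l _
        ring
      simp only [h2]
      rw [Finset.sum_comm]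
      simp only [← Finset.mul_sum, hdiag, mul_ite, mul_zero, Finset.sum_ite_eq', Finset.mem_univ,
        if_true]
      have := (hl0 k).ne'
      field_simp
    have h2 : f i ⬝ᵥ (∑ j, c j • dd j) = (f i ᵥ* B) ⬝ᵥ z := by
      rw [← h1, ← dotProduct_mulVec, mulVec_mulVec, hBD, one_mulVec]
    have h3 := hz1 i
    simp only [smul_dotProduct, smul_eq_mul] at h3
    have h4 : (r i)⁻¹ * (f i ᵥ* B) ⬝ᵥ z - m i / r i = ((f i ᵥ* B) ⬝ᵥ z - m i) / r i := by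
      have := (hr0 i).ne'
      field_simp
    rw [h4, abs_div, abs_of_pos (hr0 i), div_lt_div_iff_of_pos_right (hr0 i)] at h3
    rwa [h2]
  · apply Finset.sum_congr rfl; intro j _
    simp only [hc]
    rw [abs_mul, abs_of_nonneg (ha j), ← mul_sub, mul_max_of_nonneg _ _ (ha j), mul_zero]

end Pool.Agent.Lib.MP_79af62_gt
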