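import Pool.Agent.Lib.MP_79af62_gt.Core

set_option autoImplicit false

namespace Pool.Agent.Lib.MP_79af62_gt

open Finset Matrix

theorem conv_sum {E σ : Type*} [AddCommGroup E] [Module ℝ E] {K : Set E} (hK : Convex ℝ K)
    {o : E} (ho : o ∈ K) (s : Finset σ) (k : σ → ℝ) (Z : σ → E) (hk : ∀ i ∈ s, 0 ≤ k i)
    (h1 : ∑ i ∈ s, k i ≤ 1) (hZ : ∀ i ∈ s, Z i ∈ K) : o + ∑ i ∈ s, k i • (Z i - o) ∈ K := by
  set T := ∑ i ∈ s, k i with hT
  have hT0 : 0 ≤ T := Finset.sum_nonneg hk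
  rcases hT0.eq_or_lt with h0 | h0
  · have : ∀ i ∈ s, k i = 0 := (Finset.sum_eq_zero_iff_of_nonneg hk).1 h0.symm
    rw [Finset.sum_eq_zero (fun i hi => by rw [this i hi, zero_smul]), add_zero]
    exact ho
  · have h2 : ∑ i ∈ s, (k i / T) • Z i ∈ K := hK.sum_mem (fun i hi => div_nonneg (hk i hi) hT0)
      (by rw [← Finset.sum_div, div_self h0.ne']) hZ
    have h3 := hK.add_smul_sub_mem ho h2 ⟨hT0, h1⟩
    convert h3 using 2
    simp only [smul_sub, Finset.sum_sub_distrib, ← Finset.sum_smul, Finset.smul_sum, smul_smul]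
    congr 1
    apply Finset.sum_congr rfl; intro i _
    rw [mul_div_cancel₀ _ h0.ne']

variable {ι : Type} [Fintype ι]

theorem exists_centre {σ : Type} [Fintype σ] {K : Set (ι → ℝ)} (hK : Convex ℝ K)
    (hι : 0 < Fintype.card ι) (R : σ → ι → ℝ) (hR : ∀ s, R s ∈ K) (s0 : σ) :
    ∃ o ∈ K, ∀ s, o - (1 / (Fintype.card ι : ℝ)) • (R s - o) ∈ K := by
  classical
  set d : ℝ := (Fintype.card ι : ℝ) with hd
  have hd0 : 0 < d := by rw [hd]; exact_mod_cast hι
  have H := Convex.helly_theorem' (𝕜 := ℝ) (s := (Finset.univ : Finset σ))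
    (F := fun s => {o | o - (1 / d) • (R s - o) ∈ K})
    (fun s _ => by
      intro x hx y hy a b ha hb hab
      have := hK hx hy ha hb hab
      simp only [Set.mem_setOf_eq]
      convert this using 1
      have hb' : b = 1 - a := by linarith
      rw [hb']
      module)
    (fun I _ hI => by
      refine ⟨R s0 + (1 / (d + 1)) • ∑ s ∈ I, (R s - R s0), ?_⟩
      simp only [Set.mem_iInter, Set.mem_setOf_eq]
      intro s1 hs1
      have h1 := conv_sum hK (hR s0) (I.erase s1) (fun _ => 1 / d) R (fun _ _ => by positivity)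
        (by
          rw [Finset.sum_const, Finset.card_erase_of_mem hs1, nsmul_eq_mul, mul_one_div,
            div_le_one hd0, hd]
          simp only [Module.finrank_fintype_fun_eq_card] at hI
          exact_mod_cast (by omega)) (fun s _ => hR s)
      convert h1 using 1
      rw [← Finset.smul_sum, ← Finset.add_sum_erase I _ hs1]
      set S := ∑ s ∈ I.erase s1, (R s - R s0)
      funext k
      simp only [Pi.add_apply, Pi.sub_apply, Pi.smul_apply, smul_eq_mul]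
      field_simp
      ring)
  obtain ⟨o, ho⟩ := H
  simp only [Finset.mem_univ, Set.iInter_true, Set.mem_iInter, Set.mem_setOf_eq] at ho
  refine ⟨o, ?_, ho⟩
  have := hK (ho s0) (hR s0) (show 0 ≤ d / (d + 1) by positivity)
    (show 0 ≤ 1 / (d + 1) by positivity) (by field_simp)
  convert this using 1
  funext k
  simp only [Pi.add_apply, Pi.sub_apply, Pi.smul_apply, smul_eq_mul]
  field_simp
  ring

omit [Fintype ι] in
theorem mem_of_cost {J : Type} [Fintype J] {K : Set (ι → ℝ)} (hK : Convex ℝ K) (d : ℝ)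
    (hd : 0 < d) {o : ι → ℝ} (ho : o ∈ K) (P Q : J → ι → ℝ) (hP : ∀ j, P j ∈ K) (hQ : ∀ j, Q j ∈ K)
    (hP' : ∀ j, o - (1 / d) • (P j - o) ∈ K) (hQ' : ∀ j, o - (1 / d) • (Q j - o) ∈ K)
    (t c : J → ℝ) (ht : ∀ j, 0 ≤ t j)
    (hc : ∑ j, t j + (d + 1) * ∑ j, max 0 (|c j| - t j) ≤ 1) :
    (o + ∑ j, t j • ((1 / 2 : ℝ) • (P j + Q j) - o)) + ∑ j, c j • ((1 / 2 : ℝ) • (Q j - P j)) ∈ K := by
  set γ : J ⊕ J → ℝ := Sum.elim (fun j => (t j - c j) / 2) (fun j => (t j + c j) / 2) with hγ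
  set R : J ⊕ J → ι → ℝ := Sum.elim P Q with hR
  have h1 := conv_sum hK ho Finset.univ (fun s => if 0 ≤ γ s then γ s else -(d * γ s))
    (fun s => if 0 ≤ γ s then R s else o - (1 / d) • (R s - o))
    (fun s _ => by
      split_ifs with h
      · exact h
      · nlinarith [not_le.1 h])
    (by
      refine le_trans ?_ hc
      rw [Fintype.sum_sum_type, ← Finset.sum_add_distrib, Finset.mul_sum, ← Finset.sum_add_distrib]
      apply Finset.sum_le_sum
      intro j _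
      simp only [hγ, Sum.elim_inl, Sum.elim_inr]
      have h2 := le_max_left 0 (|c j| - t j)
      have h3 := le_max_right 0 (|c j| - t j)
      have h4 := le_abs_self (c j)
      have h5 := neg_abs_le (c j)
      have h6 := ht j
      split_ifs <;> nlinarith)
    (fun s _ => by
      split_ifs
      · rcases s with j | j
        · exact hP j
        · exact hQ j
      · rcases s with j | j
        · exact hP' j
        · exact hQ' j)
  convert h1 using 1
  have h2 : ∀ s, (if 0 ≤ γ s then γ s else -(d * γ s)) •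
      ((if 0 ≤ γ s then R s else o - (1 / d) • (R s - o)) - o) = γ s • (R s - o) := by
    intro s
    split_ifs
    · rfl
    · funext k
      simp only [Pi.sub_apply, Pi.smul_apply, smul_eq_mul]
      field_simp
      ring
  simp only [h2]
  rw [Fintype.sum_sum_type, add_assoc, ← Finset.sum_add_distrib, ← Finset.sum_add_distrib]
  congr 1
  apply Finset.sum_congr rfl; intro j _
  simp only [hγ, hR, Sum.elim_inl, Sum.elim_inr]
  module

theorem cover_bound [DecidableEq ι] {I : Type} [Fintype I] [DecidableEq I] {C : ℝ} (mm q : ℕ)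
    (hC : 1 ≤ C) (hst : StageProp mm C) (hι : 0 < Fintype.card ι)
    (hd : Fintype.card ι ≤ 2 ^ (q * mm)) {K : Set (ι → ℝ)} (hK : Convex ℝ K)
    (x0 : ι → ℝ) (ρ : ℝ) (hρ : 0 < ρ) (hb1 : ∀ k, x0 - ρ • Pi.single k 1 ∈ K)
    (hb2 : ∀ k, x0 + ρ • Pi.single k 1 ∈ K) (f P Q : I → ι → ℝ) (θ m : I → ℝ) (hθ : ∀ i, 0 < θ i)
    (hP : ∀ i, P i ∈ K) (hQ : ∀ i, Q i ∈ K) (hf : ∀ i, f i ⬝ᵥ (Q i - P i) = 2) (i0 : I)
    (hcov : ∀ x ∈ K, ∃ i, |f i ⬝ᵥ x - m i| ≤ θ i) :
    1 ≤ 20 * (mm + 1) * (C + 3) * 4 ^ q * RR C mm (q * mm) ^ (mm + 1) * ∑ i, θ i := by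
  set w := ∑ i, θ i with hw
  have hw0 : 0 < w := Finset.sum_pos (fun i _ => hθ i) ⟨i0, Finset.mem_univ _⟩
  set d : ℝ := (Fintype.card ι : ℝ) with hdd
  have hd1 : 1 ≤ d := by rw [hdd]; exact_mod_cast hι
  set P' : I ⊕ ι → ι → ℝ := Sum.elim P (fun k => x0 - ρ • Pi.single k 1) with hP'
  set Q' : I ⊕ ι → ι → ℝ := Sum.elim Q (fun k => x0 + ρ • Pi.single k 1) with hQ'
  have hP'K : ∀ j, P' j ∈ K := by rintro (i | k); exacts [hP i, hb1 k]
  have hQ'K : ∀ j, Q' j ∈ K := by rintro (i | k); exacts [hQ i, hb2 k]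
  obtain ⟨o, ho, hoR⟩ := exists_centre hK hι (Sum.elim P' Q')
    (by rintro (j | j); exacts [hP'K j, hQ'K j]) (Sum.inl (Sum.inl i0))
  set X : ℝ := 2 ^ q with hX
  have hX1 : 1 ≤ X := one_le_pow₀ (by norm_num)
  have hXm : X ^ mm = 2 ^ (q * mm) := by rw [hX, ← pow_mul]
  have hdX : d ≤ X ^ mm := by rw [hXm, hdd]; exact_mod_cast hd
  have hR0 : 0 < RR C mm (q * mm) := by unfold RR; positivity
  set η : ℝ := 5 * X * (4 * w) * RR C mm (q * mm) ^ (mm + 1) with hη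
  have hη0 : 0 < η := by positivity
  obtain ⟨t, ht0, ht1, ht2⟩ := core hC hst mm (q * mm) X (2 * X) (η / (d + 1)) hX1 hXm.le hdX
    (by positivity) (by positivity) f θ (fun j => (1 / 2 : ℝ) • (Q' j - P' j))
    (Sum.elim (fun i => θ i / (2 * w)) (fun _ => 1 / (2 * d))) Sum.inl w (ρ ^ 2 / (2 * d)) hθ hw0
    le_rfl
    (by
      rintro (i | k)
      · exact div_nonneg (hθ i).le (by positivity)
      · simp only [Sum.elim_inr]; positivity)
    (by
      rw [Fintype.sum_sum_type]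
      simp only [Sum.elim_inl, Sum.elim_inr, ← Finset.sum_div, Finset.sum_const, Finset.card_univ,
        nsmul_eq_mul, ← hw, ← hdd]
      apply le_of_eq
      field_simp
      norm_num)
    (fun i => by
      simp only [hP', hQ', Sum.elim_inl, dotProduct_smul, hf, smul_eq_mul]; norm_num)
    (fun g hg => by
      rw [Fintype.sum_sum_type, mul_add, Finset.mul_sum]
      simp only [Sum.elim_inl, Sum.elim_inr]
      have h1 : 0 ≤ 2 * w * ∑ k, 1 / (2 * d) * g (Sum.inr k) :=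
        mul_nonneg (by positivity) (Finset.sum_nonneg (fun k _ => mul_nonneg (by positivity) (hg _)))
      have h2 : ∑ i, θ i * g (Sum.inl i) = ∑ i, 2 * w * (θ i / (2 * w) * g (Sum.inl i)) := by
        apply Finset.sum_congr rfl; intro i _; field_simp
      linarith)
    (by positivity)
    (fun y => by
      rw [Fintype.sum_sum_type]
      simp only [Sum.elim_inl, Sum.elim_inr]
      have h1 : 0 ≤ ∑ i, θ i / (2 * w) *
          (y ⬝ᵥ (1 / 2 : ℝ) • (Q' (Sum.inl i) - P' (Sum.inl i))) ^ 2 :=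
        Finset.sum_nonneg (fun i _ => mul_nonneg (div_nonneg (hθ i).le (by positivity)) (sq_nonneg _))
      have h2 : ρ ^ 2 / (2 * d) * (y ⬝ᵥ y) = ∑ k, 1 / (2 * d) *
          (y ⬝ᵥ (1 / 2 : ℝ) • (Q' (Sum.inr k) - P' (Sum.inr k))) ^ 2 := by
        rw [dotProduct, Finset.mul_sum]
        apply Finset.sum_congr rfl; intro k _
        have : (1 / 2 : ℝ) • (Q' (Sum.inr k) - P' (Sum.inr k)) = ρ • Pi.single k 1 := by
          simp only [hP', hQ', Sum.elim_inr]; module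
        rw [this, dotProduct_smul, dotProduct_single, smul_eq_mul]
        ring
      linarith)
  set ctr := o + ∑ j, t j • ((1 / 2 : ℝ) • (P' j + Q' j) - o) with hctr
  obtain ⟨c, hc1, hc2⟩ := ht2 (fun i => m i - f i ⬝ᵥ ctr)
  by_contra hcon
  push Not at hcon
  have hm1 : (0 : ℝ) < mm + 1 := by positivity
  have hcost : ∑ j, t j + (d + 1) * ∑ j, max 0 (|c j| - t j) ≤ 1 := by
    have h1 : d + 1 ≤ (2 * X) ^ (2 * mm + 1) := by
      calc d + 1 ≤ 2 * X ^ mm := by linarith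
        _ ≤ (2 * X) * (2 * X) ^ mm := by
            apply mul_le_mul (by linarith) (pow_le_pow_left₀ (by linarith) (by linarith) _)
              (by positivity) (by positivity)
        _ = (2 * X) ^ (mm + 1) := by ring
        _ ≤ _ := pow_le_pow_right₀ (by linarith) (by omega)
    have h2 : C * η / (2 * X) ^ (2 * mm + 1) ≤ C * η / (d + 1) :=
      div_le_div_of_nonneg_left (by positivity) (by positivity) h1
    have h3 : ∑ j, max 0 (|c j| - t j) ≤ (mm + 1) * (C * η / (d + 1) + η / (d + 1)) :=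
      hc2.trans (mul_le_mul_of_nonneg_left (add_le_add h2 le_rfl) hm1.le)
    have h4 := mul_le_mul_of_nonneg_left h3 (show 0 ≤ d + 1 by positivity)
    have h5 : (d + 1) * ((mm + 1) * (C * η / (d + 1) + η / (d + 1))) = (mm + 1) * ((C + 1) * η) := by
      field_simp
    have h6 : (mm + 1) * ((C + 1) * η) ≤ (mm + 1) * ((C + 1) * X * η) := by
      apply mul_le_mul_of_nonneg_left _ hm1.le
      apply mul_le_mul_of_nonneg_right _ hη0.le
      nlinarith
    have h7 : (mm + 1) * (2 * X * η) + (mm + 1) * ((C + 1) * X * η) =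
        20 * (mm + 1) * (C + 3) * 4 ^ q * RR C mm (q * mm) ^ (mm + 1) * w := by
      have : (4 : ℝ) ^ q = X * X := by rw [hX, ← mul_pow]; norm_num
      rw [this, hη]; ring
    linarith
  have hmem := mem_of_cost hK d (by linarith) ho P' Q' hP'K hQ'K (fun j => hoR (Sum.inl j))
    (fun j => hoR (Sum.inr j)) t c ht0 hcost
  obtain ⟨i, hi⟩ := hcov _ hmem
  have h1 := hc1 i
  rw [dotProduct_add] at hi
  have h2 : f i ⬝ᵥ ctr + f i ⬝ᵥ (∑ j, c j • ((1 / 2 : ℝ) • (Q' j - P' j))) - m i =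
      f i ⬝ᵥ (∑ j, c j • ((1 / 2 : ℝ) • (Q' j - P' j))) - (m i - f i ⬝ᵥ ctr) := by ring
  rw [h2] at hi
  linarith

theorem growth (C : ℝ) (hC : 1 ≤ C) (mm : ℕ) : ∃ A : ℝ, 0 < A ∧ ∀ q : ℕ,
    20 * (mm + 1) * (C + 3) * 4 ^ q * RR C mm (q * mm) ^ (mm + 1) ≤ A * 16 ^ q := by
  set A0 : ℝ := 8 * C * (mm + 1) * (2 * (2 * (mm + 1)) ^ mm) * ((mm + 1) * 4 ^ mm) ^ 2 + 3 with hA0
  set e := (mm + 1) * (mm + 1) with he
  refine ⟨20 * (mm + 1) * (C + 3) * A0 ^ (mm + 1) * (3 * e.factorial), by positivity, fun q => ?_⟩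
  have hq1 : (1 : ℝ) ≤ q + 1 := by linarith [Nat.cast_nonneg (α := ℝ) q]
  have hm0 : (0 : ℝ) ≤ mm := Nat.cast_nonneg mm
  have hq0 : (0 : ℝ) ≤ q := Nat.cast_nonneg q
  have h1 : RR C mm (q * mm) ≤ A0 * (q + 1) ^ (mm + 1) := by
    unfold RR
    have a1 : ((q * mm : ℕ) : ℝ) + 1 ≤ (mm + 1) * (q + 1) := by push_cast; nlinarith
    have a0 : (1 : ℝ) ≤ ((q * mm : ℕ) : ℝ) + 1 := by linarith [Nat.cast_nonneg (α := ℝ) (q * mm)]
    have a2 : (2 * (((q * mm : ℕ) : ℝ) + 1)) ^ mm + 1 ≤ 2 * (2 * (mm + 1)) ^ mm * (q + 1) ^ mm := by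
      have b1 : (2 * (((q * mm : ℕ) : ℝ) + 1)) ^ mm ≤ (2 * (mm + 1) * (q + 1)) ^ mm :=
        pow_le_pow_left₀ (by positivity) (by linarith) _
      have b2 : (1 : ℝ) ≤ (2 * (((q * mm : ℕ) : ℝ) + 1)) ^ mm := one_le_pow₀ (by linarith)
      rw [mul_pow (2 * ((mm : ℝ) + 1))] at b1
      linarith
    have a3 : (1 : ℝ) ≤ (q + 1) ^ (mm + 1) := one_le_pow₀ hq1
    have a4 : 8 * C * (((q * mm : ℕ) : ℝ) + 1) * ((2 * (((q * mm : ℕ) : ℝ) + 1)) ^ mm + 1) *
        ((mm + 1) * 4 ^ mm) ^ 2 ≤ 8 * C * ((mm + 1) * (q + 1)) *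
        (2 * (2 * (mm + 1)) ^ mm * (q + 1) ^ mm) * ((mm + 1) * 4 ^ mm) ^ 2 := by
      apply mul_le_mul_of_nonneg_right _ (by positivity)
      exact mul_le_mul (mul_le_mul_of_nonneg_left a1 (by positivity)) a2 (by positivity)
        (by positivity)
    have a5 : A0 * (q + 1) ^ (mm + 1) = 8 * C * ((mm + 1) * (q + 1)) *
        (2 * (2 * (mm + 1)) ^ mm * (q + 1) ^ mm) * ((mm + 1) * 4 ^ mm) ^ 2 +
        3 * (q + 1) ^ (mm + 1) := by rw [hA0]; ring
    linarith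
  have hR0 : 0 < RR C mm (q * mm) := by unfold RR; positivity
  have h2 : RR C mm (q * mm) ^ (mm + 1) ≤ A0 ^ (mm + 1) * (q + 1) ^ e := by
    rw [he, pow_mul, ← mul_pow]
    exact pow_le_pow_left₀ hR0.le h1 _
  have h3 : ((q : ℝ) + 1) ^ e ≤ 3 * e.factorial * 4 ^ q := by
    have b1 := Real.pow_div_factorial_le_exp ((q : ℝ) + 1) (by positivity) e
    rw [div_le_iff₀ (by positivity)] at b1
    have b2 : Real.exp ((q : ℝ) + 1) ≤ 3 * 4 ^ q := by
      have b3 : Real.exp 1 ≤ 3 := by linarith [Real.exp_one_lt_d9]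
      rw [Real.exp_add, ← Real.exp_one_pow, mul_comm]
      exact mul_le_mul b3 (pow_le_pow_left₀ (Real.exp_pos 1).le (by linarith) q) (by positivity)
        (by norm_num)
    have b4 := mul_le_mul_of_nonneg_right b2 (show (0 : ℝ) ≤ e.factorial by positivity)
    linarith
  have h4 : RR C mm (q * mm) ^ (mm + 1) ≤ A0 ^ (mm + 1) * (3 * e.factorial * 4 ^ q) :=
    h2.trans (mul_le_mul_of_nonneg_left h3 (by positivity))
  have h5 : (16 : ℝ) ^ q = 4 ^ q * 4 ^ q := by rw [← mul_pow]; norm_num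
  calc _ ≤ 20 * (mm + 1) * (C + 3) * 4 ^ q * (A0 ^ (mm + 1) * (3 * e.factorial * 4 ^ q)) :=
        mul_le_mul_of_nonneg_left h4 (by positivity)
    _ = _ := by rw [h5]; ring

theorem exists_q (ε : ℝ) (mm : ℕ) (hm : 0 < mm) (hε : 4 ≤ ε * mm) (d : ℕ) (hd : 0 < d) :
    ∃ q : ℕ, d ≤ 2 ^ (q * mm) ∧ (16 : ℝ) ^ q ≤ 16 * (d : ℝ) ^ ε := by
  have hex : ∃ q : ℕ, d ≤ 2 ^ (q * mm) :=
    ⟨d, (Nat.lt_two_pow_self.le).trans (Nat.pow_le_pow_right (by norm_num)
      (Nat.le_mul_of_pos_right d hm))⟩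
  have hd1 : (1 : ℝ) ≤ d := by exact_mod_cast hd
  have hε0 : 0 ≤ ε := by
    by_contra h
    have : (0 : ℝ) ≤ mm := Nat.cast_nonneg mm
    nlinarith [not_le.1 h]
  have hde : 1 ≤ (d : ℝ) ^ ε := Real.one_le_rpow hd1 hε0
  refine ⟨Nat.find hex, Nat.find_spec hex, ?_⟩
  rcases h : Nat.find hex with _ | q
  · simp only [pow_zero]; linarith
  · have h1 : ¬ d ≤ 2 ^ (q * mm) := Nat.find_min hex (by omega)
    have h2 : (2 : ℝ) ^ (q * mm) ≤ d := by exact_mod_cast (not_le.1 h1).le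
    have h3 : ((16 : ℝ) ^ q) ^ mm ≤ ((d : ℝ) ^ ε) ^ mm := by
      calc ((16 : ℝ) ^ q) ^ mm = (2 ^ (q * mm)) ^ 4 := by
            rw [show (16 : ℝ) = 2 ^ 4 by norm_num, ← pow_mul, ← pow_mul, ← pow_mul]
            congr 1; ring
        _ ≤ (d : ℝ) ^ 4 := pow_le_pow_left₀ (by positivity) h2 4
        _ = (d : ℝ) ^ (4 : ℝ) := by norm_cast
        _ ≤ (d : ℝ) ^ (ε * mm) := Real.rpow_le_rpow_of_exponent_le hd1 hε
        _ = _ := by rw [Real.rpow_mul (by positivity), Real.rpow_natCast]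
    have h4 := le_of_pow_le_pow_left₀ hm.ne' (by positivity) h3
    rw [pow_succ]
    linarith

end Pool.Agent.Lib.MP_79af62_gt
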