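import Mathlib
import Pool.Agent.Shared.BrunnMinkowski

/-! Midpoint Prekopa-Leindler inequality in every dimension, for measurable functions with values
in the extended nonnegative reals. -/

open MeasureTheory Set ENNReal

namespace Pool.Agent.Lib.MP_79af62_gt.PLn

theorem pl_trunc {f g h : ℝ → ℝ≥0∞} (hf : Measurable f) (hg : Measurable g) (hh : Measurable h)
    (H : ∀ x y, f x * g y ≤ h ((x + y) / 2) ^ 2) (hI : ∫⁻ x, h x ≠ ∞) (N : ℕ) :
    (∫⁻ x, (Icc (-(N : ℝ)) N).indicator (fun x => min (f x) N) x) *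
      (∫⁻ x, (Icc (-(N : ℝ)) N).indicator (fun x => min (g x) N) x) ≤ (∫⁻ x, h x) ^ 2 := by
  have A : ∀ {f : ℝ → ℝ≥0∞}, Measurable f →
      Measurable ((Icc (-(N : ℝ)) N).indicator fun x => min (f x) N) ∧
      (∀ x, (Icc (-(N : ℝ)) N).indicator (fun x => min (f x) N) x ≤ N) ∧
      (∀ x, (Icc (-(N : ℝ)) N).indicator (fun x => min (f x) N) x ≤ f x) ∧
      (∫⁻ x, (Icc (-(N : ℝ)) N).indicator (fun x => min (f x) N) x) ≠ ∞ := by
    intro f hf
    refine ⟨(hf.min measurable_const).indicator measurableSet_Icc,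
      fun x => (indicator_le_self _ _ x).trans (min_le_right _ _),
      fun x => (indicator_le_self _ _ x).trans (min_le_left _ _), ?_⟩
    rw [lintegral_indicator measurableSet_Icc]
    refine ne_top_of_le_ne_top ?_ (lintegral_mono fun x => min_le_right _ _)
    simp only [lintegral_const, MeasurableSet.univ, Measure.restrict_apply, univ_inter,
      Real.volume_Icc]
    exact ENNReal.mul_ne_top (natCast_ne_top N) ofReal_ne_top
  obtain ⟨f1, f2, f3, f4⟩ := A hf
  obtain ⟨g1, g2, g3, g4⟩ := A hg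
  generalize hF : ((Icc (-(N : ℝ)) N).indicator fun x => min (f x) N) = F at f1 f2 f3 f4
  generalize hG : ((Icc (-(N : ℝ)) N).indicator fun x => min (g x) N) = G at g1 g2 g3 g4
  have h1 : Measurable fun x => min (h x) N := hh.min measurable_const
  have h4 : (∫⁻ x, min (h x) N) ≠ ∞ :=
    ne_top_of_le_ne_top hI (lintegral_mono fun x => min_le_left _ _)
  have nt : ∀ {a : ℝ≥0∞}, a ≤ N → a ≠ ∞ := fun ha => ne_top_of_le_ne_top (natCast_ne_top N) ha
  have bd : ∀ {F : ℝ → ℝ≥0∞}, (∀ x, F x ≤ N) → BddAbove (range fun x => (F x).toReal) :=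
    fun hF => ⟨N, forall_mem_range.2 fun x => by
      simpa using ENNReal.toReal_mono (natCast_ne_top N) (hF x)⟩
  have sp : ∀ {k : ℝ → ℝ≥0∞}, Bornology.IsBounded
      {x | ((Icc (-(N : ℝ)) N).indicator k x).toReal ≠ 0} := fun {k} =>
    (Metric.isBounded_Icc (-(N : ℝ)) N).subset fun x hx => by
      by_contra hc
      exact hx (by simp [indicator_of_notMem hc])
  have key := Pool.Agent.Shared.BrunnMinkowski.pl_one (f := fun x => (F x).toReal)
    (g := fun x => (G x).toReal) (h := fun x => (min (h x) N).toReal)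
    f1.ennreal_toReal g1.ennreal_toReal h1.ennreal_toReal (fun _ => toReal_nonneg)
    (fun _ => toReal_nonneg) (fun _ => toReal_nonneg) (bd f2) (bd g2)
    (integrable_toReal_of_lintegral_ne_top f1.aemeasurable f4)
    (integrable_toReal_of_lintegral_ne_top g1.aemeasurable g4)
    (integrable_toReal_of_lintegral_ne_top h1.aemeasurable h4)
    (hF ▸ sp) (hG ▸ sp) (l := 1 / 2) (by norm_num) (by norm_num) (fun x y => by
      have e : (1 - 1 / 2) * x + 1 / 2 * y = (x + y) / 2 := by ring
      have b : F x * G y ≤ (min (h ((x + y) / 2)) N) ^ 2 := by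
        rcases le_total (h ((x + y) / 2)) N with c | c
        · rw [min_eq_left c]
          exact (mul_le_mul' (f3 x) (g3 y)).trans (H x y)
        · rw [min_eq_right c, sq]
          exact mul_le_mul' (f2 x) (g2 y)
      have b' := ENNReal.toReal_mono (pow_ne_top (nt (min_le_right _ _))) b
      rw [toReal_mul, toReal_pow] at b'
      rw [e, show (1 - 1 / 2 : ℝ) = 1 / 2 by norm_num, ← Real.mul_rpow toReal_nonneg toReal_nonneg,
        ← Real.sqrt_eq_rpow]
      exact Real.sqrt_le_iff.2 ⟨toReal_nonneg, b'⟩)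
  rw [integral_toReal f1.aemeasurable (ae_of_all _ fun x => (nt (f2 x)).lt_top),
    integral_toReal g1.aemeasurable (ae_of_all _ fun x => (nt (g2 x)).lt_top),
    integral_toReal h1.aemeasurable (ae_of_all _ fun x => (nt (min_le_right _ _)).lt_top),
    show (1 - 1 / 2 : ℝ) = 1 / 2 by norm_num, ← Real.mul_rpow toReal_nonneg toReal_nonneg,
    ← Real.sqrt_eq_rpow, Real.sqrt_le_iff, ← toReal_mul, ← toReal_pow,
    toReal_le_toReal (mul_ne_top f4 g4) (pow_ne_top h4)] at key
  exact key.2.trans (pow_le_pow_left' (lintegral_mono fun x => min_le_left _ _) 2)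

theorem trunc_sup {f : ℝ → ℝ≥0∞} (hf : Measurable f) :
    ∫⁻ x, f x = ⨆ N : ℕ, ∫⁻ x, (Icc (-(N : ℝ)) N).indicator (fun x => min (f x) N) x ∧
    Monotone fun N : ℕ => ∫⁻ x, (Icc (-(N : ℝ)) N).indicator (fun x => min (f x) N) x := by
  have mo : Monotone fun N : ℕ => (Icc (-(N : ℝ)) N).indicator (fun x => min (f x) N) := by
    intro M N hMN x
    have c : (M : ℝ) ≤ N := Nat.cast_le.2 hMN
    exact (indicator_le_indicator_of_subset (Icc_subset_Icc (neg_le_neg c) c)
      (fun _ => zero_le) x).trans (indicator_le_indicator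
        (min_le_min_left _ (Nat.cast_le.2 hMN)))
  refine ⟨?_, fun M N h => lintegral_mono (mo h)⟩
  rw [← lintegral_iSup (fun N => (hf.min measurable_const).indicator measurableSet_Icc) mo]
  refine lintegral_congr fun x => le_antisymm ?_ (iSup_le fun N =>
    (indicator_le_self _ _ x).trans (min_le_left _ _))
  refine le_of_forall_lt fun c hc => ?_
  obtain ⟨M, hM⟩ := ENNReal.exists_nat_gt hc.ne_top
  obtain ⟨K, hK⟩ := exists_nat_ge |x|
  refine lt_iSup_iff.2 ⟨max M K, ?_⟩
  have k : |x| ≤ (max M K : ℕ) := hK.trans (Nat.cast_le.2 (le_max_right _ _))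
  rw [indicator_of_mem (mem_Icc.2 (abs_le.1 k))]
  exact lt_min hc (hM.trans_le (Nat.cast_le.2 (le_max_left _ _)))

theorem pl_mid {f g h : ℝ → ℝ≥0∞} (hf : Measurable f) (hg : Measurable g) (hh : Measurable h)
    (H : ∀ x y, f x * g y ≤ h ((x + y) / 2) ^ 2) :
    (∫⁻ x, f x) * (∫⁻ x, g x) ≤ (∫⁻ x, h x) ^ 2 := by
  by_cases hI : ∫⁻ x, h x = ∞
  · simp [hI]
  obtain ⟨f1, f2⟩ := trunc_sup hf
  obtain ⟨g1, g2⟩ := trunc_sup hg
  rw [f1, g1, ENNReal.iSup_mul]
  refine iSup_le fun M => ?_
  rw [ENNReal.mul_iSup]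
  refine iSup_le fun N => ?_
  exact (mul_le_mul' (f2 (le_max_left M N)) (g2 (le_max_right M N))).trans
    (pl_trunc hf hg hh H hI _)

theorem pl_marg {ι : Type*} [DecidableEq ι] (s : Finset ι) {f g h : (ι → ℝ) → ℝ≥0∞}
    (hf : Measurable f) (hg : Measurable g) (hh : Measurable h)
    (H : ∀ x y, f x * g y ≤ h (fun i => (x i + y i) / 2) ^ 2) (x y : ι → ℝ) :
    (∫⋯∫⁻_s, f ∂fun _ => volume) x * (∫⋯∫⁻_s, g ∂fun _ => volume) y ≤
      (∫⋯∫⁻_s, h ∂fun _ => volume) (fun i => (x i + y i) / 2) ^ 2 := by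
  induction s using Finset.induction generalizing x y with
  | empty => simpa using H x y
  | insert i s hi ih =>
    rw [lmarginal_insert _ hf hi, lmarginal_insert _ hg hi, lmarginal_insert _ hh hi]
    refine pl_mid ((hf.lmarginal _).comp (measurable_update _))
      ((hg.lmarginal _).comp (measurable_update _))
      ((hh.lmarginal _).comp (measurable_update _)) fun a b => ?_
    have e : Function.update (fun i => (x i + y i) / 2) i ((a + b) / 2) =
        fun j => (Function.update x i a j + Function.update y i b j) / 2 := by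
      funext j
      by_cases c : j = i
      · subst c
        simp
      · simp [c]
    rw [e]
    exact ih _ _

theorem pl_pi {ι : Type*} [Fintype ι] {f g h : (ι → ℝ) → ℝ≥0∞}
    (hf : Measurable f) (hg : Measurable g) (hh : Measurable h)
    (H : ∀ x y, f x * g y ≤ h (fun i => (x i + y i) / 2) ^ 2) :
    (∫⁻ x, f x) * (∫⁻ x, g x) ≤ (∫⁻ x, h x) ^ 2 := by
  classical
  have := pl_marg Finset.univ hf hg hh H 0 0
  simpa [lmarginal_univ, volume_pi] using this

end Pool.Agent.Lib.MP_79af62_gt.PLn
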