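import Pool.Agent.Lib.MP_79af62_gt.Refine

set_option autoImplicit false

namespace Pool.Agent.Lib.MP_79af62_gt

open Finset Matrix

variable {ι I J : Type} [Fintype ι] [DecidableEq ι] [Fintype I] [Fintype J]

theorem inv_gain (r r' : ℝ) (h0 : 0 < r') (h1 : r' ≤ r) :
    1 / r + (r ^ 2 - r' ^ 2) / (2 * r ^ 3) ≤ 1 / r' := by
  have hr : 0 < r := lt_of_lt_of_le h0 h1
  rw [div_add_div _ _ hr.ne' (by positivity), div_le_div_iff₀ (by positivity) h0]
  have : 0 ≤ r * ((r - r') ^ 2 * (2 * r + r')) := by positivity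
  nlinarith

theorem position0 (f : I → ι → ℝ) (θ : I → ℝ) (dd : J → ι → ℝ) (a : J → ℝ) (e : I → J)
    (w s : ℝ) (hθ : ∀ i, 0 < θ i) (hw : 0 < w) (hθw : ∑ i, θ i ≤ w) (ha : ∀ j, 0 ≤ a j)
    (hfd : ∀ i, f i ⬝ᵥ dd (e i) = 1)
    (hea : ∀ g : J → ℝ, (∀ j, 0 ≤ g j) → ∑ i, θ i * g (e i) ≤ 2 * w * ∑ j, a j * g j)
    (hs : 0 < s) (hspan : ∀ y, s * (y ⬝ᵥ y) ≤ ∑ j, a j * (y ⬝ᵥ dd j) ^ 2) :
    ∃ B C : Matrix ι ι ℝ, B * C = 1 ∧ ∑ j, a j * ((C *ᵥ dd j) ⬝ᵥ (C *ᵥ dd j)) ≤ 12 ∧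
      ∀ y, ∑ i, θ i * (y ⬝ᵥ (f i ᵥ* B)) ^ 2 / √((f i ᵥ* B) ⬝ᵥ (f i ᵥ* B)) ^ 3 ≤
        4 * w * ∑ j, a j * (y ⬝ᵥ (C *ᵥ dd j)) ^ 2 := by
  set om : Matrix ι ι ℝ → ℝ := fun C => ∑ j, a j * ((C *ᵥ dd j) ⬝ᵥ (C *ᵥ dd j)) with hom
  set be : Matrix ι ι ℝ → ℝ := fun B => ∑ k, B k ⬝ᵥ B k with hbe
  set ps : Matrix ι ι ℝ → ℝ := fun B => ∑ i, θ i / √((f i ᵥ* B) ⬝ᵥ (f i ᵥ* B)) with hps
  have hom0 : ∀ C, 0 ≤ om C := fun C =>
    Finset.sum_nonneg (fun j _ => mul_nonneg (ha j) (dot_self_nonneg _))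
  have hbe0 : ∀ B, 0 ≤ be B := fun B => Finset.sum_nonneg (fun k _ => dot_self_nonneg _)
  have hps0 : ∀ B, 0 ≤ ps B := fun B =>
    Finset.sum_nonneg (fun i _ => div_nonneg (hθ i).le (Real.sqrt_nonneg _))
  have hone : ∀ B C : Matrix ι ι ℝ, B * C = 1 → ∀ i,
      1 ≤ ((f i ᵥ* B) ⬝ᵥ (f i ᵥ* B)) * ((C *ᵥ dd (e i)) ⬝ᵥ (C *ᵥ dd (e i))) := by
    intro B C h i
    have h1 : (f i ᵥ* B) ⬝ᵥ (C *ᵥ dd (e i)) = 1 := by
      rw [← dotProduct_mulVec, mulVec_mulVec, h, one_mulVec, hfd]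
    have h2 := dot_sq_le (f i ᵥ* B) (C *ᵥ dd (e i))
    rwa [h1, one_pow] at h2
  have hvpos : ∀ B C : Matrix ι ι ℝ, B * C = 1 → ∀ i, 0 < (f i ᵥ* B) ⬝ᵥ (f i ᵥ* B) := by
    intro B C h i
    rcases (dot_self_nonneg (f i ᵥ* B)).lt_or_eq with h1 | h1
    · exact h1
    · have := hone B C h i
      rw [← h1, zero_mul] at this
      linarith
  have hpsle : ∀ B C : Matrix ι ι ℝ, B * C = 1 → 2 * ps B ≤ w / 2 * om C + 4 * w := by
    intro B C h
    have h1 : ∀ i, 2 * (θ i / √((f i ᵥ* B) ⬝ᵥ (f i ᵥ* B))) ≤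
        θ i * ((C *ᵥ dd (e i)) ⬝ᵥ (C *ᵥ dd (e i))) / 4 + 4 * θ i := by
      intro i
      have h2 := hone B C h i
      have h3 := Real.sqrt_pos.2 (hvpos B C h i)
      have h4 := Real.sq_sqrt (hvpos B C h i).le
      set r := √((f i ᵥ* B) ⬝ᵥ (f i ᵥ* B))
      set q := (C *ᵥ dd (e i)) ⬝ᵥ (C *ᵥ dd (e i))
      rw [← h4] at h2
      have h5 : 2 / r ≤ q / 4 + 4 := by
        rw [div_le_iff₀ h3]
        have h6 : 0 ≤ (1 - 4 * r) ^ 2 := sq_nonneg _
        have h7 : (2 - (q / 4 + 4) * r) * (4 * r) ≤ 0 := by nlinarith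
        by_contra h8
        push Not at h8
        nlinarith [mul_pos (show 0 < 2 - (q / 4 + 4) * r by linarith) (show 0 < 4 * r by linarith)]
      have h6 := mul_le_mul_of_nonneg_left h5 (hθ i).le
      calc _ = θ i * (2 / r) := by ring
        _ ≤ _ := h6
        _ = _ := by ring
    have h2 := Finset.sum_le_sum (fun i (_ : i ∈ Finset.univ) => h1 i)
    rw [← Finset.mul_sum, Finset.sum_add_distrib, ← Finset.sum_div, ← Finset.mul_sum] at h2
    have h3 := hea (fun j => (C *ᵥ dd j) ⬝ᵥ (C *ᵥ dd j)) (fun j => dot_self_nonneg _)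
    simp only [hps, hom]
    linarith
  set ε : ℝ := 1 / (om 1 + 1) with hε
  have hε0 : 0 < ε := by have := hom0 1; positivity
  set B0 : Matrix ι ι ℝ := ε⁻¹ • 1 with hB0
  set C0 : Matrix ι ι ℝ := ε • 1 with hC0
  have hBC0 : B0 * C0 = 1 := by
    rw [hB0, hC0, smul_mul_smul_comm, inv_mul_cancel₀ hε0.ne', one_smul, mul_one]
  set η : ℝ := w / (be B0 + 1) with hη
  have hη0 : 0 < η := by have := hbe0 B0; positivity
  set Xi : Matrix ι ι ℝ × Matrix ι ι ℝ → ℝ := fun z => w * om z.2 + η * be z.1 - 2 * ps z.1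
    with hXi
  have hXi0 : Xi (B0, C0) ≤ 2 * w := by
    have h1 : om C0 = ε ^ 2 * om 1 := by
      simp only [hom, hC0, smul_mulVec, one_mulVec, smul_dotProduct, dotProduct_smul, smul_eq_mul,
        Finset.mul_sum]
      apply Finset.sum_congr rfl; intro j _; ring
    have h2 : ε ^ 2 * om 1 ≤ 1 := by
      have := hom0 1
      rw [hε, div_pow, one_pow, one_div_mul_eq_div, div_le_one (by positivity)]
      nlinarith
    have h3 : η * be B0 ≤ w := by
      have := hbe0 B0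
      rw [hη, div_mul_eq_mul_div, div_le_iff₀ (by positivity)]
      nlinarith
    simp only [hXi]
    rw [h1]
    nlinarith [hps0 B0]
  set Rr : ℝ := 6 * w / η + 12 / s + 1 with hRr
  set box : Set (Matrix ι ι ℝ) := {M | ∀ k l, M k l ∈ Set.Icc (-Rr) Rr} with hbox
  have hboxc : IsCompact box := by
    have h1 : IsCompact (Set.pi Set.univ (fun _ : ι => Set.pi Set.univ
        (fun _ : ι => Set.Icc (-Rr) Rr))) :=
      isCompact_univ_pi (fun _ => isCompact_univ_pi (fun _ => isCompact_Icc))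
    have h2 : box = (Set.pi Set.univ (fun _ : ι => Set.pi Set.univ
        (fun _ : ι => Set.Icc (-Rr) Rr)) : Set (ι → ι → ℝ)) := by
      ext M
      exact ⟨fun h k _ l _ => h k l, fun h k l => h k trivial l trivial⟩
    rw [h2]
    exact h1
  have hbound : ∀ z : Matrix ι ι ℝ × Matrix ι ι ℝ, z.1 * z.2 = 1 → Xi z ≤ 2 * w →
      om z.2 ≤ 12 ∧ z ∈ box ×ˢ box := by
    rintro ⟨B, C⟩ h1 h2
    simp only [hXi] at h2
    have h3 := hpsle B C h1
    have h4 := mul_nonneg hη0.le (hbe0 B)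
    have h5 := mul_nonneg hw.le (hom0 C)
    have h6 : om C ≤ 12 := by
      by_contra h7
      push Not at h7
      nlinarith
    have h7 : be B ≤ 6 * w / η := by rw [le_div_iff₀ hη0]; nlinarith
    have h8 : be C ≤ 12 / s := by
      rw [le_div_iff₀ hs]
      have e1 : om C = ∑ k, ∑ j, a j * (C k ⬝ᵥ dd j) ^ 2 := by
        rw [Finset.sum_comm]
        simp only [hom, ← Finset.mul_sum]
        apply Finset.sum_congr rfl; intro j _
        congr 1
        simp only [dotProduct, mulVec, sq]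
      have e2 : be C * s ≤ om C := by
        rw [e1, hbe, Finset.sum_mul]
        exact Finset.sum_le_sum (fun k _ => by rw [mul_comm]; exact hspan _)
      linarith
    have hent : ∀ M : Matrix ι ι ℝ, be M + 1 ≤ Rr → M ∈ box := by
      intro M hM k l
      have e1 : M k l * M k l ≤ M k ⬝ᵥ M k :=
        Finset.single_le_sum (f := fun l => M k l * M k l) (fun _ _ => mul_self_nonneg _)
          (Finset.mem_univ l)
      have e2 : M k ⬝ᵥ M k ≤ be M :=
        Finset.single_le_sum (f := fun k => M k ⬝ᵥ M k) (fun _ _ => dot_self_nonneg _)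
          (Finset.mem_univ k)
      constructor <;> nlinarith [sq_nonneg (M k l - 1), sq_nonneg (M k l + 1)]
    have p1 : 0 ≤ 6 * w / η := by positivity
    have p2 : 0 ≤ 12 / s := by positivity
    exact ⟨h6, hent B (by linarith), hent C (by linarith)⟩
  set S : Set (Matrix ι ι ℝ × Matrix ι ι ℝ) := (box ×ˢ box) ∩ {z | z.1 * z.2 = 1} with hS
  have hSc : IsCompact S := (hboxc.prod hboxc).inter_right
    (isClosed_eq (continuous_fst.matrix_mul continuous_snd) continuous_const)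
  have hcont : ContinuousOn Xi S := by
    have c1 : Continuous om := by
      simp only [hom]
      refine continuous_finsetSum _ (fun j _ => continuous_const.mul ?_)
      exact (continuous_id.matrix_mulVec continuous_const).dotProduct
        (continuous_id.matrix_mulVec continuous_const)
    have c2 : Continuous be := by
      simp only [hbe]
      refine continuous_finsetSum _ (fun k _ => ?_)
      exact (continuous_apply k).dotProduct (continuous_apply k)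
    have c3 : ContinuousOn (fun z : Matrix ι ι ℝ × Matrix ι ι ℝ => ps z.1) S := by
      simp only [hps]
      refine continuousOn_finsetSum _ (fun i _ => continuousOn_const.div ?_ ?_)
      · exact (Real.continuous_sqrt.comp ((continuous_const.matrix_vecMul continuous_fst).dotProduct
          (continuous_const.matrix_vecMul continuous_fst))).continuousOn
      · intro z hz
        exact (Real.sqrt_pos.2 (hvpos z.1 z.2 hz.2 i)).ne'
    exact (((continuous_const.mul (c1.comp continuous_snd)).add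
      (continuous_const.mul (c2.comp continuous_fst))).continuousOn).sub (continuousOn_const.mul c3)
  have h0S : (B0, C0) ∈ S := ⟨(hbound _ hBC0 hXi0).2, hBC0⟩
  obtain ⟨⟨B, C⟩, hz, hmin⟩ := hSc.exists_isMinOn ⟨_, h0S⟩ hcont
  have hBC : B * C = 1 := hz.2
  have hle : Xi (B, C) ≤ 2 * w := (hmin h0S).trans hXi0
  have hglob : ∀ B' C' : Matrix ι ι ℝ, B' * C' = 1 → Xi (B, C) ≤ Xi (B', C') := by
    intro B' C' h
    by_cases h1 : Xi (B', C') ≤ 2 * w
    · exact hmin ⟨(hbound _ h h1).2, h⟩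
    · linarith [not_le.1 h1]
  refine ⟨B, C, hBC, (hbound _ hBC hle).1, fun y => ?_⟩
  rcases (dot_self_nonneg y).eq_or_lt with hy | hy
  · have : y = 0 := dotProduct_self_eq_zero.1 hy.symm
    simp [this]
  set n := y ⬝ᵥ y with hn
  set P : Matrix ι ι ℝ := 1 - (1 / (2 * n)) • vecMulVec y y with hP
  set Q : Matrix ι ι ℝ := 1 + (1 / n) • vecMulVec y y with hQ
  have hPv : ∀ v, v ᵥ* P = v - ((v ⬝ᵥ y) / (2 * n)) • y := by
    intro v
    rw [hP, vecMul_sub, vecMul_one, vecMul_smul, vecMul_vecMulVec, smul_smul]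
    congr 2; ring
  have hQv : ∀ v, Q *ᵥ v = v + ((y ⬝ᵥ v) / n) • y := by
    intro v
    rw [hQ, add_mulVec, one_mulVec, smul_mulVec, vecMulVec_mulVec, op_smul_eq_smul, smul_smul]
    congr 2; ring
  have hPQ : P * Q = 1 := by
    ext k l
    rw [mul_apply_eq_vecMul]
    have e1 : P k = (Pi.single k 1 : ι → ℝ) - (y k / (2 * n)) • y := by
      funext l'
      simp only [hP, Matrix.sub_apply, Matrix.smul_apply, vecMulVec_apply, one_apply, Pi.sub_apply,
        Pi.smul_apply, smul_eq_mul, Pi.single_apply]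
      have : (if l' = k then (1 : ℝ) else 0) = if k = l' then 1 else 0 := by simp [eq_comm]
      rw [this]
      ring
    have e2 : ∀ v, v ᵥ* Q = v + ((v ⬝ᵥ y) / n) • y := by
      intro v
      rw [hQ, vecMul_add, vecMul_one, vecMul_smul, vecMul_vecMulVec, smul_smul]
      congr 2; ring
    rw [e2, e1]
    simp only [sub_dotProduct, smul_dotProduct, single_dotProduct, Pi.add_apply, Pi.sub_apply,
      Pi.smul_apply, smul_eq_mul, ← hn, one_apply, Pi.single_apply]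
    have : (if l = k then (1 : ℝ) else 0) = if k = l then 1 else 0 := by simp [eq_comm]
    rw [this]
    field_simp
    ring
  have hPn : ∀ v, (v ᵥ* P) ⬝ᵥ (v ᵥ* P) = v ⬝ᵥ v - 3 / (4 * n) * (y ⬝ᵥ v) ^ 2 := by
    intro v
    rw [hPv]
    simp only [sub_dotProduct, dotProduct_sub, smul_dotProduct, dotProduct_smul, smul_eq_mul, ← hn,
      dotProduct_comm v y]
    field_simp
    ring
  have hQn : ∀ v, (Q *ᵥ v) ⬝ᵥ (Q *ᵥ v) = v ⬝ᵥ v + 3 / n * (y ⬝ᵥ v) ^ 2 := by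
    intro v
    rw [hQv]
    simp only [add_dotProduct, dotProduct_add, smul_dotProduct, dotProduct_smul, smul_eq_mul, ← hn,
      dotProduct_comm v y]
    field_simp
    ring
  have hBC' : (B * P) * (Q * C) = 1 := by
    rw [mul_assoc, ← mul_assoc P, hPQ, one_mul, hBC]
  have hg := hglob _ _ hBC'
  simp only [hXi] at hg
  have g1 : om (Q * C) = om C + 3 / n * ∑ j, a j * (y ⬝ᵥ (C *ᵥ dd j)) ^ 2 := by
    simp only [hom, ← mulVec_mulVec, hQn, Finset.mul_sum, ← Finset.sum_add_distrib]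
    apply Finset.sum_congr rfl; intro j _; ring
  have g2 : be (B * P) ≤ be B := by
    simp only [hbe]
    apply Finset.sum_le_sum
    intro k _
    rw [mul_apply_eq_vecMul, hPn]
    have : 0 ≤ 3 / (4 * n) * (y ⬝ᵥ B k) ^ 2 := by positivity
    linarith
  have g3 : ps B + 3 / (8 * n) * ∑ i, θ i * (y ⬝ᵥ (f i ᵥ* B)) ^ 2 /
      √((f i ᵥ* B) ⬝ᵥ (f i ᵥ* B)) ^ 3 ≤ ps (B * P) := by
    simp only [hps, Finset.mul_sum, ← Finset.sum_add_distrib]
    apply Finset.sum_le_sum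
    intro i _
    have p1 := hvpos _ _ hBC i
    have p2 := hvpos _ _ hBC' i
    have p3 : (f i ᵥ* (B * P)) ⬝ᵥ (f i ᵥ* (B * P)) =
        (f i ᵥ* B) ⬝ᵥ (f i ᵥ* B) - 3 / (4 * n) * (y ⬝ᵥ (f i ᵥ* B)) ^ 2 := by
      rw [← vecMul_vecMul, hPn]
    have p4 : 0 ≤ 3 / (4 * n) * (y ⬝ᵥ (f i ᵥ* B)) ^ 2 := by positivity
    have p5 := inv_gain _ _ (Real.sqrt_pos.2 p2)
      (Real.sqrt_le_sqrt (show _ ≤ (f i ᵥ* B) ⬝ᵥ (f i ᵥ* B) by linarith))
    rw [Real.sq_sqrt p1.le, Real.sq_sqrt p2.le] at p5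
    have p6 := mul_le_mul_of_nonneg_left p5 (hθ i).le
    have p7 : (f i ᵥ* B) ⬝ᵥ (f i ᵥ* B) - (f i ᵥ* (B * P)) ⬝ᵥ (f i ᵥ* (B * P)) =
        3 / (4 * n) * (y ⬝ᵥ (f i ᵥ* B)) ^ 2 := by linarith
    rw [p7] at p6
    calc _ = θ i * (1 / √((f i ᵥ* B) ⬝ᵥ (f i ᵥ* B)) + 3 / (4 * n) * (y ⬝ᵥ (f i ᵥ* B)) ^ 2 /
          (2 * √((f i ᵥ* B) ⬝ᵥ (f i ᵥ* B)) ^ 3)) := by ring
      _ ≤ _ := p6
      _ = _ := by ring
  have g4 := mul_le_mul_of_nonneg_left g2 hη0.le
  rw [g1] at hg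
  set T := ∑ i, θ i * (y ⬝ᵥ (f i ᵥ* B)) ^ 2 / √((f i ᵥ* B) ⬝ᵥ (f i ᵥ* B)) ^ 3
  set W := ∑ j, a j * (y ⬝ᵥ (C *ᵥ dd j)) ^ 2
  have g5 : 3 / (4 * n) * T ≤ 3 / (4 * n) * (4 * w * W) := by
    have e1 : 3 / (4 * n) * T = 2 * (3 / (8 * n) * T) := by field_simp; ring
    have e2 : 3 / (4 * n) * (4 * w * W) = w * (3 / n * W) := by field_simp
    rw [e1, e2]
    linarith
  exact le_of_mul_le_mul_left g5 (by positivity)

end Pool.Agent.Lib.MP_79af62_gt
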