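import Pool.Agent.Lib.MP_79af62_gt.Tree

set_option autoImplicit false

namespace Pool.Agent.Lib.MP_79af62_gt

open Finset

/-- clamp to the interval of radius `2 s` -/
noncomputable def clampH (s y : ℝ) : ℝ := max (-(2 * s)) (min (2 * s) y)

/-- the Huber function: quadratic on the interval of radius `2 s`, linear outside -/
noncomputable def hub (s y : ℝ) : ℝ := (2 * clampH s y * y - clampH s y ^ 2) / (4 * s)

theorem abs_clampH {s : ℝ} (hs : 0 < s) (y : ℝ) : |clampH s y| ≤ 2 * s := by
  unfold clampH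
  rw [abs_le]
  exact ⟨le_max_left _ _, max_le (by linarith) (min_le_left _ _)⟩

theorem hub_ge {s : ℝ} (hs : 0 < s) (y q : ℝ) (hq : |q| ≤ 2 * s) :
    (2 * q * y - q ^ 2) / (4 * s) ≤ hub s y := by
  unfold hub
  apply div_le_div_of_nonneg_right _ (by positivity)
  rw [abs_le] at hq
  unfold clampH
  rcases le_total y (-(2 * s)) with h1 | h1
  · rw [min_eq_right (by linarith), max_eq_left h1]; nlinarith
  · rcases le_total y (2 * s) with h2 | h2
    · rw [min_eq_right h2, max_eq_right h1]; nlinarith [sq_nonneg (y - q)]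
    · rw [min_eq_left h2, max_eq_right (by linarith)]; nlinarith

theorem hub_lip {s : ℝ} (hs : 0 < s) (y y' : ℝ) : hub s y' - hub s y ≤ |y' - y| := by
  have h1 := hub_ge hs y (clampH s y') (abs_clampH hs y')
  have h2 : hub s y' - (2 * clampH s y' * y - clampH s y' ^ 2) / (4 * s) =
      clampH s y' * (y' - y) / (2 * s) := by
    unfold hub; field_simp; ring
  have h3 : clampH s y' * (y' - y) / (2 * s) ≤ |y' - y| := by
    rw [div_le_iff₀ (by positivity)]
    calc _ ≤ |clampH s y' * (y' - y)| := le_abs_self _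
      _ = |clampH s y'| * |y' - y| := abs_mul _ _
      _ ≤ 2 * s * |y' - y| := mul_le_mul_of_nonneg_right (abs_clampH hs y') (abs_nonneg _)
      _ = _ := by ring
  linarith

theorem hub_conv {s : ℝ} (hs : 0 < s) (y d : ℝ) :
    hub s y ≤ (hub s (y + d) + hub s (y - d)) / 2 := by
  have h1 := hub_ge hs (y + d) (clampH s y) (abs_clampH hs y)
  have h2 := hub_ge hs (y - d) (clampH s y) (abs_clampH hs y)
  have h3 : hub s y = ((2 * clampH s y * (y + d) - clampH s y ^ 2) / (4 * s) +
      (2 * clampH s y * (y - d) - clampH s y ^ 2) / (4 * s)) / 2 := by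
    unfold hub; ring
  linarith

theorem hub_gain {s : ℝ} (hs : 0 < s) (y d : ℝ) (h : |y| + |d| ≤ 2 * s) :
    hub s y + d ^ 2 / (4 * s) ≤ (hub s (y + d) + hub s (y - d)) / 2 := by
  have h1 := hub_ge hs (y + d) (y + d) ((abs_add_le _ _).trans h)
  have h2 := hub_ge hs (y - d) (y - d) ((abs_sub _ _).trans h)
  have hy : |y| ≤ 2 * s := by linarith [abs_nonneg d]
  have h3 : clampH s y = y := by
    rw [abs_le] at hy
    unfold clampH; rw [min_eq_right hy.2, max_eq_right hy.1]
  have h4 : hub s y + d ^ 2 / (4 * s) = ((2 * (y + d) * (y + d) - (y + d) ^ 2) / (4 * s) +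
      (2 * (y - d) * (y - d) - (y - d) ^ 2) / (4 * s)) / 2 := by
    unfold hub; rw [h3]; ring
  linarith

theorem hub_half {s : ℝ} (hs : 0 < s) (y d : ℝ) :
    ((hub s (y + d) - hub s (y - d)) / 2) ^ 2 ≤ d ^ 2 := by
  have h1 := hub_lip hs (y - d) (y + d)
  have h2 := hub_lip hs (y + d) (y - d)
  have e1 : y + d - (y - d) = 2 * d := by ring
  have e2 : y - d - (y + d) = -(2 * d) := by ring
  rw [e1, abs_mul, abs_two] at h1
  rw [e2, abs_neg, abs_mul, abs_two] at h2
  rw [← sq_abs d]
  apply sq_le_sq'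
  · linarith
  · linarith

/-- the data of one stage of the fixing process -/
structure Data (E τ : Type) [AddCommGroup E] [Module ℝ E] where
  v : τ → E →ₗ[ℝ] ℝ
  m : τ → ℝ
  s : τ → ℝ
  a : τ → ℝ
  μ : τ → E
  c : ℝ
  x0 : E

/-- the state of the process: position, frozen set, queue -/
structure St (E τ : Type) where
  x : E
  O : Finset τ
  q : List τ

variable {E τ : Type} [AddCommGroup E] [Module ℝ E]

/-- a nonempty set of near items, each overloaded by the set -/
def Data.IsCore (D : Data E τ) (x : E) (O : Finset τ) : Prop :=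
  O.Nonempty ∧ ∀ t ∈ O, |D.v t x - D.m t| ≤ D.s t ∧ D.c ≤ ∑ k ∈ O, D.a k * (D.v t (D.μ k)) ^ 2

open Classical in
/-- a chosen core, empty if there is none -/
noncomputable def Data.core (D : Data E τ) (x : E) : Finset τ :=
  if h : ∃ O, D.IsCore x O then h.choose else ∅

theorem Data.core_spec (D : Data E τ) (x : E) {t : τ} (ht : t ∈ D.core x) :
    |D.v t x - D.m t| ≤ D.s t ∧ D.c ≤ ∑ k ∈ D.core x, D.a k * (D.v t (D.μ k)) ^ 2 := by
  unfold Data.core at ht ⊢
  split_ifs at ht ⊢ with h
  · exact h.choose_spec.2 t ht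
  · simp at ht

theorem Data.core_empty (D : Data E τ) (x : E) (h : D.core x = ∅) (O : Finset τ) :
    ¬ D.IsCore x O := by
  intro hO
  have hex : ∃ O, D.IsCore x O := ⟨O, hO⟩
  unfold Data.core at h
  rw [dif_pos hex] at h
  have := hex.choose_spec.1
  rw [h] at this
  simp at this

/-- the step vector -/
noncomputable def Data.del (D : Data E τ) (e : ℝ) (S : St E τ) : E :=
  match S.q with
  | [] => 0
  | k :: _ => (e * √(D.a k)) • D.μ k

/-- one step of the process -/
noncomputable def Data.next (D : Data E τ) (e : ℝ) (S : St E τ) (b : Bool) : St E τ :=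
  match S.q with
  | [] => ⟨S.x, D.core S.x, (D.core S.x).toList⟩
  | k :: r => ⟨S.x + sg b • ((e * √(D.a k)) • D.μ k), S.O, r⟩

/-- the state after a coin sequence -/
noncomputable def Data.st (D : Data E τ) (e : ℝ) : List Bool → St E τ
  | [] => ⟨D.x0, ∅, []⟩
  | b :: h => D.next e (D.st e h) b

/-- accumulated predictable quantity -/
noncomputable def Data.acc (D : Data E τ) (e : ℝ) (g : St E τ → ℝ) : List Bool → ℝ
  | [] => 0
  | _ :: h => D.acc e g h + g (D.st e h)

/-- accumulated martingale -/
noncomputable def Data.macc (D : Data E τ) (e : ℝ) (g : St E τ → ℝ) : List Bool → ℝ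
  | [] => 0
  | b :: h => D.macc e g h + sg b * g (D.st e h)

/-- the displacement martingale stopped at level `r` -/
noncomputable def Data.stop (D : Data E τ) (e : ℝ) (u : E →ₗ[ℝ] ℝ) (r : ℝ) : List Bool → ℝ
  | [] => 0
  | b :: h => D.stop e u r h +
      sg b * (if r ≤ |D.stop e u r h| then 0 else u (D.del e (D.st e h)))

theorem Data.next_x (D : Data E τ) (e : ℝ) (S : St E τ) (b : Bool) :
    (D.next e S b).x = S.x + sg b • D.del e S := by
  unfold Data.next Data.del
  rcases S with ⟨x, O, q⟩
  cases q <;> simp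

theorem Data.acc_nonneg (D : Data E τ) (e : ℝ) (g : St E τ → ℝ) (hg : ∀ S, 0 ≤ g S) :
    ∀ h, 0 ≤ D.acc e g h
  | [] => le_rfl
  | _ :: h => add_nonneg (D.acc_nonneg e g hg h) (hg _)

theorem Data.acc_mono (D : Data E τ) (e : ℝ) (g g' : St E τ → ℝ) (hg : ∀ S, g S ≤ g' S) :
    ∀ h, D.acc e g h ≤ D.acc e g' h
  | [] => le_rfl
  | _ :: h => add_le_add (D.acc_mono e g g' hg h) (hg _)

/-- quadratic variation of a functional -/
noncomputable def Data.V (D : Data E τ) (e : ℝ) (u : E →ₗ[ℝ] ℝ) : List Bool → ℝ :=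
  D.acc e (fun S => (u (D.del e S)) ^ 2)

variable [DecidableEq τ]

/-- quadratic variation accumulated while an item is frozen -/
noncomputable def Data.A (D : Data E τ) (e : ℝ) (t : τ) : List Bool → ℝ :=
  D.acc e (fun S => if t ∈ S.O then (D.v t (D.del e S)) ^ 2 else 0)

/-- the number of rounds started with an item in the core -/
noncomputable def Data.cnt (D : Data E τ) (e : ℝ) (t : τ) : List Bool → ℝ :=
  D.acc e (fun S => if S.q = [] ∧ t ∈ D.core S.x then 1 else 0)

/-- the martingale part of the Huber function of an item -/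
noncomputable def Data.N (D : Data E τ) (e : ℝ) (t : τ) : List Bool → ℝ :=
  D.macc e (fun S => (hub (D.s t) (D.v t S.x - D.m t + D.v t (D.del e S)) -
    hub (D.s t) (D.v t S.x - D.m t - D.v t (D.del e S))) / 2)

variable [Fintype τ]

omit [DecidableEq τ] in
theorem Data.queue_le (D : Data E τ) (e : ℝ) (g : τ → ℝ) (hg : ∀ k, 0 ≤ g k) :
    ∀ h, ((D.st e h).q.map g).sum ≤ ∑ k, g k
  | [] => by simp [Data.st, Finset.sum_nonneg (fun k _ => hg k)]
  | b :: h => by
    have ih := D.queue_le e g hg h
    simp only [Data.st, Data.next]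
    rcases hq : (D.st e h).q with _ | ⟨k, r⟩
    · simp only [Finset.sum_map_toList]
      exact Finset.sum_le_sum_of_subset_of_nonneg (Finset.subset_univ _) (fun k _ _ => hg k)
    · rw [hq] at ih
      simp only [List.map_cons, List.sum_cons] at ih
      linarith [hg k]

theorem Data.V_eq (D : Data E τ) (e : ℝ) (ha : ∀ k, 0 ≤ D.a k) (u : E →ₗ[ℝ] ℝ) :
    ∀ h, D.V e u h + e ^ 2 * ((D.st e h).q.map (fun k => D.a k * (u (D.μ k)) ^ 2)).sum =
      e ^ 2 * ∑ k, D.cnt e k h * (D.a k * (u (D.μ k)) ^ 2)
  | [] => by simp [Data.st, Data.V, Data.cnt, Data.acc]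
  | b :: h => by
    have ih := D.V_eq e ha u h
    simp only [Data.V, Data.cnt, Data.acc] at ih ⊢
    simp only [Data.st, Data.next, Data.del] at ih ⊢
    rcases hq : (D.st e h).q with _ | ⟨k, r⟩
    · simp only [hq] at ih ⊢
      simp only [Finset.sum_map_toList, add_mul, Finset.sum_add_distrib, true_and, ite_mul,
        one_mul, zero_mul, Finset.sum_ite_mem, Finset.univ_inter, map_zero] at ih ⊢
      simp only [List.map_nil, List.sum_nil] at ih
      linear_combination ih
    · simp only [hq] at ih ⊢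
      simp only [List.map_cons, List.sum_cons, reduceCtorEq, false_and, if_false, add_zero,
        map_smul, smul_eq_mul] at ih ⊢
      have := Real.sq_sqrt (ha k)
      rw [← ih, mul_pow, mul_pow, this]
      ring

omit [DecidableEq τ] in
theorem Data.near (D : Data E τ) (e : ℝ) (he : 0 ≤ e) (t : τ)
    (hs : e * ∑ k, √(D.a k) * |D.v t (D.μ k)| ≤ D.s t) :
    ∀ h, t ∈ (D.st e h).O → |D.v t (D.st e h).x - D.m t| +
      e * ((D.st e h).q.map (fun k => √(D.a k) * |D.v t (D.μ k)|)).sum ≤ 2 * D.s t
  | [] => by simp [Data.st]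
  | b :: h => by
    have ih := D.near e he t hs h
    simp only [Data.st, Data.next]
    rcases hq : (D.st e h).q with _ | ⟨k, r⟩
    · intro ht
      simp only [Finset.sum_map_toList]
      have h1 := (D.core_spec _ ht).1
      have h2 : ∑ k ∈ D.core (D.st e h).x, √(D.a k) * |D.v t (D.μ k)| ≤
          ∑ k, √(D.a k) * |D.v t (D.μ k)| :=
        Finset.sum_le_sum_of_subset_of_nonneg (Finset.subset_univ _) (fun k _ _ => by positivity)
      have h3 := mul_le_mul_of_nonneg_left h2 he
      linarith
    · intro ht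
      have h1 := ih ht
      rw [hq] at h1
      simp only [List.map_cons, List.sum_cons, map_add, map_smul, smul_eq_mul] at h1 ⊢
      have h2 : |D.v t (D.st e h).x + sg b * (e * √(D.a k) * D.v t (D.μ k)) - D.m t| ≤
          |D.v t (D.st e h).x - D.m t| + e * (√(D.a k) * |D.v t (D.μ k)|) := by
        have : D.v t (D.st e h).x + sg b * (e * √(D.a k) * D.v t (D.μ k)) - D.m t =
            (D.v t (D.st e h).x - D.m t) + sg b * (e * √(D.a k) * D.v t (D.μ k)) := by ring
        rw [this]
        refine (abs_add_le _ _).trans (le_of_eq ?_)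
        rw [abs_mul, abs_sg, abs_mul, abs_mul, abs_of_nonneg he,
          abs_of_nonneg (Real.sqrt_nonneg _)]
        ring
      linarith

omit [Fintype τ] in
theorem Data.cnt_le (D : Data E τ) (e : ℝ) (ha : ∀ k, 0 ≤ D.a k) (t : τ) :
    ∀ h, D.c * e ^ 2 * D.cnt e t h ≤ D.A e t h + if t ∈ (D.st e h).O then
      e ^ 2 * ((D.st e h).q.map (fun k => D.a k * (D.v t (D.μ k)) ^ 2)).sum else 0
  | [] => by simp [Data.st, Data.A, Data.cnt, Data.acc]
  | b :: h => by
    have ih := D.cnt_le e ha t h
    simp only [Data.A, Data.cnt, Data.acc] at ih ⊢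
    simp only [Data.st, Data.next, Data.del] at ih ⊢
    rcases hq : (D.st e h).q with _ | ⟨k, r⟩
    · simp only [hq] at ih ⊢
      simp only [Finset.sum_map_toList, true_and, map_zero, List.map_nil, List.sum_nil,
        mul_zero, ite_self, add_zero] at ih ⊢
      by_cases ht : t ∈ D.core (D.st e h).x
      · have h1 := (D.core_spec _ ht).2
        have h2 := mul_le_mul_of_nonneg_left h1 (sq_nonneg e)
        simp only [ht, if_true]
        split_ifs <;> nlinarith
      · simp only [ht, if_false]
        split_ifs <;> nlinarith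
    · simp only [hq] at ih ⊢
      simp only [List.map_cons, List.sum_cons, reduceCtorEq, false_and, if_false, add_zero,
        map_smul, smul_eq_mul] at ih ⊢
      have := Real.sq_sqrt (ha k)
      by_cases ht : t ∈ (D.st e h).O
      · simp only [ht, if_true] at ih ⊢
        rw [mul_pow, mul_pow, this]
        linarith
      · simp only [ht, if_false] at ih ⊢
        linarith

end Pool.Agent.Lib.MP_79af62_gt
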