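import Pool.Agent.Lib.MP_79af62_gt.Proc

set_option autoImplicit false

namespace Pool.Agent.Lib.MP_79af62_gt

open Finset

variable {E τ : Type} [AddCommGroup E] [Module ℝ E]

theorem Data.st_x (D : Data E τ) (e : ℝ) (b : Bool) (h : List Bool) :
    (D.st e (b :: h)).x = (D.st e h).x + sg b • D.del e (D.st e h) := by
  simp only [Data.st]; exact D.next_x e _ b

theorem Data.M_step (D : Data E τ) (e : ℝ) (u : E →ₗ[ℝ] ℝ) (b : Bool) (h : List Bool) :
    u ((D.st e (b :: h)).x - D.x0) =
      u ((D.st e h).x - D.x0) + sg b * u (D.del e (D.st e h)) := by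
  rw [D.st_x]; simp only [map_sub, map_add, map_smul, smul_eq_mul]; ring

theorem Data.V_step (D : Data E τ) (e : ℝ) (u : E →ₗ[ℝ] ℝ) (b : Bool) (h : List Bool) :
    D.V e u (b :: h) = D.V e u h + (u (D.del e (D.st e h))) ^ 2 := rfl

variable [DecidableEq τ] [Fintype τ]

theorem Data.A_le_hub (D : Data E τ) (e : ℝ) (he : 0 ≤ e) (t : τ) (hs0 : 0 < D.s t)
    (hs : e * ∑ k, √(D.a k) * |D.v t (D.μ k)| ≤ D.s t) :
    ∀ h, D.A e t h / (4 * D.s t) ≤ hub (D.s t) (D.v t (D.st e h).x - D.m t) -
      hub (D.s t) (D.v t D.x0 - D.m t) - D.N e t h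
  | [] => by simp [Data.st, Data.A, Data.N, Data.acc, Data.macc]
  | b :: h => by
    have ih := D.A_le_hub e he t hs0 hs h
    have hn := D.near e he t hs h
    rw [D.st_x]
    simp only [Data.A, Data.N, Data.acc, Data.macc] at ih ⊢
    set y := D.v t (D.st e h).x - D.m t with hy
    set d := D.v t (D.del e (D.st e h)) with hd
    have e1 : D.v t ((D.st e h).x + sg b • D.del e (D.st e h)) - D.m t = y + sg b * d := by
      simp only [map_add, map_smul, smul_eq_mul, hy, hd]; ring
    rw [e1]
    have e2 : hub (D.s t) (y + sg b * d) - sg b * ((hub (D.s t) (y + d) - hub (D.s t) (y - d)) / 2)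
        = (hub (D.s t) (y + d) + hub (D.s t) (y - d)) / 2 := by
      cases b
      · simp only [sg_false]
        have : y + -1 * d = y - d := by ring
        rw [this]; ring
      · simp only [sg_true, one_mul]; ring
    have e3 : hub (D.s t) y + (if t ∈ (D.st e h).O then d ^ 2 else 0) / (4 * D.s t) ≤
        (hub (D.s t) (y + d) + hub (D.s t) (y - d)) / 2 := by
      split_ifs with ht
      · apply hub_gain hs0
        have h1 := hn ht
        have h2 : |d| ≤ e * ((D.st e h).q.map (fun k => √(D.a k) * |D.v t (D.μ k)|)).sum := by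
          rw [hd]
          unfold Data.del
          rcases hq : (D.st e h).q with _ | ⟨k, r⟩
          · simp
          · simp only [List.map_cons, List.sum_cons, map_smul, smul_eq_mul]
            rw [abs_mul, abs_mul, abs_of_nonneg he, abs_of_nonneg (Real.sqrt_nonneg _)]
            have : 0 ≤ (r.map (fun k => √(D.a k) * |D.v t (D.μ k)|)).sum := by
              apply List.sum_nonneg
              intro x hx
              obtain ⟨k, _, rfl⟩ := List.mem_map.1 hx
              positivity
            nlinarith [mul_nonneg he this]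
        linarith
      · simpa using hub_conv hs0 y d
    rw [add_div]
    linarith

omit [Fintype τ] in
theorem Data.stop_spec (D : Data E τ) (e : ℝ) (t : τ) (r : ℝ)
    (hr : D.s t + r ≤ |D.v t D.x0 - D.m t|) :
    ∀ h, |D.stop e (D.v t) r h| < r → D.stop e (D.v t) r h = D.v t ((D.st e h).x - D.x0) ∧
      D.A e t h = 0 ∧ t ∉ (D.st e h).O
  | [] => by simp [Data.st, Data.A, Data.acc, Data.stop]
  | b :: h => by
    intro hlt
    have ih := D.stop_spec e t r hr h
    by_cases hc : r ≤ |D.stop e (D.v t) r h|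
    · exfalso
      simp only [Data.stop, hc, if_true, mul_zero, add_zero] at hlt
      linarith
    · obtain ⟨h1, h2, h3⟩ := ih (not_le.1 hc)
      refine ⟨?_, ?_, ?_⟩
      · rw [D.M_step, ← h1]
        simp only [Data.stop, hc, if_false]
      · simp only [Data.A, Data.acc] at h2 ⊢
        simp [h2, h3]
      · simp only [Data.st, Data.next]
        rcases hq : (D.st e h).q with _ | ⟨k, q⟩
        · intro ht
          have h4 := (D.core_spec _ ht).1
          rw [h1] at hc
          have : D.v t D.x0 - D.m t =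
              (D.v t (D.st e h).x - D.m t) - D.v t ((D.st e h).x - D.x0) := by
            simp only [map_sub]; ring
          have h5 := abs_sub (D.v t (D.st e h).x - D.m t) (D.v t ((D.st e h).x - D.x0))
          rw [← this] at h5
          linarith [not_le.1 hc]
        · exact h3

/-- terminal states -/
def Data.Term (D : Data E τ) (S : St E τ) : Prop := S.q = [] ∧ D.core S.x = ∅

theorem Data.len_le (D : Data E τ) (e : ℝ) :
    ∀ h : List Bool, ¬ D.Term (D.st e h) → (h.length : ℝ) + (D.st e h).q.length ≤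
      (Fintype.card τ + 1) * ∑ t, D.cnt e t h
  | [] => by simp [Data.st, Data.cnt, Data.acc]
  | b :: h => by
    intro hT
    have ih := D.len_le e h
    have hT' : ¬ D.Term (D.st e h) := by
      rintro ⟨h1, h2⟩
      apply hT
      simp only [Data.st, Data.next, h1, Data.Term, h2]
      simp
    have h0 := ih hT'
    simp only [Data.cnt, Data.acc] at h0 ⊢
    simp only [Data.st, Data.next]
    rcases hq : (D.st e h).q with _ | ⟨k, q⟩
    · have hne : D.core (D.st e h).x ≠ ∅ := fun h2 => hT' ⟨hq, h2⟩
      have h1 : (1 : ℝ) ≤ (D.core (D.st e h).x).card := by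
        exact_mod_cast Finset.card_pos.2 (Finset.nonempty_iff_ne_empty.2 hne)
      have h2 : ((D.core (D.st e h).x).card : ℝ) ≤ Fintype.card τ := by
        exact_mod_cast Finset.card_le_univ _
      rw [hq] at h0
      simp only [Finset.length_toList, Finset.sum_add_distrib, true_and, Finset.sum_ite_mem,
        Finset.univ_inter, Finset.sum_const, nsmul_eq_mul, mul_one, List.length_cons,
        List.length_nil] at h0 ⊢
      push_cast at h0 ⊢
      nlinarith
    · rw [hq] at h0
      simp only [reduceCtorEq, false_and, if_false, add_zero, List.length_cons] at h0 ⊢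
      push_cast at h0 ⊢
      linarith

theorem jensen_pow {ι : Type*} [Fintype ι] (b W : ι → ℝ) (hb : ∀ i, 0 ≤ b i) (hW : ∀ i, 0 ≤ W i)
    (p : ℕ) : (∑ i, b i * W i) ^ (p + 1) ≤ (∑ i, b i) ^ p * ∑ i, b i * W i ^ (p + 1) := by
  by_cases hS : ∑ i, b i = 0
  · have h0 : ∀ i, b i = 0 := fun i =>
      (Finset.sum_eq_zero_iff_of_nonneg (fun i _ => hb i)).1 hS i (Finset.mem_univ i)
    simp [h0]
  · have hS0 : 0 < ∑ i, b i := lt_of_le_of_ne (Finset.sum_nonneg (fun i _ => hb i)) (Ne.symm hS)
    set S := ∑ i, b i with hSd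
    have := Real.pow_arith_mean_le_arith_mean_pow Finset.univ (fun i => b i / S) W
      (fun i _ => div_nonneg (hb i) hS0.le) (by rw [← Finset.sum_div, div_self hS])
      (fun i _ => hW i) (p + 1)
    have e1 : ∑ i, b i * W i = S * ∑ i, b i / S * W i := by
      rw [Finset.mul_sum]; apply Finset.sum_congr rfl; intro i _; field_simp
    have e2 : ∑ i, b i * W i ^ (p + 1) = S * ∑ i, b i / S * W i ^ (p + 1) := by
      rw [Finset.mul_sum]; apply Finset.sum_congr rfl; intro i _; field_simp
    rw [e1, e2, mul_pow]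
    calc _ ≤ S ^ (p + 1) * ∑ i, b i / S * W i ^ (p + 1) :=
          mul_le_mul_of_nonneg_left this (by positivity)
      _ = _ := by ring

theorem exists_eps {ι : Type*} [Fintype ι] (α β : ι → ℝ) (hβ : ∀ i, 0 < β i) :
    ∃ e : ℝ, 0 < e ∧ e ≤ 1 ∧ ∀ i, e * α i ≤ β i := by
  classical
  have : ∀ s : Finset ι, ∃ e : ℝ, 0 < e ∧ e ≤ 1 ∧ ∀ i ∈ s, ∀ e', 0 < e' → e' ≤ e → e' * α i ≤ β i := by
    intro s
    induction s using Finset.induction_on with
    | empty => exact ⟨1, one_pos, le_rfl, by simp⟩
    | insert a s _ ih =>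
      obtain ⟨e, he0, he1, he⟩ := ih
      have hb := hβ a
      refine ⟨min e (β a / (|α a| + 1)), lt_min he0 (by positivity), (min_le_left _ _).trans he1, ?_⟩
      intro i hi e' h0 h1
      rcases Finset.mem_insert.1 hi with rfl | hi
      · have h2 : e' ≤ β i / (|α i| + 1) := h1.trans (min_le_right _ _)
        rw [le_div_iff₀ (by positivity)] at h2
        nlinarith [le_abs_self (α i)]
      · exact he i hi e' h0 (h1.trans (min_le_left _ _))
  obtain ⟨e, he0, he1, he⟩ := this Finset.univ
  exact ⟨e, he0, he1, fun i => he i (Finset.mem_univ i) e he0 le_rfl⟩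

end Pool.Agent.Lib.MP_79af62_gt
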