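import Mathlib

set_option autoImplicit false

namespace Pool.Agent.Lib.MP_79af62_gt

open Finset Matrix

variable {ι I : Type} [Fintype ι] [DecidableEq ι]

omit [DecidableEq ι] in
theorem dot_self_nonneg (x : ι → ℝ) : 0 ≤ x ⬝ᵥ x :=
  Finset.sum_nonneg (fun _ _ => mul_self_nonneg _)

omit [DecidableEq ι] in
theorem dot_sq_le (x y : ι → ℝ) : (x ⬝ᵥ y) ^ 2 ≤ (x ⬝ᵥ x) * (y ⬝ᵥ y) := by
  have := Finset.sum_mul_sq_le_sq_mul_sq Finset.univ x y
  simpa [dotProduct, sq] using this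

theorem resolvent (S : Finset I) (a : I → ℝ) (ha : ∀ i, 0 ≤ a i) (n : I → ι → ℝ) (c : ℝ)
    (hc : 0 < c) : ∃ B : Matrix ι ι ℝ, (∀ y, (y ᵥ* B) ⬝ᵥ (y ᵥ* B) ≤ y ⬝ᵥ y) ∧
      (∀ y, ∑ i ∈ S, a i * (y ⬝ᵥ (n i ᵥ* B)) ^ 2 ≤ c * (y ⬝ᵥ y)) ∧
      ∀ v, ∑ k ∈ S, a k * (v ⬝ᵥ n k) ^ 2 ≤ c * (v ⬝ᵥ v) → v ⬝ᵥ v / 4 ≤ (v ᵥ* B) ⬝ᵥ (v ᵥ* B) := by
  set M : Matrix ι ι ℝ := 1 + c⁻¹ • ∑ k ∈ S, a k • vecMulVec (n k) (n k) with hM
  have hMv : ∀ z x, z ⬝ᵥ (M *ᵥ x) = z ⬝ᵥ x + c⁻¹ * ∑ k ∈ S, a k * ((z ⬝ᵥ n k) * (x ⬝ᵥ n k)) := by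
    intro z x
    simp only [hM, add_mulVec, one_mulVec, smul_mulVec, Matrix.sum_mulVec, dotProduct_add,
      dotProduct_smul, dotProduct_sum, vecMulVec_mulVec, smul_eq_mul, op_smul_eq_smul]
    congr 2
    apply Finset.sum_congr rfl
    intro k _
    rw [dotProduct_comm (n k) x]
    ring
  have hG : ∀ x, 0 ≤ ∑ k ∈ S, a k * ((x ⬝ᵥ n k) * (x ⬝ᵥ n k)) :=
    fun x => Finset.sum_nonneg (fun k _ => mul_nonneg (ha k) (mul_self_nonneg _))
  have hci : 0 < c⁻¹ := inv_pos.2 hc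
  have hpos : ∀ x, x ⬝ᵥ x ≤ x ⬝ᵥ (M *ᵥ x) := fun x => by
    rw [hMv]; nlinarith [hG x]
  have hinj : Function.Injective M.mulVec := by
    intro x y hxy
    have h1 : M *ᵥ (x - y) = 0 := by rw [mulVec_sub, hxy, sub_self]
    have h2 := hpos (x - y)
    rw [h1, dotProduct_zero] at h2
    have h3 : (x - y) ⬝ᵥ (x - y) = 0 := le_antisymm h2 (dot_self_nonneg _)
    exact sub_eq_zero.1 (dotProduct_self_eq_zero.1 h3)
  have hU : IsUnit M.det := (isUnit_iff_isUnit_det M).1 (mulVec_injective_iff_isUnit.1 hinj)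
  have hMT : Mᵀ = M := by
    simp only [hM, transpose_add, transpose_one, transpose_smul, transpose_sum,
      transpose_vecMulVec]
  have hBT : (M⁻¹)ᵀ = M⁻¹ := by rw [transpose_nonsing_inv, hMT]
  have hg : ∀ y, M *ᵥ (M⁻¹ *ᵥ y) = y := fun y => by
    rw [mulVec_mulVec, mul_nonsing_inv M hU, one_mulVec]
  have hv : ∀ y, y ᵥ* M⁻¹ = M⁻¹ *ᵥ y := fun y => by
    rw [← mulVec_transpose, hBT]
  have key : ∀ y, (M⁻¹ *ᵥ y) ⬝ᵥ (M⁻¹ *ᵥ y) + 2 * (c⁻¹ * ∑ k ∈ S, a k *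
      (((M⁻¹ *ᵥ y) ⬝ᵥ n k) * ((M⁻¹ *ᵥ y) ⬝ᵥ n k))) ≤ y ⬝ᵥ y := by
    intro y
    set x := M⁻¹ *ᵥ y with hx
    have h1 := hMv x x
    rw [hx, hg, ← hx] at h1
    have h2 := dot_self_nonneg (y - x)
    simp only [sub_dotProduct, dotProduct_sub] at h2
    rw [dotProduct_comm y x] at h2
    linarith
  refine ⟨M⁻¹, fun y => ?_, fun y => ?_, fun v hv' => ?_⟩
  · rw [hv]; nlinarith [key y, hG (M⁻¹ *ᵥ y)]
  · have h1 : ∀ i, y ⬝ᵥ (n i ᵥ* M⁻¹) = (M⁻¹ *ᵥ y) ⬝ᵥ n i := by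
      intro i
      rw [dotProduct_comm, ← dotProduct_mulVec, dotProduct_comm]
    simp only [h1, sq]
    have h2 := key y
    have h3 := dot_self_nonneg (M⁻¹ *ᵥ y)
    have h4 := hG (M⁻¹ *ᵥ y)
    set G := ∑ k ∈ S, a k * (((M⁻¹ *ᵥ y) ⬝ᵥ n k) * ((M⁻¹ *ᵥ y) ⬝ᵥ n k))
    have h5 : c⁻¹ * G ≤ y ⬝ᵥ y := by nlinarith
    rwa [inv_mul_le_iff₀ hc] at h5
  · rw [hv]
    set x := M⁻¹ *ᵥ v with hx
    have hMx : M *ᵥ x = v := hg v
    have h1 := (dot_self_nonneg _).trans (hpos (x - (1 / 2 : ℝ) • v))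
    simp only [mulVec_sub, mulVec_smul, sub_dotProduct, dotProduct_sub, smul_dotProduct,
      dotProduct_smul, smul_eq_mul, hMx] at h1
    have h2 : x ⬝ᵥ (M *ᵥ v) = v ⬝ᵥ v := by
      rw [dotProduct_mulVec, ← mulVec_transpose, hMT, hMx]
    have h3 : v ⬝ᵥ (M *ᵥ v) ≤ 2 * (v ⬝ᵥ v) := by
      rw [hMv]
      simp only [sq] at hv'
      have : c⁻¹ * ∑ k ∈ S, a k * ((v ⬝ᵥ n k) * (v ⬝ᵥ n k)) ≤ v ⬝ᵥ v := by
        rwa [inv_mul_le_iff₀ hc]
      linarith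
    have h4 := dot_self_nonneg (x - (1 / 2 : ℝ) • v)
    simp only [sub_dotProduct, dotProduct_sub, smul_dotProduct,
      dotProduct_smul, smul_eq_mul] at h4
    rw [dotProduct_comm v x] at h4
    linarith

/-- every nonempty subset has an element of small load -/
def Hered (S : Finset I) (a : I → ℝ) (n : I → ι → ℝ) (c : ℝ) : Prop :=
  ∀ O ⊆ S, O.Nonempty → ∃ i ∈ O, ∑ k ∈ O, a k * (n i ⬝ᵥ n k) ^ 2 ≤ c

omit [DecidableEq ι] in
theorem hered_sum [DecidableEq I] (a : I → ℝ) (ha : ∀ i, 0 ≤ a i) (n : I → ι → ℝ) (c : ℝ) :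
    ∀ (N : ℕ) (S : Finset I), S.card = N → Hered S a n c →
      ∑ i ∈ S, a i * ∑ k ∈ S, a k * (n i ⬝ᵥ n k) ^ 2 ≤ 2 * c * ∑ i ∈ S, a i := by
  intro N
  induction N with
  | zero => intro S hS _; rw [Finset.card_eq_zero.1 hS]; simp
  | succ N ih =>
    intro S hS hH
    obtain ⟨i, hi, hl⟩ := hH S subset_rfl (Finset.card_pos.1 (by omega))
    have h1 := ih (S.erase i) (by rw [Finset.card_erase_of_mem hi]; omega)
      (fun O hO => hH O (hO.trans (Finset.erase_subset _ _)))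
    have e1 : ∀ f : I → ℝ, ∑ k ∈ S, f k = f i + ∑ k ∈ S.erase i, f k :=
      fun f => (Finset.add_sum_erase S f hi).symm
    rw [e1 (fun j => a j * ∑ k ∈ S, a k * (n j ⬝ᵥ n k) ^ 2), e1 a]
    have e2 : ∑ j ∈ S.erase i, a j * ∑ k ∈ S, a k * (n j ⬝ᵥ n k) ^ 2 =
        a i * ∑ j ∈ S.erase i, a j * (n i ⬝ᵥ n j) ^ 2 +
          ∑ j ∈ S.erase i, a j * ∑ k ∈ S.erase i, a k * (n j ⬝ᵥ n k) ^ 2 := by
      rw [Finset.mul_sum, ← Finset.sum_add_distrib]
      apply Finset.sum_congr rfl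
      intro j _
      rw [e1, dotProduct_comm (n j) (n i)]
      ring
    have e3 : ∑ j ∈ S.erase i, a j * (n i ⬝ᵥ n j) ^ 2 ≤ c := by
      rw [e1] at hl
      nlinarith [mul_nonneg (ha i) (sq_nonneg (n i ⬝ᵥ n i))]
    rw [e2]
    nlinarith [mul_le_mul_of_nonneg_left hl (ha i), mul_le_mul_of_nonneg_left e3 (ha i)]

theorem refine [DecidableEq I] (a : I → ℝ) (ha : ∀ i, 0 ≤ a i) (n : I → ι → ℝ) (c c0 β : ℝ)
    (hc : 0 < c) (hc0 : 0 ≤ c0) (hβ : 0 < β) :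
    ∀ (R : ℕ) (S : Finset I), Hered S a n c → ∑ i ∈ S, a i ≤ 2 ^ R * c0 →
      (∀ i ∈ S, β ≤ n i ⬝ᵥ n i ∧ n i ⬝ᵥ n i ≤ 1) →
      ∃ (lab : I → ℕ) (B : ℕ → Matrix ι ι ℝ), (∀ i, lab i ≤ R) ∧
        (∀ r y, (y ᵥ* B r) ⬝ᵥ (y ᵥ* B r) ≤ y ⬝ᵥ y) ∧
        (∀ i ∈ S, n i ⬝ᵥ n i / 4 ≤ (n i ᵥ* B (lab i)) ⬝ᵥ (n i ᵥ* B (lab i))) ∧
        ∀ r y, ∑ i ∈ S with lab i = r, a i * (y ⬝ᵥ (n i ᵥ* B r)) ^ 2 ≤
          (4 * c / β + c0) * (y ⬝ᵥ y) := by
  intro R
  induction R with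
  | zero =>
    intro S _ hS hn
    refine ⟨fun _ => 0, fun _ => 1, fun _ => le_rfl, fun _ y => by simp, fun i _ => ?_,
      fun r y => ?_⟩
    · simp only [vecMul_one]; linarith [dot_self_nonneg (n i)]
    · simp only [vecMul_one]
      have hy := dot_self_nonneg y
      calc _ ≤ ∑ i ∈ S, a i * (y ⬝ᵥ n i) ^ 2 :=
            Finset.sum_le_sum_of_subset_of_nonneg (Finset.filter_subset _ _)
              (fun i _ _ => mul_nonneg (ha i) (sq_nonneg _))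
        _ ≤ ∑ i ∈ S, a i * (y ⬝ᵥ y) := by
            apply Finset.sum_le_sum
            intro i hi
            apply mul_le_mul_of_nonneg_left _ (ha i)
            nlinarith [dot_sq_le y (n i), (hn i hi).2]
        _ = (∑ i ∈ S, a i) * (y ⬝ᵥ y) := by rw [Finset.sum_mul]
        _ ≤ _ := by
            apply mul_le_mul_of_nonneg_right _ hy
            have : 0 ≤ 4 * c / β := by positivity
            simp only [pow_zero, one_mul] at hS
            linarith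
  | succ R ih =>
    intro S hH hS hn
    set J := S.filter (fun i => ∑ k ∈ S, a k * (n i ⬝ᵥ n k) ^ 2 ≤ 4 * c) with hJ
    set S' := S.filter (fun i => ¬ ∑ k ∈ S, a k * (n i ⬝ᵥ n k) ^ 2 ≤ 4 * c) with hS'
    have hsub : S' ⊆ S := Finset.filter_subset _ _
    have h1 : ∑ i ∈ S', a i ≤ 2 ^ R * c0 := by
      have h2 := hered_sum a ha n c _ S rfl hH
      have h3 : ∑ i ∈ S', a i * (4 * c) ≤ ∑ i ∈ S', a i * ∑ k ∈ S, a k * (n i ⬝ᵥ n k) ^ 2 :=
        Finset.sum_le_sum (fun i hi => mul_le_mul_of_nonneg_left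
          (le_of_lt (not_le.1 (Finset.mem_filter.1 hi).2)) (ha i))
      have h4 : ∑ i ∈ S', a i * ∑ k ∈ S, a k * (n i ⬝ᵥ n k) ^ 2 ≤
          ∑ i ∈ S, a i * ∑ k ∈ S, a k * (n i ⬝ᵥ n k) ^ 2 :=
        Finset.sum_le_sum_of_subset_of_nonneg hsub (fun i _ _ => mul_nonneg (ha i)
          (Finset.sum_nonneg (fun k _ => mul_nonneg (ha k) (sq_nonneg _))))
      rw [← Finset.sum_mul] at h3
      rw [pow_succ] at hS
      have h5 : (∑ i ∈ S', a i) * (4 * c) ≤ (2 ^ R * c0) * (4 * c) := by nlinarith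
      exact le_of_mul_le_mul_right h5 (by positivity)
    obtain ⟨lab, B, l1, l2, l3, l4⟩ := ih S' (fun O hO => hH O (hO.trans hsub)) h1
      (fun i hi => hn i (hsub hi))
    obtain ⟨BJ, b1, b2, b3⟩ := resolvent J a ha n (4 * c / β) (by positivity)
    refine ⟨fun i => if i ∈ J then R + 1 else lab i, fun r => if r = R + 1 then BJ else B r,
      fun i => ?_, fun r y => ?_, fun i hi => ?_, fun r y => ?_⟩
    · dsimp only
      split_ifs
      · exact le_rfl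
      · exact (l1 i).trans (Nat.le_succ R)
    · dsimp only
      split_ifs
      · exact b1 y
      · exact l2 r y
    · by_cases hiJ : i ∈ J
      · simp only [hiJ, if_true]
        apply b3
        have h2 : ∑ k ∈ J, a k * (n i ⬝ᵥ n k) ^ 2 ≤ ∑ k ∈ S, a k * (n i ⬝ᵥ n k) ^ 2 :=
          Finset.sum_le_sum_of_subset_of_nonneg (Finset.filter_subset _ _)
            (fun i _ _ => mul_nonneg (ha i) (sq_nonneg _))
        have h3 := (Finset.mem_filter.1 hiJ).2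
        have h4 : 4 * c ≤ 4 * c / β * (n i ⬝ᵥ n i) := by
          rw [div_mul_eq_mul_div, le_div_iff₀ hβ]
          exact mul_le_mul_of_nonneg_left (hn i hi).1 (by positivity)
        linarith
      · have h2 : lab i ≠ R + 1 := by have := l1 i; omega
        simp only [hiJ, if_false, h2]
        apply l3
        simp only [hJ, Finset.mem_filter, hi, true_and] at hiJ
        exact Finset.mem_filter.2 ⟨hi, hiJ⟩
    · have hy := dot_self_nonneg y
      by_cases hr : r = R + 1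
      · subst hr
        simp only [if_true]
        have : S.filter (fun i => (if i ∈ J then R + 1 else lab i) = R + 1) = J := by
          ext i
          simp only [Finset.mem_filter]
          constructor
          · rintro ⟨_, h3⟩
            by_contra h4
            rw [if_neg h4] at h3
            have := l1 i; omega
          · intro h3
            exact ⟨(Finset.mem_filter.1 h3).1, by rw [if_pos h3]⟩
        rw [this]
        nlinarith [b2 y]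
      · simp only [hr, if_false]
        have : S.filter (fun i => (if i ∈ J then R + 1 else lab i) = r) =
            S'.filter (fun i => lab i = r) := by
          ext i
          simp only [hS', hJ, Finset.mem_filter]
          constructor
          · rintro ⟨h2, h3⟩
            split_ifs at h3 with h4
            · exact absurd h3.symm hr
            · exact ⟨⟨h2, fun h5 => h4 ⟨h2, h5⟩⟩, h3⟩
          · rintro ⟨⟨h2, h3⟩, h4⟩
            refine ⟨h2, ?_⟩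
            rw [if_neg (fun h5 => h3 h5.2), h4]
        rw [this]
        exact l4 r y

end Pool.Agent.Lib.MP_79af62_gt
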