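import Pool.Agent.Lib.MP_79af62_gt.Stage
import Pool.Agent.Lib.MP_79af62_gt.Refine

set_option autoImplicit false

namespace Pool.Agent.Lib.MP_79af62_gt

open Finset Matrix

/-- the conclusion of the stage lemma for given constants -/
def StageProp (p : ℕ) (C : ℝ) : Prop :=
  ∀ (E τ J : Type) [AddCommGroup E] [Module ℝ E]
    [DecidableEq τ] [Fintype τ] [Fintype J] (D : Data E τ) (σ K δ : ℝ)
    (φ : J → E →ₗ[ℝ] ℝ) (w κ : J → ℝ), (∀ t, 0 < D.s t) → (∀ t, 0 ≤ D.a t) → 0 < D.c →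
    0 < σ → 0 < K → 0 < δ → (∀ j, 0 ≤ w j) → (∀ j, 0 < κ j) →
    (∀ t, C * D.load σ (D.v t) ≤ D.c) → (∀ j, C * (σ ^ 2 * D.load σ (φ j)) ≤ D.c * κ j ^ 2) →
    ∃ x, (∀ O, ¬ D.IsCore x O) ∧ ∑ j, w j * max 0 (|φ j (x - D.x0)| - K * κ j) ≤
      C * (∑ j, w j * κ j) / K ^ (2 * p + 1) + δ

theorem stage_prop (p : ℕ) : ∃ C : ℝ, 1 ≤ C ∧ StageProp p C := stage p

variable {ι I J : Type} [Fintype ι]

/-- the dot product with a fixed vector as a linear functional -/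
def dl (v : ι → ℝ) : (ι → ℝ) →ₗ[ℝ] ℝ where
  toFun y := v ⬝ᵥ y
  map_add' := dotProduct_add v
  map_smul' c y := dotProduct_smul c v y

@[simp] theorem dl_apply (v y : ι → ℝ) : dl v y = v ⬝ᵥ y := rfl

variable [Fintype I]

/-- the invariant after a stage -/
def Inv (v : I → ι → ℝ) (h m : I → ℝ) (act : Finset I) (Pc : Finset ι) (N : ℕ) (β c σ : ℝ)
    (x : ι → ℝ) : Prop :=
  ∃ (cls : I → ℕ) (A : ℕ → Matrix ι ι ℝ), (∀ i, cls i < N) ∧
    (∀ γ y, (y ᵥ* A γ) ⬝ᵥ (y ᵥ* A γ) ≤ ∑ k ∈ Pc, y k ^ 2) ∧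
    (∀ i ∈ act, β ≤ (v i ᵥ* A (cls i)) ⬝ᵥ (v i ᵥ* A (cls i))) ∧
    ∀ γ y, ∑ i ∈ act with cls i = γ, h i / max σ |v i ⬝ᵥ x - m i| * (y ⬝ᵥ (v i ᵥ* A γ)) ^ 2 ≤
      c * (y ⬝ᵥ y)

/-- the input of a stage -/
def Ext (v : I → ι → ℝ) (h m : I → ℝ) (act : Finset I) (Pc : Finset ι) (N : ℕ) (β σ : ℝ)
    (x : ι → ℝ) (ρ : ι → ℝ) : Prop :=
  ∃ (cls : I → ℕ) (A : ℕ → Matrix ι ι ℝ), (∀ i, cls i < N) ∧
    (∀ γ y, (y ᵥ* A γ) ⬝ᵥ (y ᵥ* A γ) ≤ ∑ k ∈ Pc, y k ^ 2) ∧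
    (∀ i ∈ act, β ≤ (v i ᵥ* A (cls i)) ⬝ᵥ (v i ᵥ* A (cls i))) ∧
    ∀ u, ∑ i ∈ act, h i / max σ |v i ⬝ᵥ x - m i| *
      ((u ᵥ* A (cls i)) ⬝ᵥ (v i ᵥ* A (cls i))) ^ 2 ≤ ∑ k, ρ k * u k ^ 2

omit [Fintype I] in
theorem Inv.mono {v : I → ι → ℝ} {h m : I → ℝ} {act : Finset I} {Pc : Finset ι} {N N' : ℕ}
    {β c c' σ : ℝ} {x : ι → ℝ} (H : Inv v h m act Pc N β c σ x) (hN : N ≤ N') (hc : c ≤ c') :
    Inv v h m act Pc N' β c' σ x := by
  obtain ⟨cls, A, h1, h2, h3, h4⟩ := H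
  exact ⟨cls, A, fun i => (h1 i).trans_le hN, h2, h3, fun γ y =>
    (h4 γ y).trans (mul_le_mul_of_nonneg_right hc (dot_self_nonneg y))⟩

theorem sum_sq_le (P : Finset ι) (y : ι → ℝ) : ∑ k ∈ P, y k ^ 2 ≤ y ⬝ᵥ y := by
  simp only [dotProduct, ← sq]
  exact Finset.sum_le_sum_of_subset_of_nonneg (Finset.subset_univ _) (fun _ _ _ => sq_nonneg _)

theorem extend [DecidableEq ι] [DecidableEq I] {v : I → ι → ℝ} {h m : I → ℝ}
    {act act' : Finset I} {Pc Pn Pc' : Finset ι} {N : ℕ} {β c σ ω : ℝ} {x lam : ι → ℝ}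
    (H : Inv v h m act Pc N β c σ x) (hh : ∀ i, 0 < h i) (hσ : 0 < σ) (hc : 0 ≤ c)
    (hfr : ∀ y, ∑ i, h i * (y ⬝ᵥ v i) ^ 2 ≤ ω * ∑ k, lam k * y k ^ 2)
    (h1 : Pc ⊆ Pc') (h2 : Pn ⊆ Pc')
    (hnew : ∀ i ∈ act', i ∉ act → β ≤ ∑ k ∈ Pn, v i k ^ 2) :
    Ext v h m act' Pc' (N + 1) β σ x
      (fun k => (if k ∈ Pc then N * c else 0) + (if k ∈ Pn then ω * lam k / σ else 0)) := by
  obtain ⟨cls, A, a1, a2, a3, a4⟩ := H
  set P : Matrix ι ι ℝ := diagonal (fun k => if k ∈ Pn then 1 else 0) with hP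
  have hPy : ∀ y : ι → ℝ, y ᵥ* P = fun k => if k ∈ Pn then y k else 0 := by
    intro y; funext k; simp [hP, vecMul_diagonal]
  have hPP : ∀ y z : ι → ℝ, (y ᵥ* P) ⬝ᵥ (z ᵥ* P) = ∑ k ∈ Pn, y k * z k := by
    intro y z
    simp only [hPy, dotProduct, mul_ite, ite_mul, zero_mul, mul_zero]
    rw [← Finset.sum_filter, ← Finset.sum_filter]
    congr 1
    ext k; simp
  have hker : ∀ i, 0 ≤ h i / max σ |v i ⬝ᵥ x - m i| :=
    fun i => div_nonneg (hh i).le (hσ.le.trans (le_max_left _ _))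
  refine ⟨fun i => if i ∈ act then cls i else N, fun γ => if γ = N then P else A γ, fun i => ?_,
    fun γ y => ?_, fun i hi => ?_, fun u => ?_⟩
  · dsimp only
    split_ifs
    · exact (a1 i).trans (Nat.lt_succ_self N)
    · exact Nat.lt_succ_self N
  · dsimp only
    split_ifs
    · rw [hPP]
      simp only [← sq]
      exact Finset.sum_le_sum_of_subset_of_nonneg h2 (fun _ _ _ => sq_nonneg _)
    · exact (a2 γ y).trans (Finset.sum_le_sum_of_subset_of_nonneg h1 (fun _ _ _ => sq_nonneg _))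
  · by_cases hia : i ∈ act
    · simp only [hia, if_true, (a1 i).ne, if_false]
      exact a3 i hia
    · simp only [hia, if_false, if_true]
      rw [hPP]
      simp only [← sq]
      exact hnew i hi hia
  · dsimp only
    have e1 : ∑ i ∈ act', h i / max σ |v i ⬝ᵥ x - m i| *
        ((u ᵥ* (if (if i ∈ act then cls i else N) = N then P else A (if i ∈ act then cls i else N)))
          ⬝ᵥ (v i ᵥ* (if (if i ∈ act then cls i else N) = N then P
            else A (if i ∈ act then cls i else N)))) ^ 2 ≤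
        ∑ i, ((if i ∈ act then h i / max σ |v i ⬝ᵥ x - m i| *
          ((u ᵥ* A (cls i)) ⬝ᵥ (v i ᵥ* A (cls i))) ^ 2 else 0) +
          σ⁻¹ * (h i * ((u ᵥ* P) ⬝ᵥ v i) ^ 2)) := by
      refine (Finset.sum_le_sum_of_subset_of_nonneg (Finset.subset_univ act')
        (fun i _ _ => mul_nonneg (hker i) (sq_nonneg _))).trans (Finset.sum_le_sum ?_)
      intro i _
      have hp : 0 ≤ σ⁻¹ * (h i * ((u ᵥ* P) ⬝ᵥ v i) ^ 2) :=
        mul_nonneg (inv_nonneg.2 hσ.le) (mul_nonneg (hh i).le (sq_nonneg _))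
      by_cases hia : i ∈ act
      · simp only [hia, if_true, (a1 i).ne, if_false]
        linarith
      · simp only [hia, if_false, if_true, zero_add]
        have e2 : (u ᵥ* P) ⬝ᵥ (v i ᵥ* P) = (u ᵥ* P) ⬝ᵥ v i := by
          rw [hPP, hPy]
          simp [dotProduct]
        rw [e2, ← mul_assoc, mul_comm σ⁻¹, ← div_eq_mul_inv]
        exact mul_le_mul_of_nonneg_right
          (div_le_div_of_nonneg_left (hh i).le hσ (le_max_left _ _)) (sq_nonneg _)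
    refine e1.trans ?_
    simp only [add_mul, Finset.sum_add_distrib]
    apply add_le_add
    · rw [Finset.sum_ite_mem, Finset.univ_inter,
        ← Finset.sum_fiberwise_of_maps_to (t := Finset.range N) (g := cls)
          (fun i _ => Finset.mem_range.2 (a1 i))]
      have e3 : ∀ γ ∈ Finset.range N, ∑ i ∈ act with cls i = γ, h i / max σ |v i ⬝ᵥ x - m i| *
          ((u ᵥ* A (cls i)) ⬝ᵥ (v i ᵥ* A (cls i))) ^ 2 ≤ c * ∑ k ∈ Pc, u k ^ 2 := by
        intro γ _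
        refine le_trans (le_of_eq ?_) ((a4 γ (u ᵥ* A γ)).trans
          (mul_le_mul_of_nonneg_left (a2 γ u) hc))
        apply Finset.sum_congr rfl
        intro i hi
        rw [(Finset.mem_filter.1 hi).2]
      refine (Finset.sum_le_sum e3).trans (le_of_eq ?_)
      simp only [Finset.sum_const, Finset.card_range, nsmul_eq_mul, ite_mul, zero_mul,
        Finset.sum_ite_mem, Finset.univ_inter]
      rw [← Finset.mul_sum]; ring
    · rw [← Finset.mul_sum]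
      refine (mul_le_mul_of_nonneg_left (hfr _) (inv_nonneg.2 hσ.le)).trans (le_of_eq ?_)
      rw [Finset.mul_sum, Finset.mul_sum, hPy]
      apply Finset.sum_congr rfl
      intro k _
      dsimp only
      split_ifs
      · field_simp
      · simp

theorem exists_level (σ D : ℝ) (hσ : 0 < σ) : ∀ L : ℕ, D ≤ σ * 2 ^ L →
    ∃ l ≤ L, D ≤ σ * 2 ^ l ∧ σ * 2 ^ l ≤ 2 * max σ D := by
  intro L
  induction L with
  | zero =>
    intro h
    refine ⟨0, le_rfl, h, ?_⟩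
    have := le_max_left σ D
    simp only [pow_zero, mul_one]; linarith
  | succ L ih =>
    intro h
    by_cases h1 : D ≤ σ * 2 ^ L
    · obtain ⟨l, l1, l2⟩ := ih h1
      exact ⟨l, l1.trans (Nat.le_succ L), l2⟩
    · refine ⟨L + 1, le_rfl, h, ?_⟩
      have := le_max_right σ D
      rw [pow_succ]; linarith [not_le.1 h1]

theorem soft [DecidableEq ι] [DecidableEq I] [Fintype J] {p : ℕ} {C : ℝ} (hC : 1 ≤ C)
    (hst : StageProp p C) {v : I → ι → ℝ} {h m : I → ℝ} {act : Finset I} {Pc : Finset ι} {N : ℕ}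
    {β σ σ' g c0 K δ : ℝ} {x ρ : ι → ℝ} (L : ℕ) (H : Ext v h m act Pc N β σ x ρ)
    (hv : ∀ i, v i ⬝ᵥ v i = 1) (hh : ∀ i, 0 < h i) (hσ : 0 < σ) (hσ' : 0 < σ') (hβ : 0 < β)
    (hg : 0 < g) (hc0 : 0 ≤ c0) (hK : 0 < K) (hδ : 0 < δ) (hρ : ∀ k, ρ k ≤ g)
    (hsum : ∑ i, h i ≤ 2 ^ L * c0 * σ') (φ : J → ι → ℝ) (w κ : J → ℝ) (hw : ∀ j, 0 ≤ w j)
    (hκ : ∀ j, 0 < κ j) (hcost : ∀ j, σ ^ 2 * ∑ k, ρ k * φ j k ^ 2 ≤ g * κ j ^ 2) :
    ∃ x', Inv v h m act Pc (N * (L + 1)) (β / 4) (8 * (C * (L + 1) * g) / β + 3 * c0) σ' x' ∧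
      ∑ j, w j * max 0 (|φ j ⬝ᵥ (x' - x)| - K * κ j) ≤
        C * (∑ j, w j * κ j) / K ^ (2 * p + 1) + δ := by
  obtain ⟨cls, A, a1, a2, a3, a4⟩ := H
  set c' : ℝ := C * (L + 1) * g with hc'
  have hc'0 : 0 < c' := by positivity
  let D : Data (ι → ℝ) (I × Fin (L + 1)) :=
    { v := fun t => dl (v t.1)
      m := fun t => m t.1
      s := fun t => σ' * 2 ^ (t.2 : ℕ)
      a := fun t => if t.1 ∈ act then h t.1 / (σ' * 2 ^ (t.2 : ℕ)) else 0
      μ := fun t => A (cls t.1) *ᵥ (v t.1 ᵥ* A (cls t.1))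
      c := c'
      x0 := x }
  have hload : ∀ u, D.load σ (dl u) ≤ (L + 1) * ∑ k, ρ k * u k ^ 2 := by
    intro u
    refine le_trans (le_of_eq ?_) (mul_le_mul_of_nonneg_left (a4 u) (by positivity))
    simp only [Data.load, Data.dist, D, dl_apply, Fintype.sum_prod_type, dotProduct_mulVec]
    have e0 : ∀ f : I → ℝ, ∑ i ∈ act, f i = ∑ i, if i ∈ act then f i else 0 := by
      intro f; simp
    rw [e0, Finset.mul_sum]
    apply Finset.sum_congr rfl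
    intro i _
    split_ifs
    · rw [Finset.sum_congr rfl (g := fun _ => h i / max σ |v i ⬝ᵥ x - m i| *
        ((u ᵥ* A (cls i)) ⬝ᵥ (v i ᵥ* A (cls i))) ^ 2)]
      · simp
      · intro l _
        field_simp
    · simp
  obtain ⟨x', hno, hcst⟩ := hst _ _ J D σ K δ (fun j => dl (φ j)) w κ
    (fun t => by simp only [D]; positivity)
    (fun t => by
      simp only [D]
      split_ifs
      · exact div_nonneg (hh _).le (by positivity)
      · exact le_rfl) hc'0 hσ hK hδ hw hκ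
    (fun t => by
      have h1 := hload (v t.1)
      have h2 : ∑ k, ρ k * v t.1 k ^ 2 ≤ g := by
        calc _ ≤ ∑ k, g * v t.1 k ^ 2 :=
              Finset.sum_le_sum (fun k _ => mul_le_mul_of_nonneg_right (hρ k) (sq_nonneg _))
          _ = g * (v t.1 ⬝ᵥ v t.1) := by simp only [dotProduct, Finset.mul_sum, sq]
          _ = g := by rw [hv, mul_one]
      have h3 := h1.trans (mul_le_mul_of_nonneg_left h2 (by positivity))
      calc _ ≤ C * ((L + 1) * g) := mul_le_mul_of_nonneg_left h3 (by linarith)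
        _ = c' := by rw [hc']; ring)
    (fun j => by
      have h1 := mul_le_mul_of_nonneg_left (hload (φ j)) (sq_nonneg σ)
      have h2 := mul_le_mul_of_nonneg_left (hcost j) (show (0 : ℝ) ≤ L + 1 by positivity)
      have h3 : σ ^ 2 * D.load σ (dl (φ j)) ≤ (L + 1) * (g * κ j ^ 2) := by linarith
      calc _ ≤ C * ((L + 1) * (g * κ j ^ 2)) := mul_le_mul_of_nonneg_left h3 (by linarith)
        _ = c' * κ j ^ 2 := by rw [hc']; ring)
  refine ⟨x', ?_, hcst⟩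
  have hlev : ∀ i, ∃ l : Fin (L + 1), |v i ⬝ᵥ x' - m i| ≤ σ' * 2 ^ L →
      |v i ⬝ᵥ x' - m i| ≤ σ' * 2 ^ (l : ℕ) ∧ σ' * 2 ^ (l : ℕ) ≤ 2 * max σ' |v i ⬝ᵥ x' - m i| := by
    intro i
    by_cases h1 : |v i ⬝ᵥ x' - m i| ≤ σ' * 2 ^ L
    · obtain ⟨l, l1, l2⟩ := exists_level σ' _ hσ' L h1
      exact ⟨⟨l, Nat.lt_succ_of_le l1⟩, fun _ => l2⟩
    · exact ⟨0, fun h2 => absurd h2 h1⟩
  choose lv hlv using hlev
  set b : I → ℝ := fun i => if |v i ⬝ᵥ x' - m i| ≤ σ' * 2 ^ L then h i / (σ' * 2 ^ (lv i : ℕ))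
    else 0 with hb
  have hb0 : ∀ i, 0 ≤ b i := by
    intro i
    simp only [hb]
    split_ifs
    · exact div_nonneg (hh _).le (by positivity)
    · exact le_rfl
  have hb1 : ∀ i, b i ≤ h i / σ' := by
    intro i
    simp only [hb]
    split_ifs
    · apply div_le_div_of_nonneg_left (hh _).le hσ'
      have : (1 : ℝ) ≤ 2 ^ (lv i : ℕ) := one_le_pow₀ (by norm_num)
      nlinarith
    · exact div_nonneg (hh _).le hσ'.le
  have hn1 : ∀ i γ, (v i ᵥ* A γ) ⬝ᵥ (v i ᵥ* A γ) ≤ 1 :=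
    fun i γ => (a2 γ _).trans ((sum_sq_le _ _).trans (hv i).le)
  have href := fun γ => refine b hb0 (fun i => v i ᵥ* A γ) c' c0 β hc'0 hc0 hβ L
    (act.filter (fun i => cls i = γ))
    (by
      intro O hO hne
      set O1 := O.filter (fun i => |v i ⬝ᵥ x' - m i| ≤ σ' * 2 ^ L) with hO1
      have e1 : ∀ i, ∑ k ∈ O, b k * ((v i ᵥ* A γ) ⬝ᵥ (v k ᵥ* A γ)) ^ 2 =
          ∑ k ∈ O1, h k / (σ' * 2 ^ (lv k : ℕ)) * ((v i ᵥ* A γ) ⬝ᵥ (v k ᵥ* A γ)) ^ 2 := by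
        intro i
        simp only [hO1, Finset.sum_filter, hb, ite_mul, zero_mul]
      rcases O1.eq_empty_or_nonempty with h1 | h1
      · obtain ⟨i, hi⟩ := hne
        refine ⟨i, hi, ?_⟩
        rw [e1, h1, Finset.sum_empty]; exact hc'0.le
      · have h2 := hno (O1.image (fun i => (i, lv i)))
        simp only [Data.IsCore, not_and, not_forall] at h2
        obtain ⟨t, ht, h3⟩ := h2 (h1.image _)
        obtain ⟨i, hi, rfl⟩ := Finset.mem_image.1 ht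
        have hi' := Finset.mem_filter.1 hi
        refine ⟨i, hi'.1, ?_⟩
        have h4 := not_le.1 (h3 (hlv i hi'.2).1)
        rw [Finset.sum_image (fun a _ b _ hab => (Prod.ext_iff.1 hab).1)] at h4
        rw [e1]
        refine le_trans (le_of_eq ?_) h4.le
        apply Finset.sum_congr rfl
        intro k hk
        have hk' := Finset.mem_filter.1 (hO (Finset.mem_filter.1 hk).1)
        simp only [D, dl_apply, dotProduct_mulVec, hk'.1, if_true, hk'.2])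
    (by
      calc _ ≤ ∑ i, b i :=
            Finset.sum_le_sum_of_subset_of_nonneg (Finset.subset_univ _) (fun i _ _ => hb0 i)
        _ ≤ ∑ i, h i / σ' := Finset.sum_le_sum (fun i _ => hb1 i)
        _ ≤ _ := by rw [← Finset.sum_div, div_le_iff₀ hσ']; exact hsum)
    (by
      intro i hi
      have hi' := Finset.mem_filter.1 hi
      exact ⟨hi'.2 ▸ a3 i hi'.1, hn1 i γ⟩)
  choose lab B l1 l2 l3 l4 using href
  have hdiv : ∀ i, (cls i * (L + 1) + lab (cls i) i) / (L + 1) = cls i := by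
    intro i
    rw [mul_comm, Nat.mul_add_div (Nat.succ_pos L), Nat.div_eq_of_lt (Nat.lt_succ_of_le (l1 _ i))]
    rfl
  have hmod : ∀ i, (cls i * (L + 1) + lab (cls i) i) % (L + 1) = lab (cls i) i := by
    intro i
    rw [mul_comm, Nat.mul_add_mod, Nat.mod_eq_of_lt (Nat.lt_succ_of_le (l1 _ i))]
  refine ⟨fun i => cls i * (L + 1) + lab (cls i) i,
    fun γ => A (γ / (L + 1)) * B (γ / (L + 1)) (γ % (L + 1)), fun i => ?_, fun γ y => ?_,
    fun i hi => ?_, fun γ y => ?_⟩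
  · have h1 := a1 i
    have h2 := l1 (cls i) i
    have h3 : (cls i + 1) * (L + 1) ≤ N * (L + 1) := Nat.mul_le_mul_right _ h1
    dsimp only
    nlinarith
  · dsimp only
    rw [← vecMul_vecMul]
    exact (l2 _ _ _).trans (a2 _ y)
  · dsimp only
    rw [hdiv, hmod, ← vecMul_vecMul]
    have h1 := l3 (cls i) i (Finset.mem_filter.2 ⟨hi, rfl⟩)
    have h2 := a3 i hi
    linarith
  · dsimp only
    set γ0 := γ / (L + 1)
    set r := γ % (L + 1)
    have hy := dot_self_nonneg y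
    have e1 : act.filter (fun i => cls i * (L + 1) + lab (cls i) i = γ) ⊆
        (act.filter (fun i => cls i = γ0)).filter (fun i => lab γ0 i = r) := by
      intro i hi
      obtain ⟨h1, h2⟩ := Finset.mem_filter.1 hi
      have h3 : cls i = γ0 := by rw [← hdiv i, h2]
      have h4 : lab (cls i) i = r := by rw [← hmod i, h2]
      exact Finset.mem_filter.2 ⟨Finset.mem_filter.2 ⟨h1, h3⟩, h3 ▸ h4⟩
    have hker : ∀ i, 0 ≤ h i / max σ' |v i ⬝ᵥ x' - m i| :=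
      fun i => div_nonneg (hh i).le (hσ'.le.trans (le_max_left _ _))
    refine (Finset.sum_le_sum_of_subset_of_nonneg e1
      (fun i _ _ => mul_nonneg (hker i) (sq_nonneg _))).trans ?_
    have e2 : ∀ i, h i / max σ' |v i ⬝ᵥ x' - m i| * (y ⬝ᵥ (v i ᵥ* (A γ0 * B γ0 r))) ^ 2 ≤
        2 * (b i * (y ⬝ᵥ ((v i ᵥ* A γ0) ᵥ* B γ0 r)) ^ 2) + h i * ((y ⬝ᵥ y) / (σ' * 2 ^ L)) := by
      intro i
      rw [← vecMul_vecMul]
      have hm : 0 < max σ' |v i ⬝ᵥ x' - m i| := lt_of_lt_of_le hσ' (le_max_left _ _)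
      have hhi := hh i
      by_cases h1 : |v i ⬝ᵥ x' - m i| ≤ σ' * 2 ^ L
      · have h2 : h i / max σ' |v i ⬝ᵥ x' - m i| ≤ 2 * b i := by
          simp only [hb, h1, if_true]
          rw [← mul_div_assoc, div_le_div_iff₀ hm (by positivity)]
          nlinarith [(hlv i h1).2]
        have h3 := mul_le_mul_of_nonneg_right h2 (sq_nonneg (y ⬝ᵥ ((v i ᵥ* A γ0) ᵥ* B γ0 r)))
        have h4 : 0 ≤ h i * ((y ⬝ᵥ y) / (σ' * 2 ^ L)) := by positivity
        linarith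
      · have h2 : h i / max σ' |v i ⬝ᵥ x' - m i| ≤ h i / (σ' * 2 ^ L) :=
          div_le_div_of_nonneg_left hhi.le (by positivity)
            ((not_le.1 h1).le.trans (le_max_right _ _))
        have h3 : (y ⬝ᵥ ((v i ᵥ* A γ0) ᵥ* B γ0 r)) ^ 2 ≤ y ⬝ᵥ y := by
          have h4 := (l2 γ0 r (v i ᵥ* A γ0)).trans (hn1 i γ0)
          nlinarith [dot_sq_le y ((v i ᵥ* A γ0) ᵥ* B γ0 r)]
        have h4 := mul_le_mul h2 h3 (sq_nonneg _) (by positivity)
        have h5 : 0 ≤ b i * (y ⬝ᵥ ((v i ᵥ* A γ0) ᵥ* B γ0 r)) ^ 2 := mul_nonneg (hb0 i) (sq_nonneg _)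
        have h6 : h i / (σ' * 2 ^ L) * (y ⬝ᵥ y) = h i * ((y ⬝ᵥ y) / (σ' * 2 ^ L)) := by ring
        linarith
    refine (Finset.sum_le_sum (fun i _ => e2 i)).trans ?_
    rw [Finset.sum_add_distrib, ← Finset.mul_sum, ← Finset.sum_mul]
    have h1 := l4 γ0 r y
    have h2 : ∑ i ∈ (act.filter (fun i => cls i = γ0)).filter (fun i => lab γ0 i = r), h i ≤
        2 ^ L * c0 * σ' :=
      (Finset.sum_le_sum_of_subset_of_nonneg (Finset.subset_univ _)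
        (fun i _ _ => (hh i).le)).trans hsum
    have h3 := mul_le_mul_of_nonneg_right h2 (show 0 ≤ (y ⬝ᵥ y) / (σ' * 2 ^ L) by positivity)
    have h4 : 2 ^ L * c0 * σ' * ((y ⬝ᵥ y) / (σ' * 2 ^ L)) = c0 * (y ⬝ᵥ y) := by field_simp
    have h5 : (8 * c' / β + 3 * c0) * (y ⬝ᵥ y) =
        2 * ((4 * c' / β + c0) * (y ⬝ᵥ y)) + c0 * (y ⬝ᵥ y) := by ring
    linarith

theorem hard [DecidableEq ι] [DecidableEq I] [Fintype J] {p : ℕ} {C : ℝ} (hC : 1 ≤ C)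
    (hst : StageProp p C) {v : I → ι → ℝ} {h m : I → ℝ} {Pc : Finset ι} {N : ℕ}
    {β σ K δ : ℝ} {x ρ : ι → ℝ} (H : Ext v h m Finset.univ Pc N β σ x ρ)
    (hv : ∀ i, v i ⬝ᵥ v i = 1) (hh : ∀ i, 0 < h i) (hσ : 0 < σ) (hβ : 0 < β)
    (hK : 0 < K) (hδ : 0 < δ) (hρ : ∀ k, C * ρ k ≤ β ^ 2)
    (φ : J → ι → ℝ) (w κ : J → ℝ) (hw : ∀ j, 0 ≤ w j)
    (hκ : ∀ j, 0 < κ j) (hcost : ∀ j, σ ^ 2 * ∑ k, C * ρ k * φ j k ^ 2 ≤ β ^ 2 * κ j ^ 2) :
    ∃ x', (∀ i, h i < |v i ⬝ᵥ x' - m i|) ∧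
      ∑ j, w j * max 0 (|φ j ⬝ᵥ (x' - x)| - K * κ j) ≤
        C * (∑ j, w j * κ j) / K ^ (2 * p + 1) + δ := by
  obtain ⟨cls, A, a1, a2, a3, a4⟩ := H
  set n : I → ι → ℝ := fun i => v i ᵥ* A (cls i) with hn
  have hn0 : ∀ i, 0 < n i ⬝ᵥ n i := fun i => lt_of_lt_of_le hβ (a3 i (Finset.mem_univ i))
  let D : Data (ι → ℝ) I :=
    { v := fun t => dl (v t)
      m := m
      s := h
      a := fun _ => 1
      μ := fun t => (n t ⬝ᵥ n t)⁻¹ • (A (cls t) *ᵥ n t)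
      c := 1
      x0 := x }
  have hload : ∀ u, β ^ 2 * (C * D.load σ (dl u)) ≤ ∑ k, C * ρ k * u k ^ 2 := by
    intro u
    have h1 : β ^ 2 * D.load σ (dl u) ≤ ∑ k, ρ k * u k ^ 2 := by
      refine le_trans ?_ (a4 u)
      simp only [Data.load, Data.dist, D, dl_apply, dotProduct_smul, dotProduct_mulVec,
        smul_eq_mul, Finset.mul_sum]
      apply Finset.sum_le_sum
      intro i _
      have h2 : β * (n i ⬝ᵥ n i)⁻¹ ≤ 1 := by
        rw [mul_inv_le_iff₀ (hn0 i), one_mul]; exact a3 i (Finset.mem_univ i)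
      have h3 : (β * (n i ⬝ᵥ n i)⁻¹) ^ 2 ≤ 1 :=
        pow_le_one₀ (mul_nonneg hβ.le (inv_nonneg.2 (hn0 i).le)) h2
      have hker : 0 ≤ h i / max σ |v i ⬝ᵥ x - m i| * ((u ᵥ* A (cls i)) ⬝ᵥ n i) ^ 2 :=
        mul_nonneg (div_nonneg (hh i).le (hσ.le.trans (le_max_left _ _))) (sq_nonneg _)
      calc _ = (β * (n i ⬝ᵥ n i)⁻¹) ^ 2 *
            (h i / max σ |v i ⬝ᵥ x - m i| * ((u ᵥ* A (cls i)) ⬝ᵥ n i) ^ 2) := by ring
        _ ≤ _ := mul_le_of_le_one_left hker h3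
    calc _ = C * (β ^ 2 * D.load σ (dl u)) := by ring
      _ ≤ C * ∑ k, ρ k * u k ^ 2 := mul_le_mul_of_nonneg_left h1 (by linarith)
      _ = _ := by rw [Finset.mul_sum]; simp only [mul_assoc]
  have hβ2 : 0 < β ^ 2 := by positivity
  obtain ⟨x', hno, hcst⟩ := hst _ _ J D σ K δ (fun j => dl (φ j)) w κ hh
    (fun t => zero_le_one) one_pos hσ hK hδ hw hκ
    (fun t => by
      have h1 := hload (v t)
      have h2 : ∑ k, C * ρ k * v t k ^ 2 ≤ β ^ 2 * 1 := by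
        calc _ ≤ ∑ k, β ^ 2 * v t k ^ 2 :=
              Finset.sum_le_sum (fun k _ => mul_le_mul_of_nonneg_right (hρ k) (sq_nonneg _))
          _ = β ^ 2 * (v t ⬝ᵥ v t) := by simp only [dotProduct, Finset.mul_sum, sq]
          _ = _ := by rw [hv]
      exact le_of_mul_le_mul_left (h1.trans h2) hβ2)
    (fun j => by
      have h1 := mul_le_mul_of_nonneg_left (hload (φ j)) (sq_nonneg σ)
      have h2 : β ^ 2 * (C * (σ ^ 2 * D.load σ (dl (φ j)))) ≤ β ^ 2 * (1 * κ j ^ 2) := by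
        linarith [hcost j]
      exact le_of_mul_le_mul_left h2 hβ2)
  refine ⟨x', fun i => ?_, hcst⟩
  by_contra hcon
  apply hno {i}
  refine ⟨Finset.singleton_nonempty i, fun t ht => ?_⟩
  rw [Finset.mem_singleton.1 ht]
  refine ⟨not_lt.1 hcon, ?_⟩
  simp only [D, Finset.sum_singleton, dl_apply, dotProduct_smul, dotProduct_mulVec, smul_eq_mul]
  have : (n i ⬝ᵥ n i)⁻¹ * ((v i ᵥ* A (cls i)) ⬝ᵥ n i) = 1 := inv_mul_cancel₀ (hn0 i).ne'
  rw [this]; norm_num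

end Pool.Agent.Lib.MP_79af62_gt
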