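import Pool.Agent.Lib.MP_79af62_gt.Proc2

set_option autoImplicit false

namespace Pool.Agent.Lib.MP_79af62_gt

open Finset

variable {E τ : Type} [AddCommGroup E] [Module ℝ E]

/-- truncated distance of the start point from the centre of an item -/
noncomputable def Data.dist (D : Data E τ) (σ : ℝ) (t : τ) : ℝ := max σ |D.v t D.x0 - D.m t|

/-- the load form of a stage -/
noncomputable def Data.load [Fintype τ] (D : Data E τ) (σ : ℝ) (u : E →ₗ[ℝ] ℝ) : ℝ :=
  ∑ t, D.a t * D.s t * (u (D.μ t)) ^ 2 / D.dist σ t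

variable [DecidableEq τ] [Fintype τ]

theorem Data.W_point (D : Data E τ) (e σ : ℝ) (he : 0 ≤ e) (hσ : 0 < σ) (t : τ)
    (hs0 : 0 < D.s t) (hs : e * ∑ k, √(D.a k) * |D.v t (D.μ k)| ≤ D.s t) (P : ℕ)
    (h : List Bool) :
    (D.dist σ t * (D.A e t h / D.s t)) ^ (P + 1) ≤ (σ ^ 2) ^ (P + 1) +
      64 ^ (P + 1) * ((D.v t ((D.st e h).x - D.x0) ^ 2) ^ (P + 1) + (D.N e t h ^ 2) ^ (P + 1)) +
      2 ^ (P + 1) * D.V e (D.v t) h ^ (P + 1) +
      4 ^ (P + 1) * (D.stop e (D.v t) (|D.v t D.x0 - D.m t| / 2) h ^ 2) ^ (P + 1) := by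
  set n := D.A e t h / D.s t with hn
  set M := D.v t ((D.st e h).x - D.x0) with hM
  set N := D.N e t h
  set V := D.V e (D.v t) h with hV
  set R := |D.v t D.x0 - D.m t| with hR
  set Z := D.stop e (D.v t) (R / 2) h
  have hA0 : 0 ≤ D.A e t h := D.acc_nonneg e _ (fun S => by split_ifs <;> positivity) h
  have hV0 : 0 ≤ V := D.acc_nonneg e _ (fun S => by positivity) h
  have hAV : D.A e t h ≤ V := D.acc_mono e _ _ (fun S => by split_ifs <;> first | exact le_rfl | positivity) h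
  have hn0 : 0 ≤ n := div_nonneg hA0 hs0.le
  have hn1 : n ≤ 4 * (|M| + |N|) := by
    have h1 := D.A_le_hub e he t hs0 hs h
    have h2 := hub_lip hs0 (D.v t D.x0 - D.m t) (D.v t (D.st e h).x - D.m t)
    have h3 : D.v t (D.st e h).x - D.m t - (D.v t D.x0 - D.m t) = M := by
      rw [hM, map_sub]; ring
    rw [h3] at h2
    have h4 : n = 4 * (D.A e t h / (4 * D.s t)) := by rw [hn]; field_simp
    have h5 := neg_abs_le N
    linarith
  have hn2 : (n ^ 2) ^ (P + 1) ≤ 64 ^ (P + 1) * ((M ^ 2) ^ (P + 1) + (N ^ 2) ^ (P + 1)) := by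
    have h1 : n ^ 2 ≤ 32 * (M ^ 2 + N ^ 2) := by
      have := sq_abs M
      have := sq_abs N
      nlinarith [abs_nonneg M, abs_nonneg N, sq_nonneg (|M| - |N|)]
    have h2 := add_pow_le (sq_nonneg M) (sq_nonneg N) (P + 1)
    calc (n ^ 2) ^ (P + 1) ≤ (32 * (M ^ 2 + N ^ 2)) ^ (P + 1) :=
          pow_le_pow_left₀ (by positivity) h1 _
      _ = 32 ^ (P + 1) * (M ^ 2 + N ^ 2) ^ (P + 1) := mul_pow _ _ _
      _ ≤ 32 ^ (P + 1) * (2 ^ (P + 1) * ((M ^ 2) ^ (P + 1) + (N ^ 2) ^ (P + 1))) := by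
          apply mul_le_mul_of_nonneg_left (h2.trans _) (by positivity)
          apply mul_le_mul_of_nonneg_right _ (by positivity)
          exact pow_le_pow_right₀ (by norm_num) (by omega)
      _ = _ := by rw [← mul_assoc, ← mul_pow]; norm_num
  have amgm : ∀ y : ℝ, (y * n) ^ (P + 1) ≤ (y ^ 2) ^ (P + 1) + (n ^ 2) ^ (P + 1) := by
    intro y
    rw [mul_pow, ← pow_mul, ← pow_mul, mul_comm 2, pow_mul, pow_mul]
    nlinarith [sq_nonneg (y ^ (P + 1) - n ^ (P + 1)), sq_nonneg (y ^ (P + 1)),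
      sq_nonneg (n ^ (P + 1))]
  have p1 : 0 ≤ (σ ^ 2) ^ (P + 1) := by positivity
  have p2 : 0 ≤ 64 ^ (P + 1) * ((M ^ 2) ^ (P + 1) + (N ^ 2) ^ (P + 1)) := by positivity
  have p3 : 0 ≤ 2 ^ (P + 1) * V ^ (P + 1) := by positivity
  have p4 : 0 ≤ 4 ^ (P + 1) * (Z ^ 2) ^ (P + 1) := by positivity
  unfold Data.dist
  rw [← hR]
  rcases le_total R σ with h1 | h1
  · rw [max_eq_left h1]
    linarith [amgm σ]
  · rw [max_eq_right h1]
    by_cases h2 : R < 2 * D.s t
    · have h3 : R * n ≤ 2 * V := by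
        have : R * n ≤ 2 * D.s t * n := mul_le_mul_of_nonneg_right h2.le hn0
        have h4 : 2 * D.s t * n = 2 * D.A e t h := by rw [hn]; field_simp
        linarith
      have h4 : (R * n) ^ (P + 1) ≤ (2 * V) ^ (P + 1) :=
        pow_le_pow_left₀ (mul_nonneg (abs_nonneg _) hn0) h3 _
      rw [mul_pow 2] at h4
      linarith
    · by_cases h3 : |Z| < R / 2
      · have := (D.stop_spec e t (R / 2) (by linarith [not_lt.1 h2]) h h3).2.1
        have h4 : n = 0 := by rw [hn, this, zero_div]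
        rw [h4, mul_zero, zero_pow (Nat.succ_ne_zero P)]
        linarith
      · have h4 : R ^ 2 ≤ 4 * Z ^ 2 := by
          have := sq_abs Z
          have h5 : 0 ≤ R := abs_nonneg _
          nlinarith [not_lt.1 h3]
        have h5 : (R ^ 2) ^ (P + 1) ≤ (4 * Z ^ 2) ^ (P + 1) := pow_le_pow_left₀ (by positivity) h4 _
        rw [mul_pow 4] at h5
        linarith [amgm R]

theorem Data.cnt_point (D : Data E τ) (e σ : ℝ) (hσ : 0 < σ) (hc : 0 < D.c)
    (ha : ∀ k, 0 ≤ D.a k) (t : τ) (hs0 : 0 < D.s t)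
    (hs : e ^ 2 * ((∑ k, D.a k * (D.v t (D.μ k)) ^ 2) * D.dist σ t) ≤ σ ^ 2 * D.s t)
    (h : List Bool) :
    e ^ 2 * D.cnt e t h ≤ D.s t / (D.c * D.dist σ t) *
      (D.dist σ t * (D.A e t h / D.s t) + σ ^ 2) := by
  have hd : 0 < D.dist σ t := lt_of_lt_of_le hσ (le_max_left _ _)
  have h1 := D.cnt_le e ha t h
  have h2 := D.queue_le e (fun k => D.a k * (D.v t (D.μ k)) ^ 2)
    (fun k => mul_nonneg (ha k) (sq_nonneg _)) h
  have h3 : D.c * e ^ 2 * D.cnt e t h ≤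
      D.A e t h + e ^ 2 * ∑ k, D.a k * (D.v t (D.μ k)) ^ 2 := by
    refine h1.trans (add_le_add le_rfl ?_)
    split_ifs
    · exact mul_le_mul_of_nonneg_left h2 (sq_nonneg e)
    · exact mul_nonneg (sq_nonneg e)
        (Finset.sum_nonneg (fun k _ => mul_nonneg (ha k) (sq_nonneg _)))
  have h4 : e ^ 2 * ∑ k, D.a k * (D.v t (D.μ k)) ^ 2 ≤ σ ^ 2 * D.s t / D.dist σ t := by
    rw [le_div_iff₀ hd]; linarith
  have h5 : D.s t / (D.c * D.dist σ t) * (D.dist σ t * (D.A e t h / D.s t) + σ ^ 2) =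
      (D.A e t h + σ ^ 2 * D.s t / D.dist σ t) / D.c := by
    field_simp
  rw [h5, le_div_iff₀ hc]
  linarith

theorem Data.V_point (D : Data E τ) (e σ : ℝ) (hσ : 0 < σ) (hc : 0 < D.c)
    (ha : ∀ k, 0 ≤ D.a k) (hs0 : ∀ t, 0 < D.s t)
    (hs : ∀ t, e ^ 2 * ((∑ k, D.a k * (D.v t (D.μ k)) ^ 2) * D.dist σ t) ≤ σ ^ 2 * D.s t)
    (u : E →ₗ[ℝ] ℝ) (h : List Bool) :
    D.V e u h ≤ ∑ t, (D.a t * D.s t * (u (D.μ t)) ^ 2 / D.dist σ t / D.c) *
      (D.dist σ t * (D.A e t h / D.s t) + σ ^ 2) := by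
  have h1 := D.V_eq e ha u h
  have h2 : 0 ≤ ((D.st e h).q.map (fun k => D.a k * (u (D.μ k)) ^ 2)).sum := by
    apply List.sum_nonneg
    intro x hx
    obtain ⟨k, _, rfl⟩ := List.mem_map.1 hx
    exact mul_nonneg (ha k) (sq_nonneg _)
  have h3 : D.V e u h ≤ e ^ 2 * ∑ k, D.cnt e k h * (D.a k * (u (D.μ k)) ^ 2) := by
    nlinarith [mul_nonneg (sq_nonneg e) h2]
  refine h3.trans ?_
  rw [Finset.mul_sum]
  apply Finset.sum_le_sum
  intro t _
  have h4 := D.cnt_point e σ hσ hc ha t (hs0 t) (hs t) h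
  have hd : 0 < D.dist σ t := lt_of_lt_of_le hσ (le_max_left _ _)
  calc e ^ 2 * (D.cnt e t h * (D.a t * (u (D.μ t)) ^ 2))
      = (e ^ 2 * D.cnt e t h) * (D.a t * (u (D.μ t)) ^ 2) := by ring
    _ ≤ (D.s t / (D.c * D.dist σ t) * (D.dist σ t * (D.A e t h / D.s t) + σ ^ 2)) *
          (D.a t * (u (D.μ t)) ^ 2) :=
        mul_le_mul_of_nonneg_right h4 (mul_nonneg (ha t) (sq_nonneg _))
    _ = _ := by field_simp

theorem over_le (y r : ℝ) (hr : 0 < r) (p : ℕ) :
    max 0 (|y| - r) ≤ (y ^ 2) ^ (p + 1) / r ^ (2 * p + 1) := by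
  rcases le_total |y| r with h | h
  · rw [max_eq_left (by linarith)]; positivity
  · rw [max_eq_right (by linarith), le_div_iff₀ (by positivity), ← sq_abs y]
    have h1 : r ^ (2 * p + 1) ≤ |y| ^ (2 * p + 1) := pow_le_pow_left₀ hr.le h _
    calc (|y| - r) * r ^ (2 * p + 1) ≤ |y| * |y| ^ (2 * p + 1) :=
          mul_le_mul (by linarith) h1 (by positivity) (abs_nonneg _)
      _ = _ := by ring

/-- The stage lemma. -/
theorem stage (p : ℕ) : ∃ C : ℝ, 1 ≤ C ∧ ∀ (E τ J : Type) [AddCommGroup E] [Module ℝ E]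
    [DecidableEq τ] [Fintype τ] [Fintype J] (D : Data E τ) (σ K δ : ℝ)
    (φ : J → E →ₗ[ℝ] ℝ) (w κ : J → ℝ), (∀ t, 0 < D.s t) → (∀ t, 0 ≤ D.a t) → 0 < D.c →
    0 < σ → 0 < K → 0 < δ → (∀ j, 0 ≤ w j) → (∀ j, 0 < κ j) →
    (∀ t, C * D.load σ (D.v t) ≤ D.c) → (∀ j, C * (σ ^ 2 * D.load σ (φ j)) ≤ D.c * κ j ^ 2) →
    ∃ x, (∀ O, ¬ D.IsCore x O) ∧ ∑ j, w j * max 0 (|φ j (x - D.x0)| - K * κ j) ≤
      C * (∑ j, w j * κ j) / K ^ (2 * p + 1) + δ := by
  obtain ⟨C1, hC1, hmom⟩ := moment p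
  set C2 : ℝ := 2 ^ (p + 1) * (2 + 2 * 64 ^ (p + 1) * C1 + 2 ^ (p + 1) + 4 ^ (p + 1) * C1) with hC2
  have hC2p : 1 ≤ C2 := by
    have h1 : (1 : ℝ) ≤ 2 ^ (p + 1) := one_le_pow₀ (by norm_num)
    have h2 : 0 ≤ 2 * 64 ^ (p + 1) * C1 + 2 ^ (p + 1) + 4 ^ (p + 1) * C1 := by positivity
    nlinarith
  refine ⟨2 * C2 + C1, by linarith, ?_⟩
  intro E τ J _ _ _ _ _ D σ K δ φ w κ hs0 ha hc hσ hK hδ hw hκ hload hcost
  set C := 2 * C2 + C1 with hC
  have hC0 : 1 ≤ C := by linarith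
  have hd : ∀ t, 0 < D.dist σ t := fun t => lt_of_lt_of_le hσ (le_max_left _ _)
  obtain ⟨e, he0, he1, he⟩ := exists_eps (ι := τ ⊕ τ)
    (Sum.elim (fun t => ∑ k, √(D.a k) * |D.v t (D.μ k)|)
      (fun t => (∑ k, D.a k * (D.v t (D.μ k)) ^ 2) * D.dist σ t))
    (Sum.elim D.s (fun t => σ ^ 2 * D.s t)) (by
      rintro (t | t)
      · exact hs0 t
      · exact mul_pos (by positivity) (hs0 t))
  have he2 : ∀ t, e * ∑ k, √(D.a k) * |D.v t (D.μ k)| ≤ D.s t := fun t => he (Sum.inl t)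
  have he3 : ∀ t, e ^ 2 * ((∑ k, D.a k * (D.v t (D.μ k)) ^ 2) * D.dist σ t) ≤ σ ^ 2 * D.s t := by
    intro t
    have h1 : e * ((∑ k, D.a k * (D.v t (D.μ k)) ^ 2) * D.dist σ t) ≤ σ ^ 2 * D.s t :=
      he (Sum.inr t)
    have h2 : 0 ≤ (∑ k, D.a k * (D.v t (D.μ k)) ^ 2) * D.dist σ t :=
      mul_nonneg (Finset.sum_nonneg (fun k _ => mul_nonneg (ha k) (sq_nonneg _))) (hd t).le
    have h3 : e ^ 2 ≤ e := by nlinarith
    nlinarith [mul_le_mul_of_nonneg_right h3 h2]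
  set W : τ → List Bool → ℝ := fun t h => D.dist σ t * (D.A e t h / D.s t) + σ ^ 2 with hW
  have hA0 : ∀ t h, 0 ≤ D.A e t h :=
    fun t h => D.acc_nonneg e _ (fun S => by split_ifs <;> positivity) h
  have hW0 : ∀ t h, 0 ≤ W t h := fun t h =>
    add_nonneg (mul_nonneg (hd t).le (div_nonneg (hA0 t h) (hs0 t).le)) (sq_nonneg σ)
  have hload0 : ∀ u, 0 ≤ D.load σ u := fun u => Finset.sum_nonneg (fun t _ =>
    div_nonneg (mul_nonneg (mul_nonneg (ha t) (hs0 t).le) (sq_nonneg _)) (hd t).le)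
  have mM : ∀ (u : E →ₗ[ℝ] ℝ) T, Ex T (fun h => (u ((D.st e h).x - D.x0) ^ 2) ^ (p + 1)) ≤
      C1 * Ex T (fun h => D.V e u h ^ (p + 1)) := fun u =>
    hmom _ (D.V e u) (fun h => u (D.del e (D.st e h))) (by simp [Data.st]) rfl
      (D.M_step e u) (fun b h => (D.V_step e u b h).ge)
  have hWG : ∀ T G, (σ ^ 2) ^ (p + 1) ≤ G → (∀ t, Ex T (fun h => D.V e (D.v t) h ^ (p + 1)) ≤ G) →
      ∀ t, Ex T (fun h => W t h ^ (p + 1)) ≤ C2 * G := by
    intro T G hG1 hG2 t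
    have mN := hmom (D.N e t) (D.V e (D.v t)) _ rfl rfl (fun b h => rfl)
      (fun b h => by
        rw [D.V_step]
        exact add_le_add le_rfl (hub_half (hs0 t) _ _)) T
    have mZ := hmom (D.stop e (D.v t) (|D.v t D.x0 - D.m t| / 2)) (D.V e (D.v t)) _ rfl rfl
      (fun b h => rfl) (fun b h => by
        rw [D.V_step]
        apply add_le_add le_rfl
        split_ifs
        · simpa using sq_nonneg _
        · exact le_rfl) T
    have h1 : ∀ h, W t h ^ (p + 1) ≤ 2 ^ (p + 1) * (((σ ^ 2) ^ (p + 1) +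
        64 ^ (p + 1) * ((D.v t ((D.st e h).x - D.x0) ^ 2) ^ (p + 1) + (D.N e t h ^ 2) ^ (p + 1)) +
        2 ^ (p + 1) * D.V e (D.v t) h ^ (p + 1) +
        4 ^ (p + 1) * (D.stop e (D.v t) (|D.v t D.x0 - D.m t| / 2) h ^ 2) ^ (p + 1)) +
        (σ ^ 2) ^ (p + 1)) := by
      intro h
      have h2 := D.W_point e σ he0.le hσ t (hs0 t) (he2 t) p h
      have h3 := add_pow_le (mul_nonneg (hd t).le (div_nonneg (hA0 t h) (hs0 t).le))
        (sq_nonneg σ) (p + 1)
      refine h3.trans ?_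
      apply mul_le_mul (pow_le_pow_right₀ (by norm_num) (by omega)) (add_le_add h2 le_rfl)
      · exact add_nonneg (pow_nonneg (mul_nonneg (hd t).le (div_nonneg (hA0 t h) (hs0 t).le)) _)
          (by positivity)
      · positivity
    have h2 := Ex_mono T _ _ (fun h _ => h1 h)
    simp only [Ex_mul, Ex_add, Ex_const] at h2
    refine h2.trans ?_
    have g1 := (mM (D.v t) T).trans (mul_le_mul_of_nonneg_left (hG2 t) (by linarith))
    have g2 := mN.trans (mul_le_mul_of_nonneg_left (hG2 t) (by linarith))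
    have g3 := mZ.trans (mul_le_mul_of_nonneg_left (hG2 t) (by linarith))
    have g4 := hG2 t
    rw [hC2, mul_assoc]
    apply mul_le_mul_of_nonneg_left _ (by positivity)
    have q1 : (0 : ℝ) ≤ 64 ^ (p + 1) := by positivity
    have q2 : (0 : ℝ) ≤ 2 ^ (p + 1) := by positivity
    have q3 : (0 : ℝ) ≤ 4 ^ (p + 1) := by positivity
    nlinarith [mul_le_mul_of_nonneg_left (add_le_add g1 g2) q1, mul_le_mul_of_nonneg_left g4 q2,
      mul_le_mul_of_nonneg_left g3 q3]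
  have hVG : ∀ T G, (∀ t, Ex T (fun h => W t h ^ (p + 1)) ≤ C2 * G) →
      ∀ u : E →ₗ[ℝ] ℝ, Ex T (fun h => D.V e u h ^ (p + 1)) ≤
        (D.load σ u / D.c) ^ (p + 1) * (C2 * G) := by
    intro T G hG u
    set b : τ → ℝ := fun t => D.a t * D.s t * (u (D.μ t)) ^ 2 / D.dist σ t / D.c with hb
    have hb0 : ∀ t, 0 ≤ b t := fun t => div_nonneg
      (div_nonneg (mul_nonneg (mul_nonneg (ha t) (hs0 t).le) (sq_nonneg _)) (hd t).le) hc.le
    have hbs : ∑ t, b t = D.load σ u / D.c := by rw [hb, Data.load, Finset.sum_div]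
    have h1 : ∀ h, D.V e u h ^ (p + 1) ≤ (∑ t, b t) ^ p * ∑ t, b t * W t h ^ (p + 1) := by
      intro h
      refine le_trans ?_ (jensen_pow b (fun t => W t h) hb0 (fun t => hW0 t h) p)
      exact pow_le_pow_left₀ (D.acc_nonneg e _ (fun S => by positivity) h)
        (D.V_point e σ hσ hc ha hs0 he3 u h) _
    have h2 := Ex_mono T _ _ (fun h _ => h1 h)
    rw [Ex_mul, Ex_sum] at h2
    simp only [Ex_mul] at h2
    refine h2.trans ?_
    have h3 : ∑ t, b t * Ex T (fun h => W t h ^ (p + 1)) ≤ (∑ t, b t) * (C2 * G) := by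
      rw [Finset.sum_mul]
      exact Finset.sum_le_sum (fun t _ => mul_le_mul_of_nonneg_left (hG t) (hb0 t))
    rw [← hbs, pow_succ, mul_assoc]
    exact mul_le_mul_of_nonneg_left h3 (pow_nonneg (Finset.sum_nonneg (fun t _ => hb0 t)) _)
  have hCp : C ≤ C ^ (p + 1) := le_self_pow₀ hC0 (Nat.succ_ne_zero p)
  have hclose : ∀ T t, Ex T (fun h => W t h ^ (p + 1)) ≤ C2 * (σ ^ 2) ^ (p + 1) := by
    intro T
    obtain ⟨o, -, ho⟩ := Finset.exists_max_image (Finset.univ : Finset (Option τ))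
      (fun o => o.elim ((σ ^ 2) ^ (p + 1)) (fun t => Ex T (fun h => D.V e (D.v t) h ^ (p + 1))))
      ⟨none, Finset.mem_univ _⟩
    rcases o with _ | t0
    · exact hWG T _ le_rfl (fun t => ho (some t) (Finset.mem_univ _))
    · exfalso
      simp only [Option.elim] at ho
      set G := Ex T (fun h => D.V e (D.v t0) h ^ (p + 1)) with hG
      have h1 : (σ ^ 2) ^ (p + 1) ≤ G := ho none (Finset.mem_univ _)
      have h2 := hVG T G (hWG T G h1 (fun t => ho (some t) (Finset.mem_univ _))) (D.v t0)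
      have hG0 : 0 < G := lt_of_lt_of_le (by positivity) h1
      have h3 : D.load σ (D.v t0) / D.c ≤ 1 / C := by
        rw [div_le_div_iff₀ hc (by linarith)]; linarith [hload t0]
      have h4 : (D.load σ (D.v t0) / D.c) ^ (p + 1) ≤ 1 / C := by
        refine (pow_le_pow_left₀ (div_nonneg (hload0 _) hc.le) h3 _).trans ?_
        rw [one_div_pow]
        exact one_div_le_one_div_of_le (by linarith) hCp
      have h5 : G ≤ 1 / C * (C2 * G) :=
        h2.trans (mul_le_mul_of_nonneg_right h4 (by positivity))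
      rw [one_div_mul_eq_div, le_div_iff₀ (by linarith)] at h5
      nlinarith
  set B0 : ℝ := C1 * (∑ j, w j * κ j) / K ^ (2 * p + 1) with hB0
  have hwk : 0 ≤ ∑ j, w j * κ j := Finset.sum_nonneg (fun j _ => mul_nonneg (hw j) (hκ j).le)
  have hB00 : 0 ≤ B0 := by positivity
  set ov : List Bool → ℝ := fun h => ∑ j, w j * max 0 (|φ j ((D.st e h).x - D.x0)| - K * κ j)
    with hov
  have hEov : ∀ T, Ex T ov ≤ B0 := by
    intro T
    rw [hov, Ex_sum, hB0, Finset.mul_sum, Finset.sum_div]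
    apply Finset.sum_le_sum
    intro j _
    rw [Ex_mul]
    have hκj := hκ j
    have h1 := Ex_mono T _ _ (fun h _ => (over_le (φ j ((D.st e h).x - D.x0)) (K * κ j)
      (by positivity) p).trans (le_of_eq (div_eq_inv_mul _ _)))
    rw [Ex_mul] at h1
    have h2 := hVG T _ (hclose T) (φ j)
    have h3 : σ ^ 2 * (D.load σ (φ j) / D.c) ≤ κ j ^ 2 / C := by
      rw [← mul_div_assoc, div_le_div_iff₀ hc (by linarith)]; linarith [hcost j]
    have h4 : (D.load σ (φ j) / D.c) ^ (p + 1) * (C2 * (σ ^ 2) ^ (p + 1)) ≤ (κ j ^ 2) ^ (p + 1) := by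
      have h5 := pow_le_pow_left₀ (mul_nonneg (sq_nonneg σ) (div_nonneg (hload0 _) hc.le)) h3 (p + 1)
      rw [mul_pow, div_pow (κ j ^ 2)] at h5
      have h6 : C2 * ((κ j ^ 2) ^ (p + 1) / C ^ (p + 1)) ≤ (κ j ^ 2) ^ (p + 1) := by
        rw [← mul_div_assoc, div_le_iff₀ (by positivity)]
        have : C2 ≤ C ^ (p + 1) := by linarith
        nlinarith [show 0 ≤ (κ j ^ 2) ^ (p + 1) by positivity]
      nlinarith [mul_le_mul_of_nonneg_left h5 (show 0 ≤ C2 by linarith)]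
    have h5 := (mM (φ j) T).trans (mul_le_mul_of_nonneg_left (h2.trans h4) (by linarith))
    have h6 := h1.trans (mul_le_mul_of_nonneg_left h5 (by positivity))
    calc _ ≤ w j * (((K * κ j) ^ (2 * p + 1))⁻¹ * (C1 * (κ j ^ 2) ^ (p + 1))) :=
          mul_le_mul_of_nonneg_left h6 (hw j)
      _ = _ := by rw [mul_pow]; field_simp; ring
  set G0 : ℝ := (Fintype.card τ + 1) * ∑ t, (e ^ 2)⁻¹ * (D.s t / (D.c * D.dist σ t) *
    (1 + C2 * (σ ^ 2) ^ (p + 1))) with hG0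
  obtain ⟨T, hT⟩ := exists_nat_gt (max 0 (G0 * (B0 + δ) / δ))
  have hT0 : (0 : ℝ) < T := lt_of_le_of_lt (le_max_left _ _) hT
  classical
  have hEnt : Ex T (fun h => if D.Term (D.st e h) then (0 : ℝ) else 1) ≤ G0 / T := by
    have h1 : ∀ h : List Bool, h.length = T → (if D.Term (D.st e h) then (0 : ℝ) else 1) ≤
        ((T : ℝ)⁻¹ * (Fintype.card τ + 1)) * ∑ t, (e ^ 2)⁻¹ * (D.s t / (D.c * D.dist σ t) *
          (1 + W t h ^ (p + 1))) := by
      intro h hh
      have hq : ∀ t, 0 ≤ D.s t / (D.c * D.dist σ t) :=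
        fun t => div_nonneg (hs0 t).le (mul_pos hc (hd t)).le
      split_ifs with hterm
      · exact mul_nonneg (by positivity) (Finset.sum_nonneg (fun t _ => mul_nonneg (by positivity)
          (mul_nonneg (hq t) (add_nonneg zero_le_one (pow_nonneg (hW0 t h) _)))))
      · have h2 := D.len_le e h hterm
        rw [hh] at h2
        have h3 : ∑ t, D.cnt e t h ≤ ∑ t, (e ^ 2)⁻¹ * (D.s t / (D.c * D.dist σ t) *
            (1 + W t h ^ (p + 1))) := by
          apply Finset.sum_le_sum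
          intro t _
          have h4 := D.cnt_point e σ hσ hc ha t (hs0 t) (he3 t) h
          have h5 : W t h ≤ 1 + W t h ^ (p + 1) := by
            rcases le_total (W t h) 1 with h6 | h6
            · linarith [pow_nonneg (hW0 t h) (p + 1)]
            · have h7 : W t h ≤ W t h ^ (p + 1) := le_self_pow₀ h6 (Nat.succ_ne_zero p)
              linarith
          rw [le_inv_mul_iff₀ (by positivity)]
          exact h4.trans (mul_le_mul_of_nonneg_left h5 (hq t))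
        rw [mul_assoc, le_inv_mul_iff₀ hT0]
        have h4 := mul_le_mul_of_nonneg_left h3 (show (0 : ℝ) ≤ Fintype.card τ + 1 by positivity)
        have h5 : (0 : ℝ) ≤ (D.st e h).q.length := by positivity
        linarith
    have h2 := Ex_mono T _ _ h1
    rw [Ex_mul, Ex_sum] at h2
    simp only [Ex_mul, Ex_add, Ex_const] at h2
    refine h2.trans ?_
    rw [hG0, mul_assoc, div_eq_inv_mul]
    apply mul_le_mul_of_nonneg_left _ (by positivity)
    apply mul_le_mul_of_nonneg_left _ (by positivity)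
    apply Finset.sum_le_sum
    intro t _
    apply mul_le_mul_of_nonneg_left _ (by positivity)
    exact mul_le_mul_of_nonneg_left (add_le_add le_rfl (hclose T t))
      (div_nonneg (hs0 t).le (mul_pos hc (hd t)).le)
  have hBd : 0 < B0 + δ := by linarith
  obtain ⟨h, -, hh⟩ := Ex_exists T
    (fun h => (B0 + δ)⁻¹ * ov h + if D.Term (D.st e h) then (0 : ℝ) else 1) (by
      rw [Ex_add, Ex_mul]
      have h1 : G0 / T < δ / (B0 + δ) := by
        have h2 : G0 * (B0 + δ) / δ < T := lt_of_le_of_lt (le_max_right _ _) hT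
        rw [div_lt_iff₀ hδ] at h2
        rw [div_lt_div_iff₀ hT0 hBd]; linarith
      have h2 : (B0 + δ)⁻¹ * Ex T ov ≤ B0 / (B0 + δ) := by
        rw [div_eq_inv_mul]; exact mul_le_mul_of_nonneg_left (hEov T) (by positivity)
      have h3 : B0 / (B0 + δ) + δ / (B0 + δ) = 1 := by field_simp
      linarith)
  have hov0 : 0 ≤ ov h := Finset.sum_nonneg (fun j _ => mul_nonneg (hw j) (le_max_left _ _))
  have hterm : D.Term (D.st e h) := by
    by_contra hn
    simp only [hn, if_false] at hh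
    have : 0 ≤ (B0 + δ)⁻¹ * ov h := by positivity
    linarith
  refine ⟨(D.st e h).x, D.core_empty _ hterm.2, ?_⟩
  simp only [hterm, if_true, add_zero] at hh
  rw [inv_mul_lt_iff₀ hBd, mul_one] at hh
  have h1 : B0 ≤ C * (∑ j, w j * κ j) / K ^ (2 * p + 1) := by
    apply div_le_div_of_nonneg_right _ (by positivity)
    apply mul_le_mul_of_nonneg_right _ hwk
    linarith
  linarith

end Pool.Agent.Lib.MP_79af62_gt
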