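import Mathlib

set_option autoImplicit false

namespace Pool.Agent.Lib.MP_79af62_gt

open Finset

/-- the sign of a coin -/
def sg (b : Bool) : ℝ := if b then 1 else -1

@[simp] theorem sg_true : sg true = 1 := rfl
@[simp] theorem sg_false : sg false = -1 := rfl

theorem abs_sg (b : Bool) : |sg b| = 1 := by cases b <;> simp

/-- the average over all coin sequences of length `T` -/
noncomputable def Ex : ℕ → (List Bool → ℝ) → ℝ
  | 0, F => F []
  | T + 1, F => Ex T (fun h => (F (true :: h) + F (false :: h)) / 2)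

theorem Ex_mono : ∀ (T : ℕ) (F G : List Bool → ℝ), (∀ h, h.length = T → F h ≤ G h) →
    Ex T F ≤ Ex T G
  | 0, F, G, H => H [] rfl
  | T + 1, F, G, H => by
    apply Ex_mono T
    intro h hh
    have h1 := H (true :: h) (by simp [hh])
    have h2 := H (false :: h) (by simp [hh])
    linarith

theorem Ex_add : ∀ (T : ℕ) (F G : List Bool → ℝ),
    Ex T (fun h => F h + G h) = Ex T F + Ex T G
  | 0, _, _ => rfl
  | T + 1, F, G => by
    simp only [Ex]
    rw [← Ex_add T]
    congr 1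
    funext h
    ring

theorem Ex_mul : ∀ (T : ℕ) (c : ℝ) (F : List Bool → ℝ),
    Ex T (fun h => c * F h) = c * Ex T F
  | 0, _, _ => rfl
  | T + 1, c, F => by
    simp only [Ex]
    rw [← Ex_mul T]
    congr 1
    funext h
    ring

theorem Ex_const : ∀ (T : ℕ) (c : ℝ), Ex T (fun _ => c) = c
  | 0, _ => rfl
  | T + 1, c => by
    simp only [Ex]
    have : (fun _ : List Bool => (c + c) / 2) = fun _ => c := by funext _; ring
    rw [this, Ex_const T]

theorem Ex_sum {ι : Type*} (T : ℕ) (s : Finset ι) (F : ι → List Bool → ℝ) :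
    Ex T (fun h => ∑ i ∈ s, F i h) = ∑ i ∈ s, Ex T (F i) := by
  classical
  induction s using Finset.induction_on with
  | empty => simp [Ex_const]
  | insert a s ha ih =>
    simp only [Finset.sum_insert ha]
    rw [Ex_add, ih]

theorem Ex_nonneg (T : ℕ) (F : List Bool → ℝ) (H : ∀ h, 0 ≤ F h) : 0 ≤ Ex T F := by
  have := Ex_mono T (fun _ => 0) F (fun h _ => H h)
  rwa [Ex_const] at this

theorem Ex_super (F : List Bool → ℝ) (H : ∀ h, (F (true :: h) + F (false :: h)) / 2 ≤ F h) :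
    ∀ T, Ex T F ≤ F []
  | 0 => le_rfl
  | T + 1 => by
    simp only [Ex]
    exact (Ex_mono T _ _ (fun h _ => H h)).trans (Ex_super F H T)

theorem Ex_exists (T : ℕ) (F : List Bool → ℝ) (H : Ex T F < 1) :
    ∃ h : List Bool, h.length = T ∧ F h < 1 := by
  by_contra hc
  push Not at hc
  have := Ex_mono T (fun _ => 1) F hc
  rw [Ex_const] at this
  linarith

theorem two_point (p : ℕ) : ∃ C : ℝ, 0 ≤ C ∧ ∀ x s : ℝ,
    ((x + s) ^ 2) ^ (p + 1) + ((x - s) ^ 2) ^ (p + 1) ≤
      2 * (x ^ 2) ^ (p + 1) + C * s ^ 2 * (x ^ 2 + s ^ 2) ^ p := by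
  induction p with
  | zero => exact ⟨2, by norm_num, fun x s => by ring_nf; exact le_rfl⟩
  | succ p ih =>
    obtain ⟨C, hC, H⟩ := ih
    refine ⟨C + 2 + 8 * (p + 1) * 2 ^ p, by positivity, fun x s => ?_⟩
    set q := x ^ 2 + s ^ 2 with hq
    set a := (x + s) ^ 2 with ha
    set b := (x - s) ^ 2 with hb
    have hq0 : 0 ≤ q := by positivity
    have ha0 : 0 ≤ a := by positivity
    have hb0 : 0 ≤ b := by positivity
    have haq : a ≤ 2 * q := by nlinarith [sq_nonneg (x - s)]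
    have hbq : b ≤ 2 * q := by nlinarith [sq_nonneg (x + s)]
    have e1 : a ^ (p + 1 + 1) + b ^ (p + 1 + 1) =
        q * (a ^ (p + 1) + b ^ (p + 1)) + (2 * x * s) * (a ^ (p + 1) - b ^ (p + 1)) := by
      have : a = q + 2 * x * s := by rw [ha, hq]; ring
      have hb' : b = q - 2 * x * s := by rw [hb, hq]; ring
      rw [pow_succ a (p + 1), pow_succ b (p + 1)]
      nth_rewrite 2 [this]
      nth_rewrite 2 [hb']
      ring
    have e2 : |a ^ (p + 1) - b ^ (p + 1)| ≤ |a - b| * (p + 1 : ℕ) * (max |a| |b|) ^ (p + 1 - 1) :=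
      abs_pow_sub_pow_le a b (p + 1)
    have e3 : max |a| |b| ≤ 2 * q := by
      rw [abs_of_nonneg ha0, abs_of_nonneg hb0]; exact max_le haq hbq
    have e4 : (max |a| |b|) ^ (p + 1 - 1) ≤ (2 * q) ^ p := by
      rw [Nat.add_sub_cancel]
      exact pow_le_pow_left₀ (le_max_of_le_left (abs_nonneg _)) e3 p
    have e5 : |a - b| = 2 * |2 * x * s| := by
      have : a - b = 2 * (2 * x * s) := by rw [ha, hb]; ring
      rw [this, abs_mul, abs_two]
    have e6 : (2 * x * s) * (a ^ (p + 1) - b ^ (p + 1)) ≤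
        8 * (p + 1) * 2 ^ p * s ^ 2 * q ^ (p + 1) := by
      have h1 : (2 * x * s) * (a ^ (p + 1) - b ^ (p + 1)) ≤
          |2 * x * s| * |a ^ (p + 1) - b ^ (p + 1)| := by
        rw [← abs_mul]; exact le_abs_self _
      have h2 : |a ^ (p + 1) - b ^ (p + 1)| ≤ 2 * |2 * x * s| * (p + 1) * (2 * q) ^ p := by
        refine e2.trans ?_
        rw [e5]
        push_cast
        exact mul_le_mul_of_nonneg_left e4 (by positivity)
      have h3 : |2 * x * s| * |2 * x * s| ≤ 4 * s ^ 2 * q := by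
        rw [abs_mul_abs_self, hq]; nlinarith [sq_nonneg (s ^ 2)]
      calc _ ≤ |2 * x * s| * (2 * |2 * x * s| * (p + 1) * (2 * q) ^ p) :=
            h1.trans (mul_le_mul_of_nonneg_left h2 (abs_nonneg _))
        _ = (|2 * x * s| * |2 * x * s|) * (2 * (p + 1) * (2 * q) ^ p) := by ring
        _ ≤ (4 * s ^ 2 * q) * (2 * (p + 1) * (2 * q) ^ p) :=
            mul_le_mul_of_nonneg_right h3 (by positivity)
        _ = _ := by rw [mul_pow]; ring
    have e7 : q * (a ^ (p + 1) + b ^ (p + 1)) ≤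
        q * (2 * (x ^ 2) ^ (p + 1) + C * s ^ 2 * q ^ p) :=
      mul_le_mul_of_nonneg_left (H x s) hq0
    have e8 : (x ^ 2) ^ (p + 1) ≤ q ^ (p + 1) :=
      pow_le_pow_left₀ (by positivity) (by rw [hq]; nlinarith [sq_nonneg s]) _
    have e9 : q * (2 * (x ^ 2) ^ (p + 1)) ≤ 2 * (x ^ 2) ^ (p + 1 + 1) + 2 * s ^ 2 * q ^ (p + 1) := by
      have : q * (2 * (x ^ 2) ^ (p + 1)) = 2 * (x ^ 2) ^ (p + 1 + 1) + 2 * s ^ 2 * (x ^ 2) ^ (p + 1) := by
        rw [hq]; ring
      rw [this]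
      have := mul_le_mul_of_nonneg_left e8 (show 0 ≤ 2 * s ^ 2 by positivity)
      linarith
    have e10 : q * (C * s ^ 2 * q ^ p) = C * s ^ 2 * q ^ (p + 1) := by ring
    rw [e1]
    nlinarith

theorem half_pow_le (p : ℕ) (a b : ℝ) (ha : 0 ≤ a) (hb : 0 ≤ b) :
    ((a + b) / 2) ^ p ≤ (a ^ p + b ^ p) / 2 := by
  have := (convexOn_pow p (𝕜 := ℝ)).2 (Set.mem_Ici.2 ha) (Set.mem_Ici.2 hb)
    (show (0 : ℝ) ≤ 1 / 2 by norm_num) (show (0 : ℝ) ≤ 1 / 2 by norm_num) (by norm_num)
  simp only [smul_eq_mul] at this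
  calc ((a + b) / 2) ^ p = (1 / 2 * a + 1 / 2 * b) ^ p := by ring_nf
    _ ≤ _ := this
    _ = _ := by ring

/-- moment inequality for a martingale with symmetric two-point steps -/
theorem moment (p : ℕ) : ∃ C : ℝ, 1 ≤ C ∧ ∀ (M V s : List Bool → ℝ), M [] = 0 → V [] = 0 →
    (∀ b h, M (b :: h) = M h + sg b * s h) → (∀ b h, V h + (s h) ^ 2 ≤ V (b :: h)) →
    ∀ T, Ex T (fun h => (M h ^ 2) ^ (p + 1)) ≤ C * Ex T (fun h => V h ^ (p + 1)) := by
  obtain ⟨C, hC, H⟩ := two_point p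
  set η : ℝ := 1 / (2 * (C + 1) * 2 ^ p) with hη
  have hη0 : 0 < η := by positivity
  have hη1 : η ≤ 1 := by
    rw [hη, div_le_one (by positivity)]
    have : (1 : ℝ) ≤ 2 ^ p := one_le_pow₀ (by norm_num)
    nlinarith
  refine ⟨1 + 2 * C * (1 / η + 1) ^ p, by
    have : 0 ≤ 2 * C * (1 / η + 1) ^ p := by positivity
    linarith, fun M V s hM hV hstep hVs T => ?_⟩
  have hV0 : ∀ h, 0 ≤ V h := by
    intro h
    induction h with
    | nil => rw [hV]
    | cons b h ih => nlinarith [hVs b h, sq_nonneg (s h)]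
  set U : List Bool → ℝ := fun h => (M h ^ 2) ^ (p + 1) - C * (V h * (M h ^ 2 + V h) ^ p) with hU
  have hsup : ∀ h, (U (true :: h) + U (false :: h)) / 2 ≤ U h := by
    intro h
    simp only [hU, hstep, sg_true, sg_false]
    set x := M h
    set t := s h
    set v := V h
    have hv : 0 ≤ v := hV0 h
    have m1 : ∀ b, ∀ y : ℝ, (v + t ^ 2) * (y ^ 2 + (v + t ^ 2)) ^ p ≤
        V (b :: h) * (y ^ 2 + V (b :: h)) ^ p := by
      intro b y
      have := hVs b h
      apply mul_le_mul this _ (by positivity) (hV0 _)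
      exact pow_le_pow_left₀ (by positivity) (by linarith) p
    have m2 := half_pow_le p ((x + t) ^ 2 + (v + t ^ 2)) ((x - t) ^ 2 + (v + t ^ 2))
      (by positivity) (by positivity)
    have m3 : (x ^ 2 + v) ^ p ≤ (((x + t) ^ 2 + (v + t ^ 2) + ((x - t) ^ 2 + (v + t ^ 2))) / 2) ^ p :=
      pow_le_pow_left₀ (by positivity) (by nlinarith [sq_nonneg t]) p
    have m4 : (x ^ 2 + t ^ 2) ^ p ≤
        (((x + t) ^ 2 + (v + t ^ 2) + ((x - t) ^ 2 + (v + t ^ 2))) / 2) ^ p :=
      pow_le_pow_left₀ (by positivity) (by nlinarith [sq_nonneg t]) p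
    have m5 := H x t
    have a1 := m1 true (x + t)
    have a2 := m1 false (x - t)
    have e1 : x + 1 * t = x + t := by ring
    have e2 : x + -1 * t = x - t := by ring
    rw [e1, e2]
    set A := ((x + t) ^ 2 + (v + t ^ 2)) ^ p
    set B := ((x - t) ^ 2 + (v + t ^ 2)) ^ p
    have b1 : v * (x ^ 2 + v) ^ p ≤ v * ((A + B) / 2) := mul_le_mul_of_nonneg_left (m3.trans m2) hv
    have b2 : t ^ 2 * (x ^ 2 + t ^ 2) ^ p ≤ t ^ 2 * ((A + B) / 2) :=
      mul_le_mul_of_nonneg_left (m4.trans m2) (sq_nonneg t)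
    have b3 : v * (x ^ 2 + v) ^ p + t ^ 2 * (x ^ 2 + t ^ 2) ^ p ≤
        (V (true :: h) * ((x + t) ^ 2 + V (true :: h)) ^ p +
          V (false :: h) * ((x - t) ^ 2 + V (false :: h)) ^ p) / 2 := by nlinarith
    have b4 := mul_le_mul_of_nonneg_left b3 hC
    have b5 : 0 ≤ C * (t ^ 2 * (x ^ 2 + t ^ 2) ^ p) := by positivity
    nlinarith
  have hE := Ex_super U hsup T
  have hU0 : U [] = 0 := by simp [hU, hM, hV]
  have hpt : ∀ h, (M h ^ 2) ^ (p + 1) ≤
      2 * U h + (2 * C * (1 / η + 1) ^ p) * V h ^ (p + 1) := by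
    intro h
    simp only [hU]
    set y := M h ^ 2
    set v := V h
    have hy : 0 ≤ y := sq_nonneg _
    have hv : 0 ≤ v := hV0 h
    by_cases hc : v ≤ η * y
    · have h1 : (y + v) ^ p ≤ (2 * y) ^ p :=
        pow_le_pow_left₀ (by positivity) (by nlinarith) p
      have h2 : v * (y + v) ^ p ≤ (η * y) * (2 * y) ^ p :=
        mul_le_mul hc h1 (by positivity) (by positivity)
      have h3 : C * ((η * y) * (2 * y) ^ p) ≤ y ^ (p + 1) / 2 := by
        have : C * ((η * y) * (2 * y) ^ p) = (C / (C + 1)) * (y ^ (p + 1) / 2) := by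
          rw [hη, mul_pow]; field_simp; ring
        rw [this]
        apply mul_le_of_le_one_left (by positivity)
        rw [div_le_one (by positivity)]; linarith
      have h4 := mul_le_mul_of_nonneg_left h2 hC
      have h5 : 0 ≤ (2 * C * (1 / η + 1) ^ p) * v ^ (p + 1) := by positivity
      linarith
    · push Not at hc
      have h0 : y ≤ v / η := by rw [le_div_iff₀ hη0]; linarith
      have h1 : (y + v) ^ p ≤ ((1 / η + 1) * v) ^ p :=
        pow_le_pow_left₀ (by positivity) (by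
          have : (1 / η + 1) * v = v / η + v := by ring
          linarith) p
      have h2 := mul_le_mul_of_nonneg_left h1 hv
      have h4 := mul_le_mul_of_nonneg_left h2 hC
      have h5 : C * (v * ((1 / η + 1) * v) ^ p) = C * (1 / η + 1) ^ p * v ^ (p + 1) := by
        rw [mul_pow]; ring
      have h6 : 0 ≤ y ^ (p + 1) := by positivity
      linarith
  have h1 := Ex_mono T _ _ (fun h _ => hpt h)
  rw [Ex_add, Ex_mul, Ex_mul] at h1
  have h2 : 0 ≤ Ex T (fun h => V h ^ (p + 1)) := Ex_nonneg _ _ (fun h => pow_nonneg (hV0 h) _)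
  nlinarith

end Pool.Agent.Lib.MP_79af62_gt
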